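import Pool.Agent.MP_6600f1_ag.Defs
import Mathlib.RingTheory.MvPolynomial.EulerIdentity
import Mathlib.Analysis.Calculus.FDeriv.Mul
import Mathlib.Analysis.Calculus.FDeriv.Pi
import Mathlib.Analysis.Calculus.Deriv.Comp
import Mathlib.Analysis.Calculus.Deriv.Mul
import Mathlib.Analysis.Calculus.Deriv.Add
import Mathlib.Analysis.Calculus.ContDiff.Operations
import Mathlib.LinearAlgebra.Matrix.NonsingularInverse
import Mathlib.Topology.Algebra.MvPolynomial
import Mathlib.Algebra.MvPolynomial.Funext

/-! Linear substitution, scaling, derivatives. -/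

open MvPolynomial Set
open scoped Matrix

noncomputable section

namespace Pool.Agent.MP_6600f1_ag

abbrev M3 : Type := Matrix (Fin 3) (Fin 3) ℝ
abbrev V3 : Type := Fin 3 → ℝ

/-- linear substitution -/
def sub (A : M3) (F : Form) : Form := aeval (fun i => ∑ j, C (A i j) * X j : Fin 3 → Form) F

section
variable {K : Type} [CommRing K] [Algebra ℝ K] {F : Form} {n : ℕ}

theorem aeval_sub (A : M3) (p : Fin 3 → K) (F : Form) :
    aeval p (sub A F) = aeval (A.map (algebraMap ℝ K) *ᵥ p) F := by
  rw [sub, ← AlgHom.comp_apply, comp_aeval]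
  congr 2
  funext i
  simp [Matrix.mulVec, dotProduct]

theorem eval_sub' (A : M3) (v : V3) (F : Form) : eval v (sub A F) = eval (A *ᵥ v) F := by
  simpa [aeval_eq_eval] using aeval_sub A v F

theorem pderiv_sub (A : M3) (j : Fin 3) (F : Form) :
    pderiv j (sub A F) = ∑ i, C (A i j) * sub A (pderiv i F) := by
  unfold sub
  induction F using MvPolynomial.induction_on with
  | C a => simp
  | add p q hp hq => simp [hp, hq, mul_add, Finset.sum_add_distrib]
  | mul_X p i hp =>
    have e : pderiv j (∑ l, C (A i l) * X l : Form) = C (A i j) := by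
      simp [pderiv_X, Pi.single_apply]
    rw [map_mul, aeval_X, Derivation.leibniz, hp, e]
    simp only [Derivation.leibniz, smul_eq_mul, map_add, map_mul, aeval_X, pderiv_X, mul_add,
      Finset.sum_add_distrib]
    congr 1
    · rw [Finset.sum_eq_single i] <;> simp +contextual [mul_comm, eq_comm]
    · rw [Finset.mul_sum]
      exact Finset.sum_congr rfl fun l _ => by ring

theorem sub_hom (A : M3) (h : F.IsHomogeneous n) : (sub A F).IsHomogeneous n := by
  simpa [sub] using h.aeval (fun i => ∑ j, C (A i j) * X j : Fin 3 → Form) (n := 1)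
    fun i => IsHomogeneous.sum _ _ _ fun j _ => isHomogeneous_C_mul_X _ _

theorem sub_sub (A B : M3) (F : Form) : sub B (sub A F) = sub (A * B) F :=
  MvPolynomial.funext fun v => by simp only [eval_sub', Matrix.mulVec_mulVec]

theorem sub_one (F : Form) : sub 1 F = F :=
  MvPolynomial.funext fun v => by simp only [eval_sub', Matrix.one_mulVec]

theorem aeval_smul (h : F.IsHomogeneous n) (c : K) (p : Fin 3 → K) :
    aeval (c • p) F = c ^ n * aeval p F := by
  simp only [aeval_def, eval₂_eq', Finset.mul_sum]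
  refine Finset.sum_congr rfl fun d hd => ?_
  have : ∑ i, d i = n := by
    rw [← Finsupp.degree_eq_sum]
    by_contra H
    exact mem_support_iff.1 hd (h.coeff_eq_zero H)
  simp only [Pi.smul_apply, smul_eq_mul, mul_pow, Finset.prod_mul_distrib,
    Finset.prod_pow_eq_pow_sum, this]
  ring

theorem eval_smul' (h : F.IsHomogeneous n) (c : ℝ) (v : V3) :
    eval (c • v) F = c ^ n * eval v F := by
  simpa [aeval_eq_eval] using aeval_smul h c v

theorem aeval_real (v : V3) (F : Form) : aeval (fun i => (v i : ℂ)) F = (eval v F : ℝ) := by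
  induction F using MvPolynomial.induction_on with
  | C a => simp
  | add p q hp hq => simp [hp, hq]
  | mul_X p i hp => simp [hp]

end

/-- singular point -/
def Sg {K : Type} [CommRing K] [Algebra ℝ K] (F : Form) (p : Fin 3 → K) : Prop :=
  aeval p F = 0 ∧ ∀ i, aeval p (pderiv i F) = 0

section
variable {K : Type} [CommRing K] [Algebra ℝ K] {F : Form} {n : ℕ} {p : Fin 3 → K}

theorem nonsing_iff : Nonsing F ↔ ∀ p : Fin 3 → ℂ, p ≠ 0 → ¬Sg F p := by
  simp [Nonsing, Sg]

theorem Sg.smul (h : Sg F p) (hF : F.IsHomogeneous n) (c : K) : Sg F (c • p) :=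
  ⟨by rw [aeval_smul hF, h.1, mul_zero], fun i => by rw [aeval_smul hF.pderiv, h.2, mul_zero]⟩

theorem Sg.sub {A : M3} (h : Sg F (A.map (algebraMap ℝ K) *ᵥ p)) : Sg (sub A F) p :=
  ⟨by rw [aeval_sub, h.1], fun j => by simp [pderiv_sub, aeval_sub, h.2]⟩

theorem map_mul_inv {A : M3} (hA : A.det ≠ 0) (p : Fin 3 → K) :
    A⁻¹.map (algebraMap ℝ K) *ᵥ (A.map (algebraMap ℝ K) *ᵥ p) = p := by
  rw [Matrix.mulVec_mulVec, ← Matrix.map_mul, Matrix.nonsing_inv_mul _ hA.isUnit,
    Matrix.map_one _ (map_zero _) (map_one _), Matrix.one_mulVec]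

theorem Sg.of_sub {A : M3} (hA : A.det ≠ 0) (h : Sg (MP_6600f1_ag.sub A F) p) :
    Sg F (A.map (algebraMap ℝ K) *ᵥ p) := by
  have := Sg.sub (A := A⁻¹) (p := A.map (algebraMap ℝ K) *ᵥ p) (by rwa [map_mul_inv hA])
  rwa [sub_sub, Matrix.mul_nonsing_inv _ hA.isUnit, sub_one] at this

theorem ne_zero_of_inv {A : M3} (hA : A.det ≠ 0) (hp : p ≠ 0) :
    A.map (algebraMap ℝ K) *ᵥ p ≠ 0 := fun e => hp (by
  rw [← map_mul_inv hA p, e, Matrix.mulVec_zero])

theorem Sg.of_smul {c : ℝ} (hc : c ≠ 0) (h : Sg (c • F) p) : Sg F p := by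
  have k : ∀ G : Form, aeval p (c • G) = 0 → aeval p G = 0 := fun G e => by
    rw [map_smul] at e
    rw [← inv_smul_smul₀ hc (aeval p G), e, smul_zero]
  exact ⟨k _ h.1, fun i => k _ (by simpa only [Derivation.map_smul] using h.2 i)⟩

theorem Nonsing.sub (h : Nonsing F) {A : M3} (hA : A.det ≠ 0) : Nonsing (sub A F) :=
  nonsing_iff.2 fun _ hp s => nonsing_iff.1 h _ (ne_zero_of_inv hA hp) (s.of_sub hA)

theorem Nonsing.smul (h : Nonsing F) {c : ℝ} (hc : c ≠ 0) : Nonsing (c • F) :=
  nonsing_iff.2 fun _ hp s => nonsing_iff.1 h _ hp (s.of_smul hc)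

end

/-- no real singular point -/
def RN (F : Form) : Prop := ∀ v : V3, v ≠ 0 → ¬Sg F v

section
variable {F : Form} {n : ℕ} {v : V3}

theorem sg_real : Sg F v ↔ eval v F = 0 ∧ ∀ i, eval v (pderiv i F) = 0 := by
  simp only [Sg, aeval_eq_eval]

theorem sg_complex : Sg F (fun i => (v i : ℂ)) ↔ Sg F v := by
  rw [sg_real]
  simp only [Sg, aeval_real, Complex.ofReal_eq_zero]

theorem Nonsing.rn (h : Nonsing F) : RN F := fun v hv s =>
  nonsing_iff.1 h _ (fun e => hv (funext fun i => by simpa using congrFun e i)) (sg_complex.2 s)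

theorem RN.sub (h : RN F) {A : M3} (hA : A.det ≠ 0) : RN (sub A F) := fun _ hp s =>
  h _ (ne_zero_of_inv hA hp) (s.of_sub hA)

theorem RN.smul (h : RN F) {c : ℝ} (hc : c ≠ 0) : RN (c • F) := fun _ hp s => h _ hp (s.of_smul hc)

/-- the differential -/
def D (F : Form) (v : V3) : V3 →L[ℝ] ℝ :=
  ∑ i, eval v (pderiv i F) • ContinuousLinearMap.proj i

theorem D_apply (F : Form) (v w : V3) : D F v w = ∑ i, eval v (pderiv i F) * w i := by simp [D]

theorem hasFDerivAt_eval (F : Form) (v : V3) : HasFDerivAt (fun w : V3 => eval w F) (D F v) v := by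
  induction F using MvPolynomial.induction_on with
  | C a => simpa [D] using hasFDerivAt_const a v
  | add p q hp hq =>
    simp only [map_add]
    refine (hp.add hq).congr_fderiv ?_
    ext w; simp [D_apply, add_mul, Finset.sum_add_distrib]
  | mul_X p i hp =>
    simp only [map_mul, eval_X]
    refine (hp.mul (hasFDerivAt_apply i v)).congr_fderiv ?_
    ext w
    simp only [D_apply, Derivation.leibniz, smul_eq_mul, map_add, map_mul, eval_X, pderiv_X,
      Pi.single_apply, add_mul, Finset.sum_add_distrib, add_apply, smul_apply,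
      ContinuousLinearMap.proj_apply, Finset.mul_sum]
    congr 1
    · rw [Finset.sum_eq_single i] <;> simp +contextual [eq_comm]
    · exact Finset.sum_congr rfl fun l _ => by ring

theorem hasDerivAt_line (F : Form) (v e : V3) (t : ℝ) :
    HasDerivAt (fun s : ℝ => eval (v + s • e) F) (D F (v + t • e) e) t := by
  have := (hasFDerivAt_eval F (v + t • e)).comp_hasDerivAt t
    (((hasDerivAt_id t).smul_const e).const_add v)
  rw [one_smul] at this
  exact this

theorem Sg.D_zero (h : Sg F v) : D F v = 0 := by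
  ext w; simp [D_apply, (sg_real.1 h).2]

theorem sg_of_D (h : eval v F = 0) (h' : D F v = 0) : Sg F v :=
  sg_real.2 ⟨h, fun i => by
    simpa [D_apply, Pi.single_apply] using congrArg (fun L => L (Pi.single i 1)) h'⟩

theorem euler (h : F.IsHomogeneous n) (v : V3) : D F v v = n * eval v F := by
  have := congrArg (eval v) h.sum_X_mul_pderiv
  simpa [D_apply, mul_comm] using this

end

end Pool.Agent.MP_6600f1_ag
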