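import Mathlib.Topology.MetricSpace.HausdorffDimension
import Mathlib.Analysis.Convex.PathConnected
import Mathlib.Analysis.Calculus.ContDiff.Operations

/-! Removing finitely many smooth images of codimension two does not disconnect an open set. -/

open Set Filter Module Metric
open scoped Topology

namespace Pool.Agent.MP_6600f1_ag

theorem avoid {E P ι : Type} [NormedAddCommGroup E] [NormedSpace ℝ E] [FiniteDimensional ℝ E]
    [NormedAddCommGroup P] [NormedSpace ℝ P] [FiniteDimensional ℝ P] [Finite ι] (φ : ι → P → E)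
    (hφ : ∀ i, ContDiff ℝ 1 (φ i)) (hd : finrank ℝ P + 1 < finrank ℝ E) {U Y : Set E}
    (hU : IsOpen U) (hZ : ∀ e ∈ U, e ∉ Y → ∃ i p, φ i p = e) {x y : E} (hx : x ∈ Y) (hy : y ∈ Y)
    (h : JoinedIn U x y) : JoinedIn Y x y := by
  let Cn : E → Set E := fun a => ⋃ i, range fun q : P × ℝ => a + q.2 • (φ i q.1 - a)
  have dim : ∀ a, dimH (Cn a) < finrank ℝ E := fun a => by
    rw [dimH_iUnion]
    refine lt_of_le_of_lt (b := (finrank ℝ (P × ℝ) : ENNReal)) (iSup_le fun i =>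
      ContDiff.dimH_range_le (contDiff_const.add
        (contDiff_snd.smul (((hφ i).comp contDiff_fst).sub contDiff_const)))) ?_
    rw [finrank_prod, finrank_self]
    exact_mod_cast hd
  have den : ∀ a b, Dense (Cn a ∪ Cn b)ᶜ := fun a b =>
    dense_compl_of_dimH_lt_finrank (by rw [dimH_union]; exact max_lt (dim a) (dim b))
  have seg : ∀ a ∈ Y, ∀ w ∉ Cn a, segment ℝ a w ⊆ U → JoinedIn Y a w := fun a ha w hw hs => by
    refine JoinedIn.of_segment_subset fun z hz => by_contra fun H => ?_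
    obtain ⟨i, p, rfl⟩ := hZ z (hs hz) H
    rw [segment_eq_image'] at hz
    obtain ⟨s, -, e⟩ := hz
    have s0 : s ≠ 0 := by
      rintro rfl
      exact H (by simpa [← e] using ha)
    refine hw (mem_iUnion.2 ⟨i, (p, s⁻¹), ?_⟩)
    simp [← e, s0]
  have loc : ∀ u ε, ball u ε ⊆ U → ∀ a ∈ ball u ε ∩ Y, ∀ b ∈ ball u ε ∩ Y, JoinedIn Y a b :=
    fun u ε hB a ha b hb => by
    obtain ⟨w, h1, h2⟩ := (den a b).inter_open_nonempty _ isOpen_ball ⟨a, ha.1⟩
    exact (seg a ha.2 w (fun c => h2 (.inl c))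
      (((convex_ball u ε).segment_subset ha.1 h1).trans hB)).trans
      (seg b hb.2 w (fun c => h2 (.inr c))
        (((convex_ball u ε).segment_subset hb.1 h1).trans hB)).symm
  let f : E → Prop := fun u => ∀ᶠ w in 𝓝 u, w ∈ Y → JoinedIn Y x w
  have key : ∀ u ε, ball u ε ⊆ U → ∀ u' ∈ ball u ε,
      f u' ↔ ∃ w ∈ ball u ε ∩ Y, JoinedIn Y x w := fun u ε hB u' hu' => by
    refine ⟨fun H => ?_, fun ⟨w, h1, h2⟩ => ?_⟩
    · obtain ⟨w, h1, h2⟩ := (den x x).inter_nhds_nonempty (inter_mem H (isOpen_ball.mem_nhds hu'))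
      have : w ∈ Y := by_contra fun c => by
        obtain ⟨i, p, rfl⟩ := hZ w (hB h2.2) c
        exact h1 (.inl (mem_iUnion.2 ⟨i, (p, 1), by simp⟩))
      exact ⟨w, ⟨h2.2, this⟩, h2.1 this⟩
    · filter_upwards [isOpen_ball.mem_nhds hu'] with z hz hz' using
        h2.trans (loc u ε hB w h1 z ⟨hz, hz'⟩)
  obtain ⟨γ, hγ⟩ := h
  have : f x ↔ f y := by
    refine (isPreconnected_range γ.continuous).induction₂ (fun a b => f a ↔ f b) ?_
      (fun _ _ _ _ _ _ => Iff.trans) (fun _ _ _ _ => Iff.symm) γ.source_mem_range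
      γ.target_mem_range
    rintro _ ⟨t, rfl⟩
    obtain ⟨ε, h0, hB⟩ := Metric.isOpen_iff.1 hU _ (hγ t)
    filter_upwards [mem_nhdsWithin_of_mem_nhds (ball_mem_nhds _ h0)] with z hz
    exact (key _ ε hB _ (mem_ball_self h0)).trans (key _ ε hB z hz).symm
  obtain ⟨ε, h0, hB⟩ := Metric.isOpen_iff.1 hU _ (γ.source ▸ hγ 0)
  exact (this.1 ((key x ε hB x (mem_ball_self h0)).2
    ⟨x, ⟨mem_ball_self h0, hx⟩, .refl hx⟩)).self_of_nhds hy

end Pool.Agent.MP_6600f1_ag
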