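import Pool.Agent.MP_6600f1_ag.GL
import Mathlib.Algebra.Polynomial.FieldDivision
import Mathlib.Analysis.Calculus.Deriv.Polynomial
import Mathlib.Analysis.Normed.Module.Connected
import Mathlib.Order.Interval.Finset.Fin
import Mathlib.Data.Finset.Sort

/-! Curves `a z ^ n + B (x, y) = 0`. -/

open MvPolynomial Set
open scoped Matrix

noncomputable section

namespace Pool.Agent.MP_6600f1_ag

variable {n m e : ℕ} {F Q Q' : Form} {a a' ε : ℝ} {t t' : Fin m → ℝ}

/-- the normal form -/
def W (n : ℕ) (a : ℝ) (t : Fin m → ℝ) (Q : Form) : Form :=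
  C a * X 2 ^ n + (∏ i, (X 0 + C (-t i) * X 1)) * Q

/-- definite binary form of sign `ε` -/
structure Df (e : ℕ) (ε : ℝ) (Q : Form) : Prop where
  hom : Q.IsHomogeneous e
  bin : pderiv 2 Q = 0
  pos : ∀ v : V3, (v 0, v 1) ≠ (0, 0) → 0 < ε * eval v Q

theorem W_hom (hn : m + e = n) (h : Q.IsHomogeneous e) : (W n a t Q).IsHomogeneous n := by
  refine (isHomogeneous_C_mul_X_pow _ _ _).add (hn ▸ IsHomogeneous.mul ?_ h)
  simpa using IsHomogeneous.prod Finset.univ (fun i => (X 0 + C (-t i) * X 1 : Form)) (fun _ => 1)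
    fun i _ => (isHomogeneous_X ℝ 0).add (isHomogeneous_C_mul_X _ _)

theorem W_rn (hn : n ≠ 0) (ha : a ≠ 0) (ht : Function.Injective t) (h : Df e ε Q) :
    RN (W n a t Q) := fun v hv s => by
  obtain ⟨s1, s2⟩ := sg_real.1 s
  have z : v 2 = 0 := by
    have p : pderiv 2 (∏ i, (X 0 + C (-t i) * X 1 : Form)) = 0 := by
      refine Finset.prod_induction _ (fun P : Form => pderiv 2 P = 0) (fun a b h1 h2 => ?_)
        (by simp) fun i _ => by simp
      simp [h1, h2]
    have := s2 2
    rw [W, map_add, Derivation.leibniz _ _ Q, p, h.bin] at this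
    simp [hn, ha, Derivation.leibniz_pow] at this
    exact this.1
  have nz : (v 0, v 1) ≠ (0, 0) := fun c => hv (funext fun i => by
    fin_cases i
    exacts [congrArg Prod.fst c, congrArg Prod.snd c, z])
  have q : eval v Q ≠ 0 := fun c => by simpa [c] using h.pos v nz
  obtain ⟨i, hi⟩ : ∃ i, v 0 + -t i * v 1 = 0 := by
    simpa [W, z, hn, q, Finset.prod_eq_zero_iff] using s1
  have y : v 1 ≠ 0 := fun c => nz (by simpa [c] using hi)
  have := s2 0
  rw [W, ← Finset.mul_prod_erase _ _ (Finset.mem_univ i), mul_assoc] at this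
  simp only [map_add, Derivation.leibniz, smul_eq_mul, map_mul, eval_X, eval_C, hi, zero_mul,
    Derivation.leibniz_pow, pderiv_X, pderiv_C] at this
  simp [q, Finset.prod_eq_zero_iff] at this
  obtain ⟨j, h1, h2⟩ := this
  exact h1 (ht (mul_right_cancel₀ y (by linarith)))

theorem W_J (hn : n ≠ 0) (hm : m + e = n) (ha : 0 < a) (ha' : 0 < a') (ht : StrictMono t)
    (ht' : StrictMono t') (h : Df e ε Q) (h' : Df e ε Q') : J n (W n a t Q) (W n a' t' Q') := by
  have cv : ∀ {s x y : ℝ}, s ∈ Icc (0 : ℝ) 1 → 0 < x → 0 < y → 0 < (1 - s) * x + s * y :=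
    fun {s x y} hs hx hy => by rcases le_total x y with c | c <;> nlinarith [hs.1, hs.2]
  have k : ∀ s ∈ Icc (0 : ℝ) 1, Df e ε ((1 - s) • Q + s • Q') := fun s hs =>
    ⟨by simpa only [C_mul'] using (h.hom.C_mul _).add (h'.hom.C_mul _), by simp [h.bin, h'.bin],
      fun v hv => by
        have := cv hs (h.pos v hv) (h'.pos v hv)
        simp only [map_add, smul_eval]
        linarith⟩
  simpa using J.of_sm (γ := fun s => W n ((1 - s) * a + s * a') (fun i => (1 - s) * t i + s * t' i)
    ((1 - s) • Q + s • Q'))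
    (((Sm.C (by fun_prop)).mul (Sm.const _)).add ((Sm.prod fun i => (Sm.const _).add
      ((Sm.C (by fun_prop)).mul (Sm.const _))).mul
        ((Sm.smul (by fun_prop) (Sm.const _)).add (Sm.smul (by fun_prop) (Sm.const _)))))
    fun s hs => ⟨W_hom hm (k s hs).hom, W_rn hn (cv hs ha ha').ne' (StrictMono.injective
      fun i j hij => by linarith [cv hs (sub_pos.2 (ht hij)) (sub_pos.2 (ht' hij))]) (k s hs)⟩

/-- homogenisation -/
def hom (q : Polynomial ℝ) (e : ℕ) : Form :=
  ∑ j ∈ Finset.range (e + 1), C (q.coeff j) * (X 0 ^ j * X 1 ^ (e - j))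

theorem eval_hom {q : Polynomial ℝ} (hq : q.natDegree ≤ e) {v : V3} (hv : v 1 ≠ 0) :
    eval v (hom q e) = v 1 ^ e * q.eval (v 0 / v 1) := by
  rw [Polynomial.eval_eq_sum_range' (Nat.lt_succ_of_le hq), Finset.mul_sum]
  simp only [hom, map_sum, map_mul, map_pow, eval_C, eval_X]
  refine Finset.sum_congr rfl fun j hj => ?_
  rw [pow_sub₀ _ hv (Nat.le_of_lt_succ (Finset.mem_range.1 hj)), div_pow]
  field_simp

theorem eval_hom0 (q : Polynomial ℝ) {v : V3} (hv : v 1 = 0) :
    eval v (hom q e) = q.coeff e * v 0 ^ e := by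
  simp only [hom, map_sum, map_mul, map_pow, eval_C, eval_X, hv]
  rw [Finset.sum_eq_single e (fun j hj c => ?_) (by simp)]
  · simp
  · rw [zero_pow (by have := Finset.mem_range.1 hj; omega), mul_zero, mul_zero]

theorem hom_Df {q : Polynomial ℝ} (hq : q.natDegree = e) (h0 : ∀ s, q.eval s ≠ 0)
    (h1 : 0 < ε * q.coeff e) : Df e ε (hom q e) := by
  have c : q.coeff e ≠ 0 := right_ne_zero_of_mul h1.ne'
  have b : pderiv 2 (hom q e) = 0 := by simp [hom, Derivation.leibniz_pow]
  let f : ℝ × ℝ → ℝ := fun p => ε * eval ![p.1, p.2, 0] (hom q e)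
  have fc : Continuous f := continuous_const.mul ((MvPolynomial.continuous_eval _).comp (by fun_prop))
  have nz : ∀ p : ℝ × ℝ, p ≠ (0, 0) → f p ≠ 0 := fun p hp => by
    refine mul_ne_zero (left_ne_zero_of_mul h1.ne') ?_
    by_cases y : p.2 = 0
    · rw [eval_hom0 q (by simpa)]
      exact mul_ne_zero c (pow_ne_zero _ fun x => hp (Prod.ext x y))
    · rw [eval_hom hq.le (by simpa)]
      exact mul_ne_zero (pow_ne_zero _ y) (h0 _)
  refine ⟨IsHomogeneous.sum _ _ _ fun j hj => ?_, b, fun v hv => ?_⟩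
  · have := ((isHomogeneous_X_pow (R := ℝ) (0 : Fin 3) j).mul
      (isHomogeneous_X_pow 1 (e - j))).C_mul (q.coeff j)
    rwa [Nat.add_sub_cancel' (Nat.le_of_lt_succ (Finset.mem_range.1 hj))] at this
  · have e1 : ε * eval v (hom q e) = f (v 0, v 1) := by simp [f, hom]
    have e2 : 0 < f (1, 0) := by simpa [f, eval_hom0] using h1
    rw [e1]
    by_contra H
    obtain ⟨p, h2, h3⟩ := (isConnected_compl_singleton_of_one_lt_rank (E := ℝ × ℝ)
      (by simp [one_add_one_eq_two])
      (0, 0)).isPreconnected.intermediate_value (a := (v 0, v 1)) (b := (1, 0)) hv (by simp)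
      fc.continuousOn (⟨not_lt.1 H, e2.le⟩ : (0 : ℝ) ∈ Icc _ _)
    exact nz p h2 h3

theorem eval3 (F : Form) (x y z : ℝ) :
    eval ![x, y, z] F = ∑ d ∈ F.support, coeff d F * (x ^ d 0 * y ^ d 1 * z ^ d 2) := by
  simp [eval_eq', Fin.prod_univ_three]

theorem deg3 (hF : F.IsHomogeneous n) {d : Fin 3 →₀ ℕ} (hd : d ∈ F.support) :
    d 0 + d 1 + d 2 = n := by
  rw [← Fin.sum_univ_three, ← Finsupp.degree_eq_sum]
  by_contra H
  exact mem_support_iff.1 hd (hF.coeff_eq_zero H)

theorem v3 (v : V3) : ![v 0, v 1, v 2] = v := funext fun i => by fin_cases i <;> rfl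

/-- a split form is a normal form -/
theorem split_W (hF : F.IsHomogeneous n)
    (hs : ∀ x y z, eval ![x, y, z] F = eval ![x, y, 0] F + a * z ^ n)
    (hε : 0 < ε * eval ![1, 0, 0] F) (hc : {s | eval ![s, 1, 0] F = 0}.ncard = m)
    (h1 : ∀ s, eval ![s, 1, 0] F = 0 → deriv (fun s => eval ![s, 1, 0] F) s ≠ 0) :
    ∃ (e : ℕ) (t : Fin m → ℝ) (Q : Form), m + e = n ∧ StrictMono t ∧ Df e ε Q ∧ F = W n a t Q := by
  classical
  let b : Polynomial ℝ := ∑ d ∈ F.support, Polynomial.monomial (d 0) (coeff d F * 0 ^ d 2)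
  have b1 : ∀ s, eval ![s, 1, 0] F = b.eval s := fun s => by
    simp only [eval3, b, Polynomial.eval_finsetSum, Polynomial.eval_monomial]
    exact Finset.sum_congr rfl fun d _ => by ring
  have b2 : b.coeff n = eval ![1, 0, 0] F := by
    simp only [eval3, b, Polynomial.finsetSum_coeff, Polynomial.coeff_monomial]
    refine Finset.sum_congr rfl fun d hd => ?_
    have := deg3 hF hd
    split_ifs with c
    · simp [show d 1 = 0 by omega]
    · rcases (by omega : d 1 ≠ 0 ∨ d 2 ≠ 0) with c | c <;> simp [c]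
  have b3 : b.coeff n ≠ 0 := b2 ▸ right_ne_zero_of_mul hε.ne'
  have b4 : b.natDegree = n := Polynomial.natDegree_eq_of_le_of_coeff_ne_zero
    (Polynomial.natDegree_sum_le_of_forall_le _ _ fun d hd =>
      (Polynomial.natDegree_monomial_le _).trans (by have := deg3 hF hd; omega)) b3
  have b0 : b ≠ 0 := fun c => b3 (by simp [c])
  simp only [b1, Polynomial.deriv] at hc h1
  have nd : b.roots.Nodup := Multiset.nodup_iff_count_le_one.2 fun s => by
    rw [Polynomial.count_roots]
    by_contra H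
    have := (Polynomial.one_lt_rootMultiplicity_iff_isRoot b0).1 (not_le.1 H)
    exact h1 s this.1 this.2
  have cd : b.roots.toFinset.card = m := by
    rw [← hc, ← ncard_coe_finset]
    congr 1
    ext s; simp [b0]
  obtain ⟨q, q1, q2, q3⟩ := b.exists_prod_multiset_X_sub_C_mul
  let t := b.roots.toFinset.orderEmbOfFin cd
  have pr : (b.roots.map fun a => Polynomial.X - Polynomial.C a).prod =
      ∏ i, (Polynomial.X - Polynomial.C (t i)) := by
    rw [← Finset.prod_image (g := t) (f := fun a => Polynomial.X - Polynomial.C a)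
      t.injective.injOn, Finset.image_orderEmbOfFin_univ, Finset.prod, Multiset.toFinset_val,
      nd.dedup]
  have q0 : q ≠ 0 := fun c => b0 (by rw [← q1, c, mul_zero])
  have q4 : q.coeff q.natDegree = b.coeff n := by
    rw [← b4, Polynomial.coeff_natDegree, Polynomial.coeff_natDegree, ← q1,
      Polynomial.leadingCoeff_monic_mul (Polynomial.monic_multisetProd_X_sub_C _)]
  have hm : m + q.natDegree = n := by
    rw [← b4, ← q2, ← cd, Multiset.toFinset_card_of_nodup nd]
  refine ⟨_, t, hom q q.natDegree, hm, t.strictMono, hom_Df rfl (fun s c => ?_) (by rwa [q4, b2]), ?_⟩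
  · simpa [q3] using (Polynomial.mem_roots q0).2 c
  refine mul_right_cancel₀ (X_ne_zero (1 : Fin 3)) (MvPolynomial.funext fun v => ?_)
  by_cases y : v 1 = 0
  · simp [y]
  have e1 : ![v 0, v 1, 0] = v 1 • ![v 0 / v 1, 1, 0] := by
    funext i; fin_cases i <;> simp; field_simp
  rw [map_mul, map_mul, ← v3 v, hs, e1, eval_smul' hF, b1, ← q1, pr, v3, W]
  simp only [map_add, map_mul, map_pow, map_prod, eval_C, eval_X, eval_hom le_rfl y,
    Polynomial.eval_mul, Polynomial.eval_prod, Polynomial.eval_sub, Polynomial.eval_X,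
    Polynomial.eval_C]
  have : ∏ i, (v 0 + -t i * v 1) = v 1 ^ m * ∏ i, (v 0 / v 1 - t i) := by
    rw [← Fin.prod_const, ← Finset.prod_mul_distrib]
    exact Finset.prod_congr rfl fun i _ => by field_simp; ring
  rw [this, ← hm]
  ring

end Pool.Agent.MP_6600f1_ag
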