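import Pool.Agent.MP_6600f1_ag.Defs

/-! Curves whose ovals contract simultaneously to solitary nodes. -/

open MvPolynomial Set

noncomputable section

namespace Pool.Agent.MP_6600f1_ag

/-- the second derivative of `F` at `v` in the direction `w` -/
def hess (F : Form) (v w : Fin 3 → ℝ) : ℝ :=
  ∑ i, ∑ j, eval v (pderiv i (pderiv j F)) * (w i * w j)

/-- `F ≥ 0`, its real zeros are exactly the distinct points `p i` of the real projective plane,
and each of them is a nondegenerate minimum (a solitary node) -/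
def Solitary {r : ℕ} (F : Form) (p : Fin r → Fin 3 → ℝ) : Prop :=
  (∀ i, p i ≠ 0) ∧ (∀ i j (c : ℝ), p i = c • p j → i = j) ∧ (∀ v, 0 ≤ eval v F) ∧
    (∀ v, v ≠ 0 → (eval v F = 0 ↔ ∃ i, ∃ c : ℝ, v = c • p i)) ∧
    ∀ i w, (∀ c : ℝ, w ≠ c • p i) → 0 < hess F (p i) w

/-- the curve `F = 0` has no real singular point -/
def NoRealSing (F : Form) : Prop :=
  ∀ v : Fin 3 → ℝ, v ≠ 0 → eval v F = 0 → ∃ i, eval v (pderiv i F) ≠ 0

/-- the gradients at the points `p i` of a form of degree `m` can be prescribed arbitrarily: the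
double points at the `p i` impose independent conditions on curves of degree `m` -/
def Free {r : ℕ} (m : ℕ) (p : Fin r → Fin 3 → ℝ) : Prop :=
  ∀ ξ : Fin r → Fin 3 → ℝ, ∃ H : Form, H.IsHomogeneous m ∧ ∀ i l, eval (p i) (pderiv l H) = ξ i l

/-- A nonzero multiple of `F` is the end of a continuous path of forms of degree `m` that starts at
a form with `r` solitary nodes, has no real singular point after the start, and opens every node
to an oval: arbitrarily close to the start it is negative near each node. If `r > m`, the nodes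
are asked to impose independent conditions. -/
def Contractible (m : ℕ) (F : Form) (r : ℕ) : Prop :=
  ∃ (γ : ℝ → Form) (p : Fin r → Fin 3 → ℝ) (c : ℝ), c ≠ 0 ∧ γ 1 = c • F ∧
    (∀ d, ContinuousOn (fun t => coeff d (γ t)) (Icc 0 1)) ∧
    (∀ t ∈ Icc (0 : ℝ) 1, (γ t).IsHomogeneous m) ∧ Solitary (γ 0) p ∧ (r ≤ m ∨ Free m p) ∧
    (∀ t ∈ Ioc (0 : ℝ) 1, NoRealSing (γ t)) ∧
    ∀ δ : ℝ, 0 < δ → ∃ t ∈ Ioo 0 δ, ∀ i, ∃ u, ‖u - p i‖ < δ ∧ eval u (γ t) < 0

end Pool.Agent.MP_6600f1_ag
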