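import Pool.Agent.MP_6600f1_ag.Star
import Mathlib.Analysis.Calculus.Deriv.Slope

/-! Convex cones over convex ovals, supporting planes, and the extremal cross ratio. -/

open MvPolynomial Set Filter Topology
open scoped Matrix

noncomputable section

namespace Pool.Agent.MP_6600f1_ag

variable {n : ℕ} {G : Form} {K K' : Set V3} {a c p v e w z P : V3} {t s x y u : ℝ}

/-- the cone over one convex oval -/
structure Cn (n : ℕ) (G : Form) (K : Set V3) : Prop where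
  hom : G.IsHomogeneous n
  rn : RN G
  inf : ∀ v : V3, v ≠ 0 → v 2 = 0 → 0 < eval v G
  add : ∀ {u v}, u ∈ K → v ∈ K → u + v ∈ K
  smul : ∀ {c : ℝ} {v}, 0 < c → v ∈ K → c • v ∈ K
  le : ∀ {v}, v ∈ K → eval v G ≤ 0
  pos : ∀ {v}, v ∈ K → 0 < v 2
  loc : ∀ {v}, v ∈ K → ∀ᶠ w in 𝓝 v, eval w G ≤ 0 → w ∈ K
  cl : IsClosed {v ∈ K | v 2 = 1}
  ne : K.Nonempty

theorem slope_line (G : Form) (v e : V3) : Tendsto
    (fun ε : ℝ => ε⁻¹ * (eval (v + ε • e) G - eval v G)) (𝓝[>] 0) (𝓝 (D G v e)) := by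
  simpa using (hasDerivAt_line G v e 0).tendsto_slope_zero_right

theorem line_zero (h : ∀ s : ℝ, 0 < s → eval (p + s • v) G = 0) (s : ℝ) :
    eval (p + s • v) G = 0 := by
  let q : Form → Polynomial ℝ :=
    aeval fun i => Polynomial.C (p i) + Polynomial.C (v i) * Polynomial.X
  have e : ∀ s (F : Form), (q F).eval s = eval (p + s • v) F := fun s F => by
    induction F using MvPolynomial.induction_on with
    | C a => simp [q]
    | add f g hf hg => simp only [q, map_add, Polynomial.eval_add] at hf hg ⊢; rw [hf, hg]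
    | mul_X f i hf =>
      simp only [q, map_mul, Polynomial.eval_mul] at hf ⊢
      rw [hf]; simp [mul_comm s]
  rw [← e, Polynomial.eq_zero_of_infinite_isRoot (q G)
    ((Ioi_infinite 0).mono fun s hs => (e s G).trans (h s hs)), Polynomial.eval_zero]

namespace Cn

theorem cpt (h : Cn n G K) : IsCompact {v ∈ K | v 2 = 1} := by
  have k : IsCompact (Metric.sphere (0 : V3) 1 ∩ {w | eval w G ≤ 0}) :=
    (isCompact_sphere _ _).inter_right (isClosed_le (MvPolynomial.continuous_eval G) continuous_const)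
  refine (k.image_of_continuousOn (f := fun w => (w 2)⁻¹ • w)
    (((continuous_apply 2).continuousOn.inv₀ fun w hw z => ?_).smul continuousOn_id)).of_isClosed_subset
    h.cl fun v hv => ?_
  · exact (h.inf w (by rintro rfl; simpa using hw.1) z).not_ge hw.2
  · have v0 : 0 < ‖v‖ := norm_pos_iff.2 (by rintro rfl; simpa using hv.2)
    refine ⟨‖v‖⁻¹ • v, ⟨by simp [norm_smul, v0.ne'], h.le (h.smul (inv_pos.2 v0) hv.1)⟩, ?_⟩
    simp [hv.2, smul_smul, v0.ne']

theorem add0 (h : Cn n G K) (hw : w ∈ K) (hz : z ∈ K) (hx : 0 ≤ x) : w + x • z ∈ K := by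
  rcases hx.eq_or_lt with rfl | hx
  · simpa
  · exact h.add hw (h.smul hx hz)

theorem enter (h : Cn n G K) (hv : v ∈ K) (he : eval v G = 0 → D G v e < 0) :
    ∀ᶠ ε : ℝ in 𝓝[>] 0, v + ε • e ∈ K ∧ eval (v + ε • e) G < 0 := by
  have l : Tendsto (fun ε : ℝ => v + ε • e) (𝓝[>] 0) (𝓝 v) := by
    have : Continuous fun ε : ℝ => v + ε • e := by fun_prop
    simpa using (this.tendsto 0).mono_left nhdsWithin_le_nhds
  have k : ∀ᶠ ε : ℝ in 𝓝[>] 0, eval (v + ε • e) G < 0 := by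
    rcases (h.le hv).eq_or_lt with z | z
    · filter_upwards [(slope_line G v e).eventually_lt_const (he z), self_mem_nhdsWithin]
        with ε h1 h2
      rw [z, sub_zero] at h1
      exact neg_of_mul_neg_right h1 (inv_pos.2 h2).le
    · exact (((MvPolynomial.continuous_eval G).tendsto v).comp l).eventually_lt_const z
  filter_upwards [k, l.eventually (h.loc hv)] with ε h1 h2 using ⟨h2 h1.le, h1⟩

theorem self (h : Cn n G K) (z : eval p G = 0) : D G p p = 0 := by rw [euler h.hom, z, mul_zero]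

theorem supp_le (h : Cn n G K) (hp : p ∈ K) (z : eval p G = 0) (hv : v ∈ K) : D G p v ≤ 0 :=
  le_of_tendsto (slope_line G p v) (by
    filter_upwards [self_mem_nhdsWithin] with ε h2
    rw [z, sub_zero]
    exact mul_nonpos_of_nonneg_of_nonpos (inv_pos.2 h2).le (h.le (h.add hp (h.smul h2 hv))))

theorem dir (h : Cn n G K) (hp : p ∈ K) (z : eval p G = 0) : ∃ e, D G p e < 0 := by
  by_contra H
  push Not at H
  refine h.rn p (by rintro rfl; simpa using h.pos hp) (sg_of_D z ?_)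
  ext1 w
  exact le_antisymm (by simpa using H (-w)) (H w)

theorem exists_neg (h : Cn n G K) : ∃ v ∈ K, eval v G < 0 := by
  obtain ⟨p, hp⟩ := h.ne
  rcases (h.le hp).eq_or_lt with z | z
  · obtain ⟨e, he⟩ := h.dir hp z
    obtain ⟨ε, h1⟩ := (h.enter hp fun _ => he).exists
    exact ⟨_, h1⟩
  · exact ⟨p, hp, z⟩

theorem supp_eq (h : Cn n G K) (hp : p ∈ K) (z : eval p G = 0) (hv : v ∈ K) (h0 : D G p v = 0) :
    ∃ m : ℝ, v = m • p := by
  obtain ⟨e, he⟩ := h.dir hp z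
  have k := line_zero (G := G) (p := p) (v := v) (fun s hs => ?_) (-p 2 / v 2)
  · have v0 := (h.pos hv).ne'
    have p0 := (h.pos hp).ne'
    by_contra H
    refine (h.inf _ (fun z => H ⟨v 2 / p 2, funext fun i => ?_⟩) (by simp [v0])).ne' k
    have := congrFun z i
    simp only [Pi.add_apply, Pi.smul_apply, smul_eq_mul, Pi.zero_apply] at this ⊢
    field_simp at this ⊢
    linarith
  · have m := h.add hp (h.smul hs hv)
    by_contra H
    obtain ⟨ε, h1, h2⟩ := ((h.enter (e := -e) m fun z => (H z).elim).and self_mem_nhdsWithin).exists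
    have := h.supp_le hp z h1.1
    simp only [map_add, map_smul, map_neg, h0, h.self z, smul_eq_mul] at this
    nlinarith [mul_pos h2 (neg_pos.2 he)]

theorem mid (h : Cn n G K) (hw : w ∈ K) (hz : z ∈ K) (H : eval (w + z) G = 0) :
    ∃ m : ℝ, w = m • (w + z) := by
  have h1 := h.supp_le (h.add hw hz) H hw
  have h2 := h.supp_le (h.add hw hz) H hz
  have h3 := h.self H
  rw [map_add] at h3
  exact h.supp_eq (h.add hw hz) H hw (by linarith)

theorem indep (h : Cn n G K) (h' : Cn n G K') (dj : Disjoint K K') (ha : a ∈ K) (hc : c ∈ K')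
    (H : x • a = y • c) : x = 0 ∧ y = 0 := by
  have a0 := h.pos ha
  have c0 := h'.pos hc
  have h2 : x * a 2 = y * c 2 := congrFun H 2
  by_cases y0 : y = 0
  · exact ⟨by simpa [y0, a0.ne'] using h2, y0⟩
  · refine (disjoint_left.1 dj (h.smul (c := c 2 / a 2) (by positivity) ha) ?_).elim
    rwa [show c 2 / a 2 = y⁻¹ * x by field_simp; linarith, mul_smul, H, inv_smul_smul₀ y0]

end Cn

/-- a configuration of maximal cross ratio -/
structure Ext (K K' : Set V3) (a c : V3) (t s : ℝ) : Prop where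
  ha : a ∈ K
  hc : c ∈ K'
  a1 : a 2 = 1
  c1 : c 2 = 1
  ht : 0 < t
  hs : 0 < s
  hb : a + t • c ∈ K
  hd : c + s • a ∈ K'
  max : ∀ a' ∈ K, ∀ c' ∈ K', ∀ t' s' : ℝ, 0 ≤ t' → 0 ≤ s' → a' + t' • c' ∈ K → c' + s' • a' ∈ K' →
    t' * s' ≤ t * s

theorem Ext.symm (E : Ext K K' a c t s) : Ext K' K c a s t :=
  ⟨E.hc, E.ha, E.c1, E.a1, E.hs, E.ht, E.hd, E.hb, fun c' hc a' ha s' t' h1 h2 h3 h4 => by
    simpa only [mul_comm] using E.max a' ha c' hc t' s' h2 h1 h4 h3⟩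

theorem exists_ext (h : Cn n G K) (h' : Cn n G K') (dj : Disjoint K K') :
    ∃ a c t s, Ext K K' a c t s := by
  let S : Set ((V3 × V3) × ℝ × ℝ) :=
    (({v ∈ K | v 2 = 1} ×ˢ {v ∈ K' | v 2 = 1}) ×ˢ Icc 0 1 ×ˢ Icc 0 1) ∩
      ((fun q => (1 - q.2.1) • q.1.1 + q.2.1 • q.1.2) ⁻¹' {v ∈ K | v 2 = 1} ∩
        (fun q => (1 - q.2.2) • q.1.2 + q.2.2 • q.1.1) ⁻¹' {v ∈ K' | v 2 = 1})
  have cS : IsCompact S := ((h.cpt.prod h'.cpt).prod (isCompact_Icc.prod isCompact_Icc)).inter_right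
    ((h.cl.preimage (by fun_prop)).inter (h'.cl.preimage (by fun_prop)))
  have n1 : ∀ q ∈ S, 0 < 1 - q.2.1 ∧ 0 < 1 - q.2.2 := fun q hq =>
    ⟨(sub_nonneg.2 hq.1.2.1.2).lt_of_ne fun z => disjoint_left.1 dj
        (by simpa [← z, show q.2.1 = 1 by linarith] using hq.2.1.1) hq.1.1.2.1,
      (sub_nonneg.2 hq.1.2.2.2).lt_of_ne fun z => disjoint_left.1 dj hq.1.1.1.1
        (by simpa [← z, show q.2.2 = 1 by linarith] using hq.2.2.1)⟩
  let f : (V3 × V3) × ℝ × ℝ → ℝ := fun q => q.2.1 / (1 - q.2.1) * (q.2.2 / (1 - q.2.2))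
  have nm : ∀ {K : Set V3}, Cn n G K → ∀ a c : V3, ∀ t : ℝ, 0 < a 2 → 0 < c 2 → 0 ≤ t →
      a + t • c ∈ K → t * c 2 / (a 2 + t * c 2) ∈ Icc (0 : ℝ) 1 ∧
      (1 - t * c 2 / (a 2 + t * c 2)) • (a 2)⁻¹ • a + (t * c 2 / (a 2 + t * c 2)) • (c 2)⁻¹ • c ∈
        {v ∈ K | v 2 = 1} := fun {K} h a c t a0 c0 t0 hb => by
    have := mul_nonneg t0 c0.le
    refine ⟨⟨by positivity, (div_le_one (by positivity)).2 (by linarith)⟩, ?_, by simp [a0.ne', c0.ne']⟩
    convert h.smul (c := (a 2 + t * c 2)⁻¹) (by positivity) hb using 1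
    rw [smul_add, smul_smul, smul_smul, smul_smul]
    congr 2 <;> field_simp
    ring
  have mem : ∀ a' ∈ K, ∀ c' ∈ K', ∀ t' s' : ℝ, 0 ≤ t' → 0 ≤ s' → a' + t' • c' ∈ K →
      c' + s' • a' ∈ K' → ∃ q ∈ S, f q = t' * s' := fun a ha c hc t s t0 s0 hb hd => by
    have a0 := h.pos ha
    have c0 := h'.pos hc
    have m1 := nm h a c t a0 c0 t0 hb
    have m2 := nm h' c a s c0 a0 s0 hd
    refine ⟨(((a 2)⁻¹ • a, (c 2)⁻¹ • c), t * c 2 / (a 2 + t * c 2), s * a 2 / (c 2 + s * a 2)),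
      ⟨⟨⟨⟨h.smul (inv_pos.2 a0) ha, by simp [a0.ne']⟩, h'.smul (inv_pos.2 c0) hc, by simp [c0.ne']⟩,
        m1.1, m2.1⟩, m1.2, m2.2⟩, ?_⟩
    have := mul_nonneg t0 c0.le
    have := mul_nonneg s0 a0.le
    simp only [f]
    rw [one_sub_div (by positivity), one_sub_div (by positivity), add_sub_cancel_right,
      add_sub_cancel_right]
    field_simp
  obtain ⟨a, ha, a0⟩ := h.exists_neg
  obtain ⟨c, hc, c0⟩ := h'.exists_neg
  obtain ⟨ε, ⟨e1, e2⟩, e3⟩ := (((h.enter (e := c) ha fun z => (a0.ne z).elim).and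
    (h'.enter (e := a) hc fun z => (c0.ne z).elim)).and self_mem_nhdsWithin).exists
  obtain ⟨q0, hq0, f0⟩ := mem a ha c hc ε ε (le_of_lt e3) (le_of_lt e3) e1.1 e2.1
  obtain ⟨q, hq, mx⟩ := cS.exists_isMaxOn (f := f) ⟨q0, hq0⟩
    ((ContinuousOn.div (by fun_prop) (by fun_prop) fun q hq => (n1 q hq).1.ne').mul
      (ContinuousOn.div (by fun_prop) (by fun_prop) fun q hq => (n1 q hq).2.ne'))
  have fp : 0 < f q := (f0 ▸ mul_pos e3 e3).trans_le (mx hq0)
  obtain ⟨l1, l2⟩ := n1 q hq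
  refine ⟨q.1.1, q.1.2, q.2.1 / (1 - q.2.1), q.2.2 / (1 - q.2.2), hq.1.1.1.1, hq.1.1.2.1,
    hq.1.1.1.2, hq.1.1.2.2, pos_of_mul_pos_left fp (div_nonneg hq.1.2.2.1 l2.le),
    pos_of_mul_pos_right fp (div_nonneg hq.1.2.1.1 l1.le), ?_, ?_,
    fun a ha c hc t s t0 s0 hb hd => ?_⟩
  · convert h.smul (inv_pos.2 l1) hq.2.1.1 using 1
    simp only [smul_add, smul_smul, inv_mul_cancel₀ l1.ne', one_smul, div_eq_inv_mul]
  · convert h'.smul (inv_pos.2 l2) hq.2.2.1 using 1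
    simp only [smul_add, smul_smul, inv_mul_cancel₀ l2.ne', one_smul, div_eq_inv_mul]
  · obtain ⟨q', hq', e⟩ := mem a ha c hc t s t0 s0 hb hd
    exact e ▸ mx hq'

end Pool.Agent.MP_6600f1_ag
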