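import Pool.Agent.MP_6600f1_ag.Pair
import Mathlib.Analysis.Calculus.LocalExtr.Basic
import Mathlib.Analysis.Calculus.Deriv.Polynomial
import Mathlib.Algebra.Polynomial.FieldDivision

/-! The space of forms of degree `2 k` with `r ≤ 2 k` solitary nodes is path connected. -/

open MvPolynomial Set Function Module
open scoped Matrix

noncomputable section

namespace Pool.Agent.MP_6600f1_ag

variable {n r k : ℕ} {F G : Form} {p p' : Fin r → V3}

/-- restriction to a line -/
def lp (a b : V3) (F : Form) : Polynomial ℝ :=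
  aeval (fun i => Polynomial.C (b i) * Polynomial.X + Polynomial.C (a i)) F

theorem lp_eval (a b : V3) (s : ℝ) (F : Form) : (lp a b F).eval s = eval (a + s • b) F := by
  unfold lp
  induction F using MvPolynomial.induction_on with
  | C a => simp
  | add f g hf hg => simp only [map_add, Polynomial.eval_add, hf, hg]
  | mul_X f i hf => simp only [map_mul, Polynomial.eval_mul, hf]; simp [mul_comm s, add_comm]

theorem two_card_le {q : Polynomial ℝ} (q0 : q ≠ 0) (h : ∀ s, 0 ≤ q.eval s) {S : Finset ℝ}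
    (hS : ∀ s ∈ S, q.eval s = 0) : 2 * S.card ≤ q.natDegree := by
  refine le_trans ?_ (Polynomial.card_roots' q)
  have : 2 • S.val ≤ q.roots := Multiset.le_iff_count.2 fun s => by
    by_cases c : s ∈ S
    · rw [Multiset.count_nsmul, Multiset.count_eq_one_of_mem S.nodup c, Polynomial.count_roots]
      refine (Polynomial.one_lt_rootMultiplicity_iff_isRoot q0).2 ⟨hS s c, ?_⟩
      have : IsLocalMin (fun s => q.eval s) s := .of_forall fun x => (hS s c).trans_le (h x)
      simpa using this.deriv_eq_zero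
    · simp [Multiset.count_eq_zero_of_notMem (show s ∉ S.val from c)]
  simpa using Multiset.card_le_card this

theorem Solitary.gd (hk : k ≠ 0) (hF : F.IsHomogeneous (2 * k)) (h : Solitary F p) : Gd k p := by
  refine ⟨h.1, h.2.1, fun m m0 => not_lt.1 fun H => ?_⟩
  generalize hS : (Finset.univ.filter fun i => m ⬝ᵥ p i = 0) = S at H
  have mS : ∀ i ∈ S, m ⬝ᵥ p i = 0 := fun i hi => by simpa [← hS] using hi
  obtain ⟨i0, h0, i1, h1, ne⟩ := Finset.one_lt_card.1 (show 1 < S.card by omega)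
  have c0 := cx_ne (h.1 i1) fun c e => ne (h.2.1 _ _ c e)
  have ind : ∀ x y : ℝ, x • p i0 = y • p i1 → x = 0 ∧ y = 0 := fun x y e => by
    by_cases x0 : x = 0
    · exact ⟨x0, by simpa [x0, h.1 i1, eq_comm] using e⟩
    · exact (ne (h.2.1 _ _ (x⁻¹ * y) (by rw [mul_smul, ← e, inv_smul_smul₀ x0]))).elim
  choose! α β hαβ using fun i hi => decomp m0 c0 (mS _ h0) (mS _ h1) (mS i hi)
  obtain ⟨t, ht⟩ := Infinite.exists_notMem_finset (S.image fun i => β i / α i)
  have u : ∀ i ∈ S, β i - t * α i ≠ 0 := fun i hi e => by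
    by_cases a0 : α i = 0
    · exact h.1 i (by rw [hαβ i hi, a0, show β i = 0 by simpa [a0] using e]; simp)
    · exact ht (Finset.mem_image.2 ⟨i, hi, by field_simp; linarith⟩)
  have e : ∀ i ∈ S, p i1 + (α i / (β i - t * α i)) • (p i0 + t • p i1) = (β i - t * α i)⁻¹ • p i :=
    fun i hi => by
    have := u i hi
    have : β i - α i * t ≠ 0 := mul_comm t _ ▸ this
    rw [congrArg ((β i - t * α i)⁻¹ • ·) (hαβ i hi)]
    match_scalars <;> field_simp
    ring
  have q0 : lp (p i1) (p i0 + t • p i1) F ≠ 0 := fun z => by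
    have : ∀ s : ℝ, ∃ i, ∃ c : ℝ, c ≠ 0 ∧ p i1 + s • (p i0 + t • p i1) = c • p i := fun s => by
      have v0 : p i1 + s • (p i0 + t • p i1) ≠ 0 := fun v => by
        obtain ⟨rfl, l⟩ := ind s (-(1 + s * t)) (by rw [← sub_eq_zero, ← v]; module)
        simp at l
      obtain ⟨i, c, l⟩ := (h.2.2.2.1 _ v0).1 (by rw [← lp_eval, z, Polynomial.eval_zero])
      exact ⟨i, c, by rintro rfl; exact v0 (by simpa using l), l⟩
    choose f c c0 l using this
    obtain ⟨s, s', n1, n2⟩ := Finite.exists_ne_map_eq_of_infinite f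
    obtain ⟨l1, l2⟩ := ind (c s' * s - c s * s') (c s * (1 + s' * t) - c s' * (1 + s * t)) (by
      have : c s' • (p i1 + s • (p i0 + t • p i1)) = c s • (p i1 + s' • (p i0 + t • p i1)) := by
        rw [l s, l s', n2, smul_comm]
      rw [← sub_eq_zero] at this ⊢
      rw [← this]; module)
    have : c s' = c s := by linear_combination -l2 - t * l1
    exact n1 (mul_left_cancel₀ (c0 s) (by rw [this] at l1; linarith))
  have := (two_card_le q0 (fun s => by rw [lp_eval]; exact h.2.2.1 _)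
    (S := S.image fun i => α i / (β i - t * α i)) fun s hs => by
      obtain ⟨i, hi, rfl⟩ := Finset.mem_image.1 hs
      rw [lp_eval, e i hi, eval_smul' hF, (h.2.2.2.1 _ (h.1 i)).2 ⟨i, 1, by simp⟩, mul_zero]).trans
    (aeval_natDegree_le F hF.totalDegree_le _ fun i => Polynomial.natDegree_linear_le)
  rw [Finset.card_image_of_injOn fun i hi j hj l => h.2.1 i j ((β i - t * α i) * (β j - t * α j)⁻¹)
    (by rw [mul_smul, ← e j hj, ← show _ = α j / _ from l, e i hi, smul_inv_smul₀ (u i hi)])] at this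
  omega

theorem exists_L (s t : Fin r × Fin 3) : ∃ L : (Fin (3 * r - 2) → ℝ) →L[ℝ] Fin r → V3,
    s ≠ t → ∀ x : Fin r → V3, x s.1 s.2 = 0 → x t.1 t.2 = 0 → ∃ y, L y = x := by
  by_cases h : s = t
  · exact ⟨0, fun c => (c h).elim⟩
  let T : (Fin r → V3) →ₗ[ℝ] ℝ × ℝ :=
    ⟨⟨fun x => (x s.1 s.2, x t.1 t.2), fun _ _ => rfl⟩, fun _ _ => rfl⟩
  have sj : Surjective T := fun z =>
    ⟨fun i j => if (i, j) = s then z.1 else z.2, by simp [T, Ne.symm h]⟩
  have := T.finrank_range_add_finrank_ker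
  rw [LinearMap.range_eq_top.2 sj, finrank_top] at this
  let e := LinearEquiv.ofFinrankEq (R := ℝ) (Fin (3 * r - 2) → ℝ) (LinearMap.ker T) (by
    simp [finrank_pi_fintype] at this ⊢
    omega)
  exact ⟨LinearMap.toContinuousLinearMap ((LinearMap.ker T).subtype ∘ₗ e.toLinearMap),
    fun _ x h1 h2 => ⟨e.symm ⟨x, by simp [T, h1, h2]⟩, by simp⟩⟩

theorem Gd.joined (hk : 3 ≤ k) (h : Gd k p) (h' : Gd k p') : JoinedIn {p | Gd k p} p p' := by
  rcases r.eq_zero_or_pos with rfl | r0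
  · exact Subsingleton.elim p p' ▸ .refl h
  choose L hL using exists_L (r := r)
  let φ : (Fin r × Fin r) ⊕ (Fin r × Fin r × Fin r × Fin r) → (Fin (3 * r - 2) → ℝ) → Fin r → V3 :=
    Sum.elim (fun s y l => if l = s.1 then L (s.1, 1) (s.1, 2) y s.1 0 • L (s.1, 1) (s.1, 2) y s.2
        else L (s.1, 1) (s.1, 2) y l)
      fun s y l => if l = s.1 ∨ l = s.2.1 then
        L (s.1, 2) (s.2.1, 2) y l 0 • L (s.1, 2) (s.2.1, 2) y s.2.2.1 +
          L (s.1, 2) (s.2.1, 2) y l 1 • L (s.1, 2) (s.2.1, 2) y s.2.2.2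
        else L (s.1, 2) (s.2.1, 2) y l
  refine avoid φ ?_ (by simp [finrank_pi_fintype]; omega) isOpen_univ (fun x _ H => ?_) h h'
    ((convex_univ.isPathConnected univ_nonempty).joinedIn _ trivial _ trivial)
  · rintro (s | s) <;> refine contDiff_pi.2 fun l => ?_ <;> simp only [φ, Sum.elim_inl, Sum.elim_inr] <;>
      split_ifs <;> fun_prop
  by_cases c1 : ∀ i, x i ≠ 0
  swap
  · obtain ⟨i, hi⟩ := not_forall.1 c1
    rw [not_not] at hi
    obtain ⟨y, hy⟩ := hL (i, 1) (i, 2) (by simp) x (by simp [hi]) (by simp [hi])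
    exact ⟨.inl (i, i), y, funext fun l => by by_cases e : l = i <;> simp [φ, hy, e, hi]⟩
  by_cases c2 : ∀ i j (c : ℝ), x i = c • x j → i = j
  swap
  · push Not at c2
    obtain ⟨i, j, c, e, ij⟩ := c2
    obtain ⟨y, hy⟩ := hL (i, 1) (i, 2) (by simp) (update x i ![c, 0, 0]) (by simp) (by simp)
    exact ⟨.inl (i, j), y, funext fun l => by by_cases e' : l = i <;> simp [φ, hy, e', e, ij.symm]⟩
  obtain ⟨m, m0, hm⟩ : ∃ m : V3, m ≠ 0 ∧ k < (Finset.univ.filter fun i => m ⬝ᵥ x i = 0).card := by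
    simpa [Gd, c1, show _ ↔ True from iff_true_intro c2] using H
  obtain ⟨a, b, c, d, ha, hb, hc, hd, ab, ac, ad, bc, bd, cd⟩ :=
    Finset.three_lt_card_iff.1 (hk.trans_lt hm)
  simp only [Finset.mem_filter, Finset.mem_univ, true_and] at ha hb hc hd
  have c0 := cx_ne (c1 d) fun t e => cd (c2 _ _ t e)
  obtain ⟨a1, a2, ea⟩ := decomp m0 c0 hc hd ha
  obtain ⟨b1, b2, eb⟩ := decomp m0 c0 hc hd hb
  obtain ⟨y, hy⟩ := hL (a, 2) (b, 2) (by simpa) (update (update x a ![a1, a2, 0]) b ![b1, b2, 0])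
    (by simp [ab]) (by simp)
  refine ⟨.inr (a, b, c, d), y, funext fun l => ?_⟩
  by_cases e1 : l = a
  · simp [φ, hy, e1, ab, ac.symm, ad.symm, bc.symm, bd.symm, ← ea]
  by_cases e2 : l = b
  · simp [φ, hy, e2, ac.symm, ad.symm, bc.symm, bd.symm, ← eb]
  · simp [φ, hy, e1, e2]

theorem Solitary.convex (h : Solitary F p) (h' : Solitary G p) {s t : ℝ} (s0 : 0 ≤ s) (t0 : 0 ≤ t)
    (st : s + t = 1) : Solitary (s • F + t • G) p := by
  have cv : ∀ {x y : ℝ}, 0 < x → 0 < y → 0 < s * x + t * y := fun {x y} hx hy => by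
    rcases le_total x y with c | c <;> nlinarith
  refine ⟨h.1, h.2.1, fun v => ?_, fun v v0 => ⟨fun z => by_contra fun H => ?_, fun H => ?_⟩,
    fun i w hw => ?_⟩
  · simpa using add_nonneg (mul_nonneg s0 (h.2.2.1 v)) (mul_nonneg t0 (h'.2.2.1 v))
  · exact (cv ((h.2.2.1 v).lt_of_ne' fun e => H ((h.2.2.2.1 v v0).1 e))
      ((h'.2.2.1 v).lt_of_ne' fun e => H ((h'.2.2.2.1 v v0).1 e))).ne' (by simpa using z)
  · simp [(h.2.2.2.1 v v0).2 H, (h'.2.2.2.1 v v0).2 H]
  · convert cv (h.2.2.2.2 i w hw) (h'.2.2.2.2 i w hw) using 1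
    simp [hess, Fin.sum_univ_three]
    ring

theorem sol_joined (hk : 3 ≤ k) (hr : r ≤ 2 * k) {q q' : E (2 * k) × (Fin r → V3)}
    (h : q ∈ Sol (2 * k) r) (h' : q' ∈ Sol (2 * k) r) : JoinedIn (Sol (2 * k) r) q q' := by
  have m : ∀ p : Fin r → V3, Gd k p → Solitary (toF (2 * k) (ofF (2 * k) (Fp k p))) p := fun p g => by
    rw [toF_ofF (Fp_hom p)]
    exact g.solitary hr
  have g : ∀ q ∈ Sol (2 * k) r, Gd k q.2 := fun q h => Solitary.gd (by omega) (toF_hom _) h
  have s : ∀ q ∈ Sol (2 * k) r, JoinedIn (Sol (2 * k) r) q (ofF (2 * k) (Fp k q.2), q.2) :=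
    fun q h => JoinedIn.of_segment_subset (by
      rintro _ ⟨s, t, s0, t0, st, rfl⟩
      have := Solitary.convex h (m _ (g q h)) s0 t0 st
      simpa [Sol, ← add_smul, st] using this)
  refine (s q h).trans (JoinedIn.trans ?_ (s q' h').symm)
  exact (((g q h).joined hk (g q' h')).map (f := fun p => (ofF (2 * k) (Fp k p), p))
    ((continuous_pi fun d : Ix (2 * k) => (Fp_sm d.1).continuous).prodMk continuous_id)).mono (by
      rintro _ ⟨p, hp, rfl⟩
      exact m p hp)

end Pool.Agent.MP_6600f1_ag
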