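import Pool.Agent.MP_6600f1_ag.Cone

/-! At a configuration of maximal cross ratio the four tangent lines are concurrent; curves with at
most two convex ovals are rigidly isotopic to the normal form. -/

open MvPolynomial Set Filter Topology
open scoped Matrix

set_option linter.unnecessarySeqFocus false
set_option linter.unusedSectionVars false

noncomputable section

namespace Pool.Agent.MP_6600f1_ag

variable {n k r : ℕ} {F G : Form} {K K' : Set V3} {a c p v e w z P : V3} {t s x y u : ℝ}

namespace Ext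
variable (h : Cn n G K) (h' : Cn n G K') (dj : Disjoint K K') (E : Ext K K' a c t s)
include h h' dj E

theorem lt_one : t * s < 1 := by
  by_contra H
  have s0 := E.hs
  have t0 := E.ht
  have := h.add0 (h.smul (c := t⁻¹) (by positivity) E.hb) E.ha (x := s - t⁻¹)
    (by rw [sub_nonneg, inv_le_iff_one_le_mul₀' t0]; exact not_lt.1 H)
  refine disjoint_left.1 dj this ?_
  convert E.hd using 1
  rw [smul_add, inv_smul_smul₀ t0.ne']
  module

omit dj h' in
theorem zb : eval (a + t • c) G = 0 := by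
  by_contra H
  obtain ⟨ε, h1, h2⟩ := ((h.enter (e := c) E.hb fun z => (H z).elim).and self_mem_nhdsWithin).exists
  have := E.max a E.ha c E.hc (t + ε) s (add_pos E.ht h2).le E.hs.le
    (by rw [add_smul, ← add_assoc]; exact h1.1) E.hd
  nlinarith [mul_pos h2 E.hs]

theorem za : eval a G = 0 := by
  by_contra H
  obtain ⟨ε, h1, h2⟩ := ((h.enter (e := -c) E.ha fun z => (H z).elim).and self_mem_nhdsWithin).exists
  have e0 : 0 < ε := h2
  have s0 := E.hs
  have := E.max _ h1.1 c E.hc (t + ε) (s / (1 + s * ε)) (add_pos E.ht h2).le (by positivity)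
    (by convert E.hb using 1; module) (by
      convert h'.smul (c := (1 + s * ε)⁻¹) (by positivity) E.hd using 1
      match_scalars <;> field_simp <;> ring)
  rw [← mul_div_assoc, div_le_iff₀ (by positivity)] at this
  nlinarith [mul_pos (mul_pos e0 s0) (sub_pos.2 (E.lt_one h h' dj))]

theorem ac : D G a c < 0 := by
  have z := E.za h h' dj
  have l := h.supp_le E.ha z E.hb
  have e : D G a (a + t • c) = t * D G a c := by simp [h.self z]
  refine neg_of_mul_neg_right (e ▸ l.lt_of_ne fun H => ?_ : t * _ < 0) E.ht.le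
  obtain ⟨m, hm⟩ := h.supp_eq E.ha z E.hb H
  exact E.ht.ne' (h.indep h' dj E.ha E.hc (x := m - 1) (y := t) (by rw [sub_smul, ← hm]; simp)).2

theorem ba : D G (a + t • c) a < 0 := by
  refine (h.supp_le E.hb (E.zb h) E.ha).lt_of_ne fun H => ?_
  obtain ⟨m, hm⟩ := h.supp_eq E.hb (E.zb h) E.ha H
  obtain ⟨h1, h2⟩ := h.indep h' dj E.ha E.hc (x := 1 - m) (y := m * t)
    (by rw [sub_smul, one_smul, sub_eq_iff_eq_add]; exact hm.trans (by module))
  exact E.ht.ne' (by simpa [show m = 1 by linarith] using h2)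

omit h' dj in
theorem ba' : D G (a + t • c) a = -(t * D G (a + t • c) c) := by
  have := h.self (E.zb h)
  rw [map_add, map_smul, smul_eq_mul] at this
  linarith

theorem bc : 0 < D G (a + t • c) c :=
  pos_of_mul_pos_right (neg_lt_zero.1 (E.ba' h ▸ E.ba h h' dj)) E.ht.le

theorem key (h1 : D G a v = 0) (h2 : D G (a + t • c) v = 0) : D G (c + s • a) v = 0 := by
  by_contra H
  have s0 := E.hs
  have t0 := E.ht
  have dc := E.symm.ba h' h dj.symm
  let M := 3 / t * D G (c + s • a) c / (s * D G (c + s • a) v)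
  have sm : ∀ᶠ ε : ℝ in 𝓝[>] 0, ε < t / 3 :=
    (gt_mem_nhds (by positivity)).filter_mono nhdsWithin_le_nhds
  obtain ⟨ε, ⟨⟨⟨e1, e2⟩, e3⟩, e4⟩, e5⟩ := (((((h.enter (e := M • v + c) E.ha fun _ => by
    simpa [h1] using E.ac h h' dj).and (h.enter (e := M • v - c) E.hb fun _ => by
    simpa [h2] using E.bc h h' dj)).and (h'.enter (e := s • (M • v + c) - (3 / t) • c) E.hd
    fun _ => by
      simp only [map_sub, map_add, map_smul, smul_eq_mul, M]
      field_simp
      nlinarith [mul_pos (mul_pos s0 t0) (neg_pos.2 dc)])).and sm).and self_mem_nhdsWithin).exists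
  have e0 : 0 < ε := e5
  have q : 0 < 1 - 3 / t * ε := by rw [sub_pos, div_mul_eq_mul_div, div_lt_one t0]; linarith
  have := E.max _ e1.1 c E.hc (t - 2 * ε) (s / (1 - 3 / t * ε)) (by linarith) (by positivity)
    (by convert e2.1 using 1; module) (by
      convert h'.smul (inv_pos.2 q) e3.1 using 1
      have : t - ε * 3 ≠ 0 := by linarith
      have : t - 3 * ε ≠ 0 := by linarith
      match_scalars <;> field_simp <;> ring)
  rw [← mul_div_assoc, div_le_iff₀ q, show t * s * (1 - 3 / t * ε) = t * s - 3 * (ε * s) by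
    field_simp] at this
  nlinarith [mul_pos e0 s0]

theorem wedge (h1 : D G a P = 0) (h2 : D G (a + t • c) P = 0) (hw : x • a + y • c + u • P ∈ K) :
    0 ≤ y ∧ y ≤ t * x := by
  have z := E.za h h' dj
  have l1 := h.supp_le E.ha z hw
  have l2 := h.supp_le E.hb (E.zb h) hw
  simp only [map_add, map_smul, smul_eq_mul, h1, h2, h.self z, E.ba' h] at l1 l2
  exact ⟨by nlinarith [E.ac h h' dj], by nlinarith [E.bc h h' dj]⟩

theorem down (h1 : D G a P = 0) (h2 : D G (a + t • c) P = 0) (hw : x • a + y • c + u • P ∈ K)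
    {θ : ℝ} (h3 : 0 < θ) (h4 : θ ≤ 1) : x • a + y • c + (θ * u) • P ∈ K := by
  obtain ⟨w1, w2⟩ := E.wedge h h' dj h1 h2 hw
  have t0 := E.ht
  have θ1 := sub_nonneg.2 h4
  convert h.add0 (h.add0 (h.smul h3 hw) E.ha (x := (1 - θ) * (x - y / t))
    (mul_nonneg θ1 (by rw [sub_nonneg, div_le_iff₀' t0]; exact w2))) E.hb (x := (1 - θ) * (y / t))
    (by positivity) using 1
  match_scalars <;> field_simp <;> ring

theorem zero (hw : x • a + y • c ∈ K) (z : eval (x • a + y • c) G = 0) : y = 0 ∨ y = t * x := by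
  obtain ⟨w1, w2⟩ := E.wedge h h' dj (P := 0) (u := 0) (map_zero _) (map_zero _) (by simpa)
  have t0 := E.ht
  by_contra H
  push Not at H
  have y0 := w1.lt_of_ne' H.1
  have x0 : 0 < x - y / t := by rw [sub_pos, div_lt_iff₀' t0]; exact w2.lt_of_ne H.2
  have e : (x - y / t) • a + (y / t) • (a + t • c) = x • a + y • c := by
    match_scalars <;> field_simp <;> ring
  obtain ⟨m, hm⟩ := h.mid (h.smul x0 E.ha) (h.smul (div_pos y0 t0) E.hb) (e ▸ z)
  obtain ⟨h1, h2⟩ := h.indep h' dj E.ha E.hc (x := x - y / t - m * x) (y := m * y)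
    (by rw [sub_smul, hm, e]; module)
  rw [(mul_eq_zero.1 h2).resolve_right H.1] at h1
  linarith

theorem simple (hp : p ∈ K) (z : eval p G = 0) (h1 : D G p a = 0) : D G p c ≠ 0 := fun h2 => by
  obtain ⟨m, hm⟩ := h.supp_eq hp z E.ha h1
  obtain ⟨m', hm'⟩ := h.supp_eq hp z E.hb (by simp [h1, h2])
  obtain ⟨h1, h2⟩ := h.indep h' dj E.ha E.hc (x := m' - m) (y := m * t) (by
    have : m • (a + t • c) = m' • a := by rw [hm', smul_comm, ← hm]
    rw [sub_smul, ← this]; module)
  have := E.a1
  rw [hm, (mul_eq_zero.1 h2).resolve_right E.ht.ne'] at this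
  simp at this

theorem pole (h1 : D G a P = 0) (h2 : D G (a + t • c) P = 0) (hP : P ∈ K) : False := by
  obtain ⟨m, rfl⟩ := h.supp_eq E.ha (E.za h h' dj) hP h1
  rw [map_smul, smul_eq_mul, mul_eq_zero] at h2
  simpa [h2.resolve_right (E.ba h h' dj).ne] using h.pos hP

end Ext

/-- the matrix with given columns -/
def col (u v w : V3) : M3 := !![u 0, v 0, w 0; u 1, v 1, w 1; u 2, v 2, w 2]

theorem eval_col (a c P : V3) (x y u : ℝ) :
    eval ![x, y, u] (sub (col a c P) G) = eval (x • a + y • c + u • P) G := by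
  rw [eval_sub']
  congr 2
  funext i
  fin_cases i <;> simp [col, Matrix.mulVec, dotProduct, Fin.sum_univ_three, mul_comm]

/-- common zero of two differentials -/
def cr (G : Form) (p q : V3) : V3 :=
  ![eval p (pderiv 1 G) * eval q (pderiv 2 G) - eval p (pderiv 2 G) * eval q (pderiv 1 G),
    eval p (pderiv 2 G) * eval q (pderiv 0 G) - eval p (pderiv 0 G) * eval q (pderiv 2 G),
    eval p (pderiv 0 G) * eval q (pderiv 1 G) - eval p (pderiv 1 G) * eval q (pderiv 0 G)]

theorem cr1 (G : Form) (p q : V3) : D G p (cr G p q) = 0 := by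
  simp [D_apply, Fin.sum_univ_three, cr]; ring
theorem cr2 (G : Form) (p q : V3) : D G q (cr G p q) = 0 := by
  simp [D_apply, Fin.sum_univ_three, cr]; ring
theorem cr3 (G : Form) (p q w : V3) : D G w (cr G p q) = D G q (cr G w p) := by
  simp [D_apply, Fin.sum_univ_three, cr]; ring
theorem cr4 (G : Form) (p q w : V3) : D G w (cr G p q) = -D G p (cr G w q) := by
  simp [D_apply, Fin.sum_univ_three, cr]; ring
theorem cr5 (G : Form) (p q a c : V3) :
    (col (a - c) c (cr G p q)).det = D G p a * D G q c - D G p c * D G q a := by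
  simp [D_apply, Fin.sum_univ_three, cr, col, Matrix.det_fin_three]; ring

theorem two_J (hk : k ≠ 0) (h : Cn (2 * k) G K) (h' : Cn (2 * k) G K') (dj : Disjoint K K')
    (cv : ∀ v : V3, 0 < v 2 → eval v G ≤ 0 → v ∈ K ∨ v ∈ K') : J (2 * k) G (N (2 * k) 1 (2 * 2)) := by
  obtain ⟨a, c, t, s, E⟩ := exists_ext h h' dj
  have sg : ∀ σ : ℝ, σ = 1 ∨ σ = -1 → ∀ v, eval (σ • v) G = eval v G := fun σ hσ v => by
    rcases hσ with rfl | rfl <;> simp [eval_smul' h.hom, -neg_smul]
  have cv' : ∀ v : V3, v ≠ 0 → eval v G ≤ 0 → ∃ σ : ℝ, (σ = 1 ∨ σ = -1) ∧ (σ • v ∈ K ∨ σ • v ∈ K') :=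
    fun v v0 hv => by
    rcases lt_trichotomy (v 2) 0 with l | l | l
    · exact ⟨-1, .inr rfl, cv _ (by simpa) (by rwa [sg _ (.inr rfl)])⟩
    · exact ((h.inf v v0 l).not_ge hv).elim
    · exact ⟨1, .inl rfl, cv _ (by simpa) (by rwa [one_smul])⟩
  have p2 := cr1 G (a + t • c) (c + s • a)
  have p4 := cr2 G (a + t • c) (c + s • a)
  have p1 := (cr3 G (a + t • c) (c + s • a) a).trans (E.key h h' dj (cr1 ..) (cr2 ..))
  have p3 := (cr4 G (a + t • c) (c + s • a) c).trans
    (neg_eq_zero.2 (E.symm.key h' h dj.symm (cr1 ..) (cr2 ..)))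
  have dt := cr5 G (a + t • c) (c + s • a) a c
  generalize cr G (a + t • c) (c + s • a) = P at p1 p2 p3 p4 dt
  have s0 := E.hs
  have t0 := E.ht
  have ts := E.lt_one h h' dj
  have d0 : (col (a - c) c P).det ≠ 0 := by
    rw [dt, E.ba' h, E.symm.ba' h']
    nlinarith [mul_pos (mul_pos (E.bc h h' dj) (E.symm.bc h' h dj.symm)) (sub_pos.2 ts)]
  have P0 : P ≠ 0 := by rintro rfl; simp [col, Matrix.det_fin_three] at d0
  have j := J.sub (even_two_mul k) h.hom h.rn d0
  have ln : ∀ x : ℝ, eval ![x, 1, 0] (sub (col (a - c) c P) G) = eval (c + x • (a - c)) G :=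
    fun x => by rw [eval_col]; congr 2; module
  have mem : ∀ x : ℝ, eval (c + x • (a - c)) G = 0 → c + x • (a - c) ∈ K ∨ c + x • (a - c) ∈ K' :=
    fun x z => cv _ (by simp [E.a1, E.c1]) z.le
  refine j.trans (star_J hk j.2.1 j.rn ?_ (fun x y u u' u0 uu hp => ?_) ?_ ?_ fun x z => ?_)
  · rw [eval_col]
    by_contra H
    obtain ⟨σ, -, m | m⟩ := cv' P P0 (by simpa using H)
    · exact E.pole h h' dj (by simp [p1]) (by simp [p2]) m
    · exact E.symm.pole h' h dj.symm (by simp [p3]) (by simp [p4]) m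
  · rw [eval_col] at hp ⊢
    by_contra H
    have u1 := u0.trans uu
    obtain ⟨σ, hσ, m⟩ := cv' _ (fun z => by
      rw [z, ← zero_smul ℝ (0 : V3), eval_smul' h.hom] at H; simp [hk] at H) (not_le.1 H).le
    rw [← sg σ hσ] at hp
    obtain m | m := m
    · refine (h.le ?_).not_gt hp
      convert E.down h h' dj p1 p2 (x := σ * x) (y := σ * (y - x)) (u := σ * u')
        (by convert m using 1; module) (div_pos u0 u1) ((div_le_one u1).2 uu.le) using 1
      match_scalars <;> field_simp <;> ring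
    · refine (h'.le ?_).not_gt hp
      convert E.symm.down h' h dj.symm p3 p4 (y := σ * x) (x := σ * (y - x)) (u := σ * u')
        (by convert m using 1; module) (div_pos u0 u1) ((div_le_one u1).2 uu.le) using 1
      match_scalars <;> field_simp <;> ring
  · rw [eval_col, one_mul]
    refine h.inf _ (fun z => ?_) (by simp [E.a1, E.c1])
    exact one_ne_zero (h.indep h' dj E.ha E.hc (x := 1) (y := 1) (by simpa [sub_eq_zero] using z)).1
  · have : {x | eval ![x, 1, 0] (sub (col (a - c) c P) G) = 0} = {0, s / (1 + s), 1 / (1 + t), 1} := by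
      ext x
      simp only [mem_ofPred_eq, ln, mem_insert_iff, mem_singleton_iff]
      refine ⟨fun z => ?_, ?_⟩
      · have e : c + x • (a - c) = x • a + (1 - x) • c := by module
        obtain m | m := mem x z <;> rw [e] at m z
        · obtain q | q := E.zero h h' dj m z
          · exact .inr (.inr (.inr (by linarith)))
          · exact .inr (.inr (.inl (by field_simp; linarith)))
        · rw [add_comm] at m z
          obtain q | q := E.symm.zero h' h dj.symm m z
          · exact .inl q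
          · exact .inr (.inl (by field_simp; linarith))
      · rintro (rfl | rfl | rfl | rfl)
        · simpa using E.symm.za h' h dj.symm
        · rw [show c + (s / (1 + s)) • (a - c) = (1 / (1 + s)) • (c + s • a) by
            match_scalars <;> field_simp <;> ring, eval_smul' h.hom, E.symm.zb h', mul_zero]
        · rw [show c + (1 / (1 + t)) • (a - c) = (1 / (1 + t)) • (a + t • c) by
            match_scalars <;> field_simp <;> ring, eval_smul' h.hom, E.zb h, mul_zero]
        · simpa using E.za h h' dj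
    have l1 : 0 < s / (1 + s) := by positivity
    have l2 : s / (1 + s) < 1 / (1 + t) := by
      rw [div_lt_div_iff₀ (by positivity) (by positivity)]; nlinarith
    have l3 : 1 / (1 + t) < 1 := by rw [div_lt_one (by positivity)]; linarith
    rw [this]
    exact ncard_eq_four.2 ⟨_, _, _, _, l1.ne, (l1.trans l2).ne, zero_ne_one, l2.ne, (l2.trans l3).ne,
      l3.ne, rfl⟩
  · simp only [ln] at z ⊢
    rw [(hasDerivAt_line G c (a - c) x).deriv]
    intro H
    have e := h.self z
    rw [map_add, map_smul, H, smul_zero, add_zero] at e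
    rw [map_sub, e, sub_zero] at H
    obtain m | m := mem x z
    · exact E.simple h h' dj m z H e
    · exact E.symm.simple h' h dj.symm m z e H

theorem one_J (hk : k ≠ 0) (h : Cn (2 * k) G K) (cv : ∀ v : V3, 0 < v 2 → eval v G ≤ 0 → v ∈ K) :
    J (2 * k) G (N (2 * k) 1 (2 * 1)) := by
  obtain ⟨a, ha, a0⟩ := h.exists_neg
  have a2 := h.pos ha
  have j := (J.sub (even_two_mul k) h.hom h.rn (A := col ![1, 0, 0] ![0, 1, 0] a)
    (by simp [col, Matrix.det_fin_three, a2.ne'])).smul (c := -1) (by norm_num)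
  have i : ∀ x y : ℝ, (x, y) ≠ (0, 0) →
      eval ![x, y, 0] ((-1 : ℝ) • sub (col ![1, 0, 0] ![0, 1, 0] a) G) < 0 := fun x y H => by
    rw [smul_eval, eval_col, neg_one_mul, neg_lt_zero]
    refine h.inf _ (fun z => H (Prod.ext ?_ ?_)) (by simp)
    · simpa using congrFun z 0
    · simpa using congrFun z 1
  have z : ∀ s, eval ![s, 1, 0] ((-1 : ℝ) • sub (col ![1, 0, 0] ![0, 1, 0] a) G) ≠ 0 :=
    fun s => (i s 1 (by simp)).ne
  have := (j.trans (star_J (ε := -1) (r := 0) hk j.2.1 j.rn (by simpa [eval_col])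
    (fun x y u u' u0 uu hp => ?_) (by simpa using i 1 0 (by simp)) (by simp only [z]; simp)
    fun s e => (z s e).elim)).smul (c := -1) (by norm_num)
  · simpa using this.trans (link hk)
  · rw [smul_eval, eval_col, neg_one_mul] at hp ⊢
    refine neg_nonneg.2 (h.le ?_)
    convert h.add (cv _ (by simpa using mul_pos u0 a2) (neg_pos.1 hp).le)
      (h.smul (sub_pos.2 uu) ha) using 1
    module

theorem ConvexOvals.J (hk : k ≠ 0) (hF : F.IsHomogeneous (2 * k)) (hr : RN F) (r2 : r ≤ 2)
    (h : ConvexOvals F r) : ∃ c : ℝ, c ≠ 0 ∧ J (2 * k) (c • F) (N (2 * k) 1 (2 * r)) := by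
  obtain ⟨c, A, S, hA, hI, hS, dj, hU⟩ := h
  have hc : c ≠ 0 := left_ne_zero_of_mul (hI 1 0 (by simp)).ne'
  have j := J.sub (even_two_mul k) (hom_smul hF c) (hr.smul hc) hA
  simp only [val_eq] at hI hU
  generalize sub A (c • F) = G at hI hU j
  refine ⟨c, hc, j.trans ?_⟩
  have inf : ∀ v : V3, v ≠ 0 → v 2 = 0 → 0 < eval v G := fun v v0 z => by
    rw [← v3 v, z]
    refine hI _ _ fun e => v0 ?_
    rw [← v3 v, z, (Prod.mk.inj e).1, (Prod.mk.inj e).2]
    simp
  have sc : ∀ v : V3, 0 < v 2 → (eval v G ≤ 0 ↔ ∃ i, (v 0 / v 2, v 1 / v 2) ∈ S i) := fun v hv => by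
    rw [← mem_iUnion, ← hU, mem_ofPred_eq, show ![v 0 / v 2, v 1 / v 2, 1] = (v 2)⁻¹ • v from
      funext fun i => by fin_cases i <;> simp [div_eq_inv_mul, hv.ne'], eval_smul' j.2.1]
    rw [← not_lt, ← not_lt, mul_pos_iff_of_pos_left (by positivity)]
  let K : Fin r → Set V3 := fun i => {v | 0 < v 2 ∧ (v 0 / v 2, v 1 / v 2) ∈ S i}
  have cn : ∀ i, Cn (2 * k) G (K i) := fun i =>
    { hom := j.2.1
      rn := j.rn
      inf := inf
      add := fun {u v} hu hv => by
        have u0 := hu.1
        have v0 := hv.1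
        refine ⟨add_pos u0 v0, ?_⟩
        convert (hS i).2.2 hu.2 hv.2 (show 0 ≤ u 2 / (u 2 + v 2) by positivity)
          (show 0 ≤ v 2 / (u 2 + v 2) by positivity) (by field_simp) using 1
        ext <;> simp <;> field_simp
      smul := fun {m v} hm hv => ⟨mul_pos hm hv.1, by
        simpa only [Pi.smul_apply, smul_eq_mul, mul_div_mul_left _ _ hm.ne'] using hv.2⟩
      le := fun hv => (sc _ hv.1).2 ⟨i, hv.2⟩
      pos := fun hv => hv.1
      loc := fun {v} hv => by
        have ct : ContinuousAt (fun w : V3 => (w 0 / w 2, w 1 / w 2)) v :=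
          ((continuous_apply 0).continuousAt.div (continuous_apply 2).continuousAt hv.1.ne').prodMk
            ((continuous_apply 1).continuousAt.div (continuous_apply 2).continuousAt hv.1.ne')
        have : ∀ᶠ w : V3 in 𝓝 v, ∀ l, l ≠ i → (w 0 / w 2, w 1 / w 2) ∉ S l :=
          eventually_all.2 fun l => by
            by_cases e : l = i
            · simp [e]
            · exact (ct.eventually ((hS l).2.1.isOpen_compl.mem_nhds
                fun m => disjoint_left.1 (dj l i e) m hv.2)).mono fun w hw _ => hw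
        filter_upwards [this, (continuous_apply 2).continuousAt.eventually (lt_mem_nhds hv.1)]
          with w h1 h2 h3
        obtain ⟨l, hl⟩ := (sc w h2).1 h3
        by_cases e : l = i
        · exact ⟨h2, e ▸ hl⟩
        · exact (h1 l e hl).elim
      cl := by
        convert ((hS i).2.1.preimage (f := fun w : V3 => (w 0, w 1)) (by fun_prop)).inter
          (isClosed_eq (continuous_apply 2) (continuous_const (y := (1 : ℝ)))) using 1
        ext w
        exact and_congr_left fun e => by simp [K, show w 2 = 1 from e]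
      ne := by
        obtain ⟨p, hp⟩ := (hS i).1
        exact ⟨![p.1, p.2, 1], by simpa [K] using hp⟩ }
  obtain rfl | rfl | rfl : r = 0 ∨ r = 1 ∨ r = 2 := by omega
  · have ps : ∀ v : V3, 0 < v 2 → 0 < eval v G := fun v hv =>
      not_le.1 fun H => ((sc v hv).1 H).elim fun i _ => i.elim0
    have z : ∀ s, eval ![s, 1, 0] G ≠ 0 := fun s => (hI s 1 (by simp)).ne'
    exact star_J hk j.2.1 j.rn (ps _ (by simp)) (fun x y u u' u0 uu _ => (ps _ (u0.trans uu)).le)
      (by simpa using hI 1 0 (by simp)) (by simp [z]) fun s e => (z s e).elim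
  · exact one_J hk (cn 0) fun v hv H => ((sc v hv).1 H).elim fun i hi => ⟨hv, Fin.fin_one_eq_zero i ▸ hi⟩
  · refine two_J hk (cn 0) (cn 1) (disjoint_left.2 fun v h0 h1 =>
      disjoint_left.1 (dj 0 1 (by decide)) h0.2 h1.2) fun v hv H => ?_
    obtain ⟨i, hi⟩ := (sc v hv).1 H
    fin_cases i
    · exact .inl ⟨hv, hi⟩
    · exact .inr ⟨hv, hi⟩

theorem convex_rigid (hk : 2 ≤ k) (r2 : r ≤ 2) (hF : F.IsHomogeneous (2 * k))
    (hG : G.IsHomogeneous (2 * k)) (nF : Nonsing F) (nG : Nonsing G) (sF : ConvexOvals F r)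
    (sG : ConvexOvals G r) : RigidIso (2 * k) F G := by
  obtain ⟨c, hc, j⟩ := sF.J (by omega) hF nF.rn r2
  obtain ⟨c', hc', j'⟩ := sG.J (by omega) hG nG.rn r2
  have := (j.trans j'.symm).smul (inv_ne_zero hc)
  rw [inv_smul_smul₀ hc, ← mul_smul] at this
  exact this.rigid (by omega) (mul_ne_zero (inv_ne_zero hc) hc') nF nG

end Pool.Agent.MP_6600f1_ag
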