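import Mathlib.RingTheory.MvPolynomial.Homogeneous
import Mathlib.Algebra.MvPolynomial.PDeriv
import Mathlib.Analysis.Convex.Star
import Mathlib.Analysis.Calculus.Deriv.Basic
import Mathlib.Analysis.Complex.Basic
import Mathlib.LinearAlgebra.Matrix.Determinant.Basic
import Mathlib.Topology.UnitInterval
import Mathlib.Data.Set.Card

/-! Real plane curves, rigid isotopy, star-shaped curves and curves with convex ovals. -/

open MvPolynomial Set
open scoped Matrix

noncomputable section

namespace Pool.Agent.MP_6600f1_ag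

/-- real polynomials in three variables -/
abbrev Form : Type := MvPolynomial (Fin 3) ℝ

/-- the complex curve `F = 0` has no singular point -/
def Nonsing (F : Form) : Prop :=
  ∀ p : Fin 3 → ℂ, p ≠ 0 → aeval p F = 0 → ∃ i, aeval p (pderiv i F) ≠ 0

/-- `F` and a nonzero multiple of `G` are joined by a continuous path of nonsingular real forms of
degree `m` -/
def RigidIso (m : ℕ) (F G : Form) : Prop :=
  ∃ γ : unitInterval → Form, (∀ d, Continuous fun t => coeff d (γ t)) ∧
    (∀ t, (γ t).IsHomogeneous m ∧ Nonsing (γ t)) ∧ γ 0 = F ∧ ∃ c : ℝ, c ≠ 0 ∧ γ 1 = c • G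

/-- the value of `c • F` in the projective coordinates given by the matrix `A` -/
def val (F : Form) (c : ℝ) (A : Matrix (Fin 3) (Fin 3) ℝ) (x y z : ℝ) : ℝ :=
  c * eval (A *ᵥ ![x, y, z]) F

/-- In suitable projective coordinates and up to sign, `F` is positive at `P = (0:0:1)`, the set
`F ≥ 0` is star-shaped about `P` in the affine chart `z = 1`, and on the line `z = 0` either
`F (1,0,0) > 0` and there are exactly `2 r` real zeros, all simple, or `r = 1` and `F < 0`. -/
def StarCurve (F : Form) (r : ℕ) : Prop :=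
  ∃ (c : ℝ) (A : Matrix (Fin 3) (Fin 3) ℝ), A.det ≠ 0 ∧ 0 < val F c A 0 0 1 ∧
    StarConvex ℝ (0 : ℝ × ℝ) {p | 0 ≤ val F c A p.1 p.2 1} ∧
    ((0 < val F c A 1 0 0 ∧ {t | val F c A t 1 0 = 0}.ncard = 2 * r ∧
        ∀ t, val F c A t 1 0 = 0 → deriv (fun s => val F c A s 1 0) t ≠ 0) ∨
      (r = 1 ∧ ∀ x y, (x, y) ≠ (0, 0) → val F c A x y 0 < 0))

/-- In a suitable affine chart and up to sign, `F` is positive on the line at infinity and the set
`F ≤ 0` is the union of `r` pairwise disjoint nonempty closed convex sets. -/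
def ConvexOvals (F : Form) (r : ℕ) : Prop :=
  ∃ (c : ℝ) (A : Matrix (Fin 3) (Fin 3) ℝ) (D : Fin r → Set (ℝ × ℝ)), A.det ≠ 0 ∧
    (∀ x y, (x, y) ≠ (0, 0) → 0 < val F c A x y 0) ∧
    (∀ i, (D i).Nonempty ∧ IsClosed (D i) ∧ Convex ℝ (D i)) ∧
    (∀ i j, i ≠ j → Disjoint (D i) (D j)) ∧ {p | val F c A p.1 p.2 1 ≤ 0} = ⋃ i, D i

end Pool.Agent.MP_6600f1_ag
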