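import Pool.Agent.MP_6600f1_ag.Bin
import Mathlib.Analysis.Calculus.Deriv.MeanValue
import Mathlib.Analysis.SpecialFunctions.ExpDeriv
import Mathlib.Analysis.SpecialFunctions.Log.Basic
import Mathlib.Analysis.SpecialFunctions.Sqrt
import Mathlib.Order.Interval.Set.Infinite

/-! The resolvent of the homology with centre `(0:0:1)` and axis `z = 0` diminishes the number of
sign changes on each segment from the axis to the centre. -/

open MvPolynomial Set Filter
open scoped Matrix Topology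

noncomputable section

namespace Pool.Agent.MP_6600f1_ag

theorem strict {H h : ℝ → ℝ} (hd : ∀ x, HasDerivAt H (h x) x) {a b : ℝ}
    (h0 : ∀ x ∈ Ioo a b, 0 ≤ h x) (h1 : ∃ x ∈ Ioo a b, h x ≠ 0) : H a < H b := by
  obtain ⟨x, hx, h1⟩ := h1
  have m : MonotoneOn H (Icc a b) := monotoneOn_of_deriv_nonneg (convex_Icc a b)
    (fun y _ => (hd y).continuousAt.continuousWithinAt)
    (fun y _ => (hd y).differentiableAt.differentiableWithinAt)
    fun y hy => by rw [(hd y).deriv]; exact h0 y (by simpa using hy)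
  have ab := (hx.1.trans hx.2).le
  by_contra c
  refine h1 ((hd x).unique ((hasDerivAt_const x (H a)).congr_of_eventuallyEq ?_))
  filter_upwards [Icc_mem_nhds hx.1 hx.2] with y hy
  exact le_antisymm ((m hy (right_mem_Icc.2 ab) hy.2).trans (not_lt.1 c))
    (m (left_mem_Icc.2 ab) hy hy.1)

theorem one_dim {f H G p q : ℝ → ℝ} (hp : ∀ x, 0 < p x) (hq : ∀ x, 0 < q x)
    (hH : ∀ x, HasDerivAt H (p x * f x) x) (hG : ∀ x, HasDerivAt G (-(q x * H x)) x)
    (lH : Tendsto H atBot (𝓝 0)) (lG : Tendsto G atTop (𝓝 0))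
    (up : ∀ x x', x < x' → 0 < f x → 0 ≤ f x') (ne : ∀ a b, a < b → ∃ x ∈ Ioo a b, f x ≠ 0)
    {x : ℝ} (hx : G x = 0) : H x < 0 := by
  by_contra c
  have ne' : ∀ a b, a < b → ∃ x ∈ Ioo a b, p x * f x ≠ 0 := fun a b h =>
    let ⟨x, h1, h2⟩ := ne a b h; ⟨x, h1, mul_ne_zero (hp x).ne' h2⟩
  obtain ⟨y, h1, h2⟩ : ∃ y, y < x ∧ 0 < f y := by
    by_contra d
    have k : ∀ a b, a < b → b ≤ x → H b < H a := fun a b h1 h2 => neg_lt_neg_iff.1
      (strict (fun z => (hH z).fun_neg) (fun z hz => neg_nonneg.2 (mul_nonpos_of_nonneg_of_nonpos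
        (hp z).le (not_lt.1 fun e => d ⟨z, hz.2.trans_le h2, e⟩)))
        (by simpa only [ne_eq, neg_eq_zero] using ne' a b h1))
    have : H (x - 1) ≤ 0 := ge_of_tendsto lH ((eventually_lt_atBot (x - 1)).mono fun a ha =>
      (k a _ ha (by linarith)).le)
    linarith [k (x - 1) x (by linarith) le_rfl]
  have pos : ∀ z, x < z → 0 < H z := fun z hz => (not_lt.1 c).trans_lt (strict hH
    (fun w hw => mul_nonneg (hp w).le (up y w (h1.trans hw.1) h2)) (ne' x z hz))
  have k : ∀ a b, a < b → x ≤ a → G b < G a := fun a b h1 h2 => neg_lt_neg_iff.1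
    (strict (H := fun z => -G z) (h := fun z => q z * H z)
      (fun z => by simpa using (hG z).fun_neg)
      (fun z hz => (mul_pos (hq z) (pos z (h2.trans_lt hz.1))).le)
      ⟨(a + b) / 2, ⟨by linarith, by linarith⟩, (mul_pos (hq _) (pos _ (by linarith))).ne'⟩)
  have : 0 ≤ G (x + 1) := le_of_tendsto lG ((eventually_gt_atTop (x + 1)).mono fun a ha =>
    (k _ a ha (by linarith)).le)
  linarith [k x (x + 1) (by linarith) le_rfl]

variable {n : ℕ} {F : Form}

/-- multiplier acting on the degree in `z` -/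
def mw (w : ℕ → ℝ) (F : Form) : Form := ∑ d ∈ F.support, monomial d (w (d 2) * coeff d F)

theorem coeff_mw (w : ℕ → ℝ) (F : Form) (d : Fin 3 →₀ ℕ) :
    coeff d (mw w F) = w (d 2) * coeff d F := by
  simp only [mw, coeff_sum, coeff_monomial, Finset.sum_ite_eq']
  split_ifs with h
  · rfl
  · rw [notMem_support_iff.1 h, mul_zero]

theorem mw_hom (w : ℕ → ℝ) (hF : F.IsHomogeneous n) : (mw w F).IsHomogeneous n :=
  IsHomogeneous.sum _ _ _ fun d hd => isHomogeneous_monomial _ (by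
    rw [Finsupp.degree_eq_sum, Fin.sum_univ_three, deg3 hF hd])

theorem eval_mw (w : ℕ → ℝ) (F : Form) (x y z : ℝ) : eval ![x, y, z] (mw w F) =
    ∑ d ∈ F.support, w (d 2) * coeff d F * (x ^ d 0 * y ^ d 1 * z ^ d 2) := by
  simp [mw, eval_monomial, Finsupp.prod_fintype, Fin.prod_univ_three]

theorem mw_axis {w : ℕ → ℝ} (h : w 0 = 1) (F : Form) (x y : ℝ) :
    eval ![x, y, 0] (mw w F) = eval ![x, y, 0] F := by
  rw [eval_mw, eval3]
  refine Finset.sum_congr rfl fun d _ => ?_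
  by_cases c : d 2 = 0 <;> simp [c, h]

theorem exists_ne (hF : F.IsHomogeneous n) (hP : eval ![0, 0, 1] F ≠ 0) (x y : ℝ) {a b : ℝ}
    (h : a < b) : ∃ u ∈ Ioo a b, eval ![x, y, u] F ≠ 0 := by
  let p : Polynomial ℝ :=
    ∑ d ∈ F.support, Polynomial.monomial (d 2) (coeff d F * (x ^ d 0 * y ^ d 1))
  have p1 : ∀ s, eval ![x, y, s] F = p.eval s := fun s => by
    simp only [eval3, p, Polynomial.eval_finsetSum, Polynomial.eval_monomial]
    exact Finset.sum_congr rfl fun d _ => by ring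
  have p2 : p.coeff n = eval ![0, 0, 1] F := by
    simp only [eval3, p, Polynomial.finsetSum_coeff, Polynomial.coeff_monomial]
    refine Finset.sum_congr rfl fun d hd => ?_
    have := deg3 hF hd
    split_ifs with c
    · simp [show d 1 = 0 by omega, show d 0 = 0 by omega]
    · rcases (by omega : d 0 ≠ 0 ∨ d 1 ≠ 0) with c | c <;> simp [c]
  have p0 : p ≠ 0 := fun c => hP (by simp [← p2, c])
  obtain ⟨u, h1, h2⟩ := (Ioo_infinite h).exists_notMem_finite (p.finite_setOfPred_isRoot p0)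
  exact ⟨u, h1, p1 u ▸ h2⟩

/-- at most one change of sign, from minus to plus, on each segment from the axis to the centre -/
def Up (F : Form) : Prop :=
  ∀ x y u u', 0 < u → u < u' → 0 < eval ![x, y, u] F → 0 ≤ eval ![x, y, u'] F

theorem not_sg_mw (hF : F.IsHomogeneous n) (hP : eval ![0, 0, 1] F ≠ 0) (hu : Up F) {α : ℝ}
    (hα : 0 < α) {w : ℕ → ℝ} (hw : ∀ j ≤ n, w j = α * (α + n) / ((α + j) * (α + n - j)))
    {v : V3} (hv : 0 < v 2) : ¬Sg (mw w F) v := fun s => by
  let c : (Fin 3 →₀ ℕ) → ℝ := fun d => coeff d F * (v 0 ^ d 0 * v 1 ^ d 1)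
  have j1 : ∀ d : Fin 3 →₀ ℕ, 0 < α + d 2 := fun d => by positivity
  have j0 : ∀ d ∈ F.support, d 2 ≤ n := fun d hd => by have := deg3 hF hd; omega
  have j2 : ∀ d ∈ F.support, 0 < α + n - d 2 := fun d hd => by
    have : (d 2 : ℝ) ≤ n := by exact_mod_cast j0 d hd
    linarith
  have ex : ∀ a b x : ℝ, HasDerivAt (fun x => a * Real.exp (b * x)) (a * b * Real.exp (b * x)) x :=
    fun a b x => (((hasDerivAt_id x).const_mul b).exp.const_mul a).congr_deriv (by simp; ring)
  let H : ℝ → ℝ := fun x => ∑ d ∈ F.support, c d / (α + d 2) * Real.exp ((α + d 2) * x)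
  let G : ℝ → ℝ := fun x =>
    ∑ d ∈ F.support, c d / ((α + d 2) * (α + n - d 2)) * Real.exp (-(α + n - d 2) * x)
  have hH : ∀ x, HasDerivAt H (Real.exp (α * x) * eval ![v 0, v 1, Real.exp x] F) x := fun x => by
    refine (HasDerivAt.fun_sum fun d _ => ex _ _ x).congr_deriv ?_
    rw [eval3, Finset.mul_sum]
    refine Finset.sum_congr rfl fun d _ => ?_
    rw [div_mul_cancel₀ _ (j1 d).ne', add_mul, Real.exp_add, Real.exp_nat_mul]
    ring
  have hG : ∀ x, HasDerivAt G (-(Real.exp (-(2 * α + n) * x) * H x)) x := fun x => by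
    refine (HasDerivAt.fun_sum fun d _ => ex _ _ x).congr_deriv ?_
    rw [Finset.mul_sum, ← Finset.sum_neg_distrib]
    refine Finset.sum_congr rfl fun d hd => ?_
    rw [mul_left_comm, ← Real.exp_add, show -(2 * α + n) * x + (α + d 2) * x =
      -(α + n - d 2) * x by ring]
    have := (j1 d).ne'
    have := (j2 d hd).ne'
    field_simp
  have e : ∀ x, G x = (α * (α + n))⁻¹ * Real.exp (-(α + n) * x) *
      eval ![v 0, v 1, Real.exp x] (mw w F) := fun x => by
    rw [eval_mw, Finset.mul_sum]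
    refine Finset.sum_congr rfl fun d hd => ?_
    rw [hw _ (j0 d hd), show -(α + n - d 2) * x = -(α + n) * x + d 2 * x by ring, Real.exp_add,
      Real.exp_nat_mul]
    have := (j1 d).ne'
    have := (j2 d hd).ne'
    simp only [c]
    field_simp
  have ev : ![v 0, v 1, Real.exp (Real.log (v 2))] = v := by rw [Real.exp_log hv, v3]
  have z : eval ![v 0, v 1, Real.exp (Real.log (v 2))] (mw w F) = 0 := by
    rw [ev]; exact (sg_real.1 s).1
  have k := one_dim (fun _ => Real.exp_pos _) (fun _ => Real.exp_pos _) hH hG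
    (by simpa using tendsto_finsetSum F.support fun d _ => (Real.tendsto_exp_atBot.comp
      (tendsto_id.const_mul_atBot (j1 d))).const_mul (c d / (α + d 2)))
    (by simpa [G] using tendsto_finsetSum F.support fun d hd => Tendsto.const_mul (c d / ((α + d 2) *
      (α + n - d 2))) (Real.tendsto_exp_atBot.comp
      (tendsto_id.const_mul_atTop_of_neg (neg_neg_of_pos (j2 d hd)))))
    (fun x x' h => hu _ _ _ _ (Real.exp_pos x) (Real.exp_lt_exp.2 h))
    (fun a b h => by
      obtain ⟨u, h1, h2⟩ := exists_ne hF hP (v 0) (v 1) (Real.exp_lt_exp.2 h)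
      have u0 := (Real.exp_pos a).trans h1.1
      exact ⟨Real.log u, ⟨(Real.lt_log_iff_exp_lt u0).2 h1.1, (Real.log_lt_iff_lt_exp u0).2 h1.2⟩,
        by rwa [Real.exp_log u0]⟩)
    (x := Real.log (v 2)) (by rw [e, z, mul_zero])
  have d1 : HasDerivAt (fun x => eval ![v 0, v 1, Real.exp x] (mw w F)) 0 (Real.log (v 2)) := by
    have a : DifferentiableAt ℝ (fun x => (![v 0, v 1, Real.exp x] : V3)) (Real.log (v 2)) :=
      differentiableAt_pi.2 fun i => by fin_cases i <;> simp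
    have := (hasFDerivAt_eval (mw w F) _).comp_hasDerivAt _ a.hasDerivAt
    rwa [ev, s.D_zero] at this
  have d2 := ((ex (α * (α + n))⁻¹ (-(α + n)) (Real.log (v 2))).fun_mul d1)
  simp only [← e, z, mul_zero, add_zero] at d2
  have := d2.unique (hG _)
  nlinarith [mul_pos (Real.exp_pos (-(2 * α + n) * Real.log (v 2))) (neg_pos.2 k)]

/-- the weights -/
def wt (n : ℕ) (τ : ℝ) (j : ℕ) : ℝ := 1 - τ * (j * (n - j)) / (1 - τ + τ * (j * (n - j)))

theorem wt_eq {τ : ℝ} (h0 : 0 < τ) (h1 : τ < 1) :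
    ∃ α : ℝ, 0 < α ∧ ∀ j ≤ n, wt n τ j = α * (α + n) / ((α + j) * (α + n - j)) := by
  have κ : 0 < (1 - τ) / τ := div_pos (sub_pos.2 h1) h0
  have n0 : (0 : ℝ) ≤ n := n.cast_nonneg
  have s1 : (n : ℝ) < √(n ^ 2 + 4 * ((1 - τ) / τ)) := Real.lt_sqrt_of_sq_lt (by linarith)
  have s2 := Real.sq_sqrt (show (0 : ℝ) ≤ n ^ 2 + 4 * ((1 - τ) / τ) by positivity)
  obtain ⟨α, a1, a2⟩ : ∃ α : ℝ, 0 < α ∧ α * (α + n) = (1 - τ) / τ :=
    ⟨(√(n ^ 2 + 4 * ((1 - τ) / τ)) - n) / 2, by linarith, by linarith⟩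
  refine ⟨α, a1, fun j hj => ?_⟩
  have c : (0 : ℝ) ≤ j * (n - j) := mul_nonneg j.cast_nonneg (sub_nonneg.2 (by exact_mod_cast hj))
  have : 0 < 1 - τ + τ * (j * (n - j)) := by nlinarith [mul_nonneg h0.le c]
  rw [show (α + j) * (α + n - j) = α * (α + n) + j * (n - j) by ring, a2, wt]
  generalize (j : ℝ) * (n - j) = x at this
  field_simp
  ring

theorem mw_split (hn : n ≠ 0) (hF : F.IsHomogeneous n) (x y z : ℝ) :
    eval ![x, y, z] (mw (wt n 1) F) = eval ![x, y, 0] F + eval ![0, 0, 1] F * z ^ n := by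
  rw [eval_mw, eval3, eval3, Finset.sum_mul, ← Finset.sum_add_distrib]
  refine Finset.sum_congr rfl fun d hd => ?_
  have := deg3 hF hd
  by_cases c : d 2 = 0
  · rcases (by omega : d 0 ≠ 0 ∨ d 1 ≠ 0) with c' | c' <;> simp [wt, c, c']
  by_cases c' : d 2 = n
  · simp [wt, c', hn, show d 0 = 0 by omega, show d 1 = 0 by omega]
  have : (d 2 : ℝ) * (n - d 2) ≠ 0 :=
    mul_ne_zero (by exact_mod_cast c) (sub_ne_zero.2 (by exact_mod_cast Ne.symm c'))
  rcases (by omega : d 0 ≠ 0 ∨ d 1 ≠ 0) with c' | c' <;> simp [wt, c, c', div_self this]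

theorem flow (hn : 2 ≤ n) (hF : F.IsHomogeneous n) (hr : RN F) (hP : eval ![0, 0, 1] F ≠ 0)
    (hu : Up F) (h1 : RN (mw (wt n 1) F)) : J n F (mw (wt n 1) F) := by
  have e0 : mw (wt n 0) F = F := by ext d; simp [coeff_mw, wt]
  have w0 : ∀ τ, wt n τ 0 = 1 := fun τ => by simp [wt]
  have := J.of_path (fun τ => mw (wt n τ) F) (fun d => ?_) fun τ hτ => ⟨mw_hom _ hF, ?_⟩
  · rwa [e0] at this
  · simp only [coeff_mw]
    by_cases hd : d ∈ F.support
    · have j : (d 2 : ℝ) ≤ n := by exact_mod_cast (by have := deg3 hF hd; omega : d 2 ≤ n)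
      refine ContinuousOn.mul ?_ continuousOn_const
      rcases (mul_nonneg (d 2).cast_nonneg (sub_nonneg.2 j)).eq_or_lt with c | c
      · simpa [wt, ← c] using continuousOn_const
      · refine continuousOn_const.sub (ContinuousOn.div (by fun_prop) (by fun_prop) fun τ hτ => ?_)
        rcases le_total 1 ((d 2 : ℝ) * (n - d 2)) with c' | c' <;> nlinarith [hτ.1, hτ.2]
    · simpa [notMem_support_iff.1 hd] using continuousOn_const
  rcases hτ.1.eq_or_lt with rfl | t0
  · rwa [e0]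
  rcases hτ.2.eq_or_lt with rfl | t1
  · exact h1
  obtain ⟨α, a1, a2⟩ := wt_eq (n := n) t0 t1
  intro v hv s
  rcases lt_trichotomy (v 2) 0 with c | c | c
  · exact not_sg_mw hF hP hu a1 a2 (by simpa using c) (s.smul (mw_hom _ hF) (-1))
  · have ax : ∀ u : V3, u 2 = 0 → eval u (mw (wt n τ) F) = eval u (mw (wt n 1) F) := fun u hu => by
      rw [← v3 u, hu, mw_axis (w0 _), mw_axis (w0 _)]
    have k : ∀ e : V3, e 2 = 0 → D (mw (wt n 1) F) v e = 0 := fun e he => by
      have a := hasDerivAt_line (mw (wt n τ) F) v e 0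
      have b := hasDerivAt_line (mw (wt n 1) F) v e 0
      simp only [zero_smul, add_zero, s.D_zero, zero_apply] at a b
      exact b.unique (a.congr_of_eventuallyEq (.of_forall fun t => (ax _ (by simp [c, he])).symm))
    have k2 : D (mw (wt n 1) F) v ![0, 0, 1] = 0 := by
      have b := hasDerivAt_line (mw (wt n 1) F) v ![0, 0, 1] 0
      have e : ∀ s : ℝ, v + s • ![0, 0, 1] = ![v 0, v 1, s] := fun s => by
        funext i; fin_cases i <;> simp [c]
      rw [zero_smul, add_zero] at b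
      simp only [e, mw_split (by omega) hF] at b
      rw [b.unique (((hasDerivAt_pow n (0 : ℝ)).const_mul _).const_add _),
        zero_pow (by omega), mul_zero, mul_zero]
    refine h1 v hv (sg_of_D (ax v c ▸ (sg_real.1 s).1) (ContinuousLinearMap.ext fun e => ?_))
    have : e = ![e 0, e 1, 0] + e 2 • ![0, 0, 1] := by funext i; fin_cases i <;> simp
    rw [this, map_add, map_smul, k _ rfl, k2]
    simp
  · exact not_sg_mw hF hP hu a1 a2 c s

end Pool.Agent.MP_6600f1_ag
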