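import Pool.Agent.MP_6600f1_ag.Model
import Mathlib.LinearAlgebra.Matrix.Transvection

/-! Projectively equivalent curves of even degree are joined by a path. -/

open MvPolynomial Set
open scoped Matrix

noncomputable section

namespace Pool.Agent.MP_6600f1_ag

variable {n : ℕ} {F : Form}

theorem J.seg (hF : F.IsHomogeneous n) (h : RN F) (A B : M3)
    (hd : ∀ t ∈ Icc (0 : ℝ) 1, ((1 - t) • A + t • B).det ≠ 0) : J n (sub A F) (sub B F) := by
  simpa using J.of_sm (γ := fun t => sub ((1 - t) • A + t • B) F)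
    (Sm.sub (fun i j => by simp only [Matrix.add_apply, Matrix.smul_apply]; fun_prop) F)
    fun t ht => ⟨sub_hom _ hF, h.sub (hd t ht)⟩

theorem sub_neg (hn : Even n) (hF : F.IsHomogeneous n) (A : M3) : sub (-A) F = sub A F :=
  MvPolynomial.funext fun v => by
    rw [eval_sub', eval_sub', Matrix.neg_mulVec, ← neg_one_smul ℝ, eval_smul' hF, hn.neg_one_pow,
      one_mul]

theorem J.sub (hn : Even n) (hF : F.IsHomogeneous n) (h : RN F) {A : M3} (hA : A.det ≠ 0) :
    J n F (sub A F) := by
  let P : M3 → Prop := fun A => ∀ F : Form, F.IsHomogeneous n → RN F → J n F (MP_6600f1_ag.sub A F)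
  have mul : ∀ A B, P A → P B → P (A * B) := fun A B h1 h2 F hF h =>
    sub_sub A B F ▸ (h1 F hF h).trans (h2 _ (h1 F hF h).2.1 (h1 F hF h).rn)
  have seg : ∀ A B, P A → (∀ t ∈ Icc (0 : ℝ) 1, ((1 - t) • A + t • B).det ≠ 0) → P B :=
    fun A B h1 h2 F hF h => (h1 F hF h).trans (J.seg hF h A B h2)
  have neg : ∀ A, P A → P (-A) := fun A h1 F hF h => (sub_neg hn hF A).symm ▸ h1 F hF h
  have one : P 1 := fun F hF h => by
    simpa [sub_one] using J.seg hF h 1 1 fun t _ => by simp [← add_smul]
  have q : ∀ t : ℝ, (1 - t) ^ 2 + t ^ 2 ≠ 0 := fun t => by nlinarith [sq_nonneg (2 * t - 1)]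
  have rf : ∀ i, P (Matrix.diagonal (Function.update 1 i (-1))) := fun i => by
    have k : ∀ K : M3, (∀ t : ℝ, ((1 - t) • (1 : M3) + t • K).det = (1 - t) ^ 2 + t ^ 2) →
        P (-(K * K)) := fun K hK =>
      have := seg 1 K one fun t _ => (hK t).symm ▸ q t
      neg _ (mul _ _ this this)
    fin_cases i
    · convert k !![1, 0, 0; 0, 0, -1; 0, 1, 0] fun t => ?_ using 1
      · ext i j; fin_cases i <;> fin_cases j <;> simp
      · simp [Matrix.det_fin_three]; ring
    · convert k !![0, 0, -1; 0, 1, 0; 1, 0, 0] fun t => ?_ using 1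
      · ext i j; fin_cases i <;> fin_cases j <;> simp
      · simp [Matrix.det_fin_three]; ring
    · convert k !![0, -1, 0; 1, 0, 0; 0, 0, 1] fun t => ?_ using 1
      · ext i j; fin_cases i <;> fin_cases j <;> simp
      · simp [Matrix.det_fin_three]; ring
  have up : ∀ i d, d ≠ 0 → P (Matrix.diagonal (Function.update 1 i d)) := fun i d hd => by
    have k : ∀ s t : ℝ, ((1 - t) • (Matrix.diagonal (Function.update 1 i s) : M3) +
        t • Matrix.diagonal (Function.update 1 i d)).det = (1 - t) * s + t * d := fun s t => by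
      fin_cases i <;> simp [Matrix.det_fin_three]
    rcases hd.lt_or_gt with hd | hd
    · exact seg _ _ (rf i) fun t ht => by
        rw [k]
        rcases le_total d (-1) with c | c <;> nlinarith [ht.1, ht.2]
    · refine seg (Matrix.diagonal (Function.update 1 i 1)) _ (by simpa using one) fun t ht => ?_
      rw [k]
      rcases le_total d 1 with c | c <;> nlinarith [ht.1, ht.2]
  refine Matrix.diagonal_transvection_induction_of_det_ne_zero P A hA (fun D hD => ?_)
    (fun T => seg 1 _ one fun t _ => ?_) (fun A B _ _ => mul A B) F hF h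
  · rw [Matrix.det_diagonal, Finset.prod_ne_zero_iff] at hD
    convert mul _ _ (mul _ _ (up 0 _ (hD 0 (by simp))) (up 1 _ (hD 1 (by simp))))
      (up 2 _ (hD 2 (by simp))) using 1
    ext i j; fin_cases i <;> fin_cases j <;> simp
  · have : (1 - t) • (1 : M3) + t • T.toMatrix = Matrix.transvection T.i T.j (t * T.c) := by
      simp [Matrix.TransvectionStruct.toMatrix, Matrix.transvection, ← add_assoc, ← add_smul]
    rw [this, Matrix.det_transvection_of_ne _ _ T.hij]
    exact one_ne_zero

end Pool.Agent.MP_6600f1_ag
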