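import Pool.Agent.MP_6600f1_ag.Move

/-! Points that impose independent conditions on curves of degree `d` after removing one of them,
with no `d + 2` on a line, are the solitary nodes of a sum of squares of degree `2 (d + 1)`. -/

open MvPolynomial Set Function
open scoped Matrix

noncomputable section

namespace Pool.Agent.MP_6600f1_ag

variable {r d : ℕ} {p : Fin r → V3} {a q w : V3} {S : Finset (Fin r)} {i i0 : Fin r}
  {x : Fin r → ℝ}

/-- a curve of degree `d` through the points of `S` that misses `q` -/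
def Van (d : ℕ) (S : Finset (Fin r)) (p : Fin r → V3) (q : V3) : Prop :=
  ∃ f : Form, f.IsHomogeneous d ∧ eval q f ≠ 0 ∧ ∀ j ∈ S, eval (p j) f = 0

/-- independent conditions -/
def Ind (d : ℕ) (T : Finset (Fin r)) (p : Fin r → V3) : Prop := ∀ i ∈ T, Van d (T.erase i) p (p i)

/-- a linear relation between evaluations -/
def Rl (d : ℕ) (p : Fin r → V3) (q : V3) (x : Fin r → ℝ) : Prop :=
  ∀ h : Form, h.IsHomogeneous d → eval q h = ∑ j, x j * eval (p j) h

theorem dual (d : ℕ) (S : Finset (Fin r)) (p : Fin r → V3) (q : V3) :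
    Van d S p q ∨ ∃ x, (∀ j ∉ S, x j = 0) ∧ Rl d p q x := by
  refine or_iff_not_imp_left.2 fun H => ?_
  let L : V3 → E d →ₗ[ℝ] ℝ := fun v => (aeval v).toLinearMap ∘ₗ toF d
  have := mem_span_of_iInf_ker_le_ker (L := fun j : S => L (p j)) (K := L q) fun e he =>
    by_contra fun c => H ⟨toF d e, toF_hom e, by simpa [L, aeval_eq_eval] using c, fun j hj => by
      simpa [L, aeval_eq_eval] using (Submodule.mem_iInf _).1 he ⟨j, hj⟩⟩
  obtain ⟨c, hc⟩ := (Submodule.mem_span_range_iff_exists_fun ℝ).1 this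
  refine ⟨fun j => if h : j ∈ S then c ⟨j, h⟩ else 0, fun j hj => dif_neg hj, fun h hh => ?_⟩
  have := LinearMap.congr_fun hc (ofF d h)
  simp only [L, LinearMap.sum_apply, LinearMap.smul_apply, LinearMap.comp_apply, toF_ofF hh,
    AlgHom.toLinearMap_apply, aeval_eq_eval, smul_eq_mul] at this
  rw [← this, ← Finset.sum_subset S.subset_univ fun j _ hj => by simp [hj],
    ← Finset.sum_coe_sort S]
  simp

theorem lin_hom (a b : V3) : (lin a b).IsHomogeneous 1 :=
  ((isHomogeneous_C_mul_X _ _).add (isHomogeneous_C_mul_X _ _)).add (isHomogeneous_C_mul_X _ _)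

theorem exists_lin (h : cx a q ≠ 0) : ∃ z, dt a z q ≠ 0 :=
  ⟨cx a q, fun e => h (dotProduct_self_eq_zero.1 (by rw [dt_dot, e, neg_zero]))⟩

theorem exists_ne_smul (q : V3) : ∃ w : V3, ∀ c : ℝ, w ≠ c • q := by
  by_contra H
  push Not at H
  obtain ⟨c, h1⟩ := H ![1, 0, 0]
  obtain ⟨c', h2⟩ := H ![0, 1, 0]
  have a := congrFun h1 1
  have b := congrFun h1 0
  have e := congrFun h2 1
  rcases (by simpa using a : c = 0 ∨ q 1 = 0) with l | l <;> simp [l] at b e

theorem Rl.card (h : Rl d p q x) (q0 : q ≠ 0) (hp : ∀ j, x j ≠ 0 → ∀ c : ℝ, p j ≠ c • q) :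
    d < (Finset.univ.filter fun j => x j ≠ 0).card := by
  by_contra H
  generalize hX : (Finset.univ.filter fun j => x j ≠ 0) = X at H
  have m : ∀ j, j ∈ X ↔ x j ≠ 0 := fun j => by simp [← hX]
  choose! z hz using fun j hj => exists_lin (cx_ne q0 (hp j hj))
  obtain ⟨a, ha⟩ := exists_ne_smul q
  obtain ⟨b, hb⟩ := exists_lin (cx_ne q0 ha)
  have := h ((∏ j ∈ X, lin (p j) (z j)) * lin a b ^ (d - X.card)) (by
    convert (IsHomogeneous.prod X _ (fun _ => 1) fun j _ => lin_hom (p j) (z j)).mul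
      ((lin_hom a b).pow (d - X.card)) using 1
    simp
    omega)
  rw [Finset.sum_eq_zero fun j _ => by
    by_cases c : x j = 0
    · rw [c, zero_mul]
    · rw [map_mul, map_prod, Finset.prod_eq_zero ((m j).2 c)
        (by simpa [eval_lin] using dt_left (p j) (z j) 1), zero_mul, mul_zero]] at this
  simp only [map_mul, map_prod, map_pow, eval_lin] at this
  exact mul_ne_zero (Finset.prod_ne_zero_iff.2 fun j hj => hz j ((m j).1 hj)) (pow_ne_zero _ hb) this

theorem Ind.uniq (h : Ind d (Finset.univ.erase i0) p) {u : Fin r → ℝ} (u0 : u i0 = 0)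
    (hu : ∀ h : Form, h.IsHomogeneous d → ∑ j, u j * eval (p j) h = 0) (j : Fin r) : u j = 0 := by
  by_cases c : j = i0
  · rwa [c]
  obtain ⟨f, h1, h2, h3⟩ := h j (by simpa)
  have := hu f h1
  rw [Finset.sum_eq_single j (fun l _ e => ?_) (by simp)] at this
  · exact (mul_eq_zero.1 this).resolve_right h2
  · by_cases c' : l = i0
    · rw [c', u0, zero_mul]
    · rw [h3 l (by simp [e, c']), mul_zero]

theorem sep (g : Gd (d + 1) p) (q0 : q ≠ 0) (hp : ∀ j, j ≠ i → ∀ c : ℝ, p j ≠ c • q)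
    (hw : cx (p i) w ≠ 0)
    (hu : ∀ x x' b, x i = 0 → x' i = 0 → Rl d p q x → Rl d p q x' → x' b = 0 → x b = 0) :
    ∃ (f : Form) (z : V3), f.IsHomogeneous d ∧ eval q f ≠ 0 ∧ dt (p i) z w ≠ 0 ∧
      ∀ j, j ≠ i → eval (p j) f = 0 ∨ p j = z := by
  obtain ⟨f, h1, h2, h3⟩ | ⟨x, h1, h2⟩ := dual d (Finset.univ.erase i) p q
  · obtain ⟨z, hz⟩ := exists_lin hw
    exact ⟨f, z, h1, h2, hz, fun j hj => .inl (h3 j (by simpa))⟩
  have x0 := h1 i (by simp)
  have := h2.card q0 fun j hj => hp j (by rintro rfl; exact hj x0)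
  obtain ⟨b, hb, l⟩ : ∃ b, x b ≠ 0 ∧ dt (p i) (p b) w ≠ 0 := by
    by_contra H
    push Not at H
    have := (Finset.card_le_card (s := insert i (Finset.univ.filter fun j => x j ≠ 0))
      fun j hj => ?_).trans (g.2.2 _ hw)
    · rw [Finset.card_insert_of_notMem (by simp [x0])] at this
      omega
    · rcases Finset.mem_insert.1 hj with rfl | hj
      · simp [dt_dot, dt_self]
      · simpa [dt_dot] using H j (by simpa using hj)
  obtain ⟨f, h3, h4, h5⟩ | ⟨x', h3, h4⟩ := dual d ((Finset.univ.erase i).erase b) p q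
  · exact ⟨f, p b, h3, h4, l, fun j hj => by
      by_cases c : j = b
      exacts [.inr (c ▸ rfl), .inl (h5 j (by simp [hj, c]))]⟩
  · exact (hb (hu x x' b x0 (h3 i (by simp)) h2 h4 (h3 b (by simp)))).elim

theorem sep1 (g : Gd (d + 1) p) (h : Ind d (Finset.univ.erase i0) p) (q0 : q ≠ 0)
    (hp : ∀ j (c : ℝ), p j ≠ c • q) :
    ∃ f : Form, f.IsHomogeneous (d + 1) ∧ (∀ j, eval (p j) f = 0) ∧ eval q f ≠ 0 := by
  obtain ⟨f, z, h1, h2, h3, h4⟩ := sep g q0 (i := i0) (fun j _ => hp j) (cx_ne q0 (hp i0))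
    fun x x' b a1 a2 a3 a4 a5 => by
      simpa [a5] using h.uniq (u := x - x') (by simp [a1, a2]) (fun f hf => by
        simp [sub_mul, ← a3 f hf, ← a4 f hf]) b
  refine ⟨f * lin (p i0) z, h1.mul (lin_hom _ _), fun j => ?_, by simp [eval_lin, h2, h3]⟩
  rw [map_mul, eval_lin, mul_eq_zero]
  by_cases c : j = i0
  · exact .inr (by simpa [c] using dt_left (p i0) z 1)
  · exact (h4 j c).imp_right fun e => by simpa [e] using dt_right (p i0) z 1

theorem sep2 (g : Gd (d + 1) p) (h : Ind d (Finset.univ.erase i0) p) (i : Fin r)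
    (hw : ∀ c : ℝ, w ≠ c • p i) :
    ∃ f f' : Form, f.IsHomogeneous (d + 1) ∧ f'.IsHomogeneous (d + 1) ∧
      (∀ j, eval (p j) f = 0) ∧ D f (p i) w ≠ 0 ∧ (∀ j, j ≠ i → eval (p j) f' = 0) ∧
        eval (p i) f' ≠ 0 := by
  obtain ⟨f, z, h1, h2, h3, h4⟩ := sep g (g.1 i) (i := i) (w := w)
    (fun j ij c e => ij (g.2.1 _ _ c e)) (fun e => cx_ne (g.1 i) hw (funext fun l => by
      have := congrFun e l
      fin_cases l <;> simp [cx] at this ⊢ <;> linarith))
    fun x x' b a1 a2 a3 a4 a5 => by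
      have rel : ∀ {x}, Rl d p (p i) x → ∀ f : Form, f.IsHomogeneous d →
          ∑ j, (x - Pi.single i 1 : Fin r → ℝ) j * eval (p j) f = 0 := fun {x} a f hf => by
        simp [sub_mul, ← a f hf, Pi.single_apply]
      generalize hc : (x - Pi.single i 1 : Fin r → ℝ) = c
      generalize hc' : (x' - Pi.single i 1 : Fin r → ℝ) = c'
      have := h.uniq (u := c' i0 • c - c i0 • c') (by simp [mul_comm]) (fun f hf => by
        simp only [Pi.sub_apply, Pi.smul_apply, smul_eq_mul, sub_mul, mul_assoc,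
          Finset.sum_sub_distrib, ← Finset.mul_sum]
        rw [← hc, ← hc', rel a3 f hf, rel a4 f hf]
        simp) b
      have n : c' i0 ≠ 0 := fun z => by
        simpa [← hc', a2] using h.uniq z (hc' ▸ rel a4) i
      by_cases e : b = i
      · rwa [e]
      · simpa [n, show c' b = 0 by simp [← hc', a5, e], show c b = x b by simp [← hc, e]] using this
  have z0 : dt (p i) z (p i) = 0 := by simpa using dt_left (p i) z 1
  refine ⟨f * lin (p i) z, f * lin w z, h1.mul (lin_hom _ _), h1.mul (lin_hom _ _), fun j => ?_,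
    by simp [D_mul, D_lin, eval_lin, z0, h2, h3], fun j c => ?_, by
      simp [eval_lin, h2, h3, dt_swap' w]⟩ <;> rw [map_mul, eval_lin, mul_eq_zero]
  · by_cases c : j = i
    · exact .inr (c ▸ z0)
    · exact (h4 j c).imp_right fun e => by simpa [e] using dt_right (p i) z 1
  · exact (h4 j c).imp_right fun e => by simpa [e] using dt_right w z 1

theorem free_of_ind (g : Gd (d + 1) p) (h : Ind d (Finset.univ.erase i0) p) :
    Free (2 * (d + 1)) p := by
  suffices H : LinearMap.range (gr (2 * (d + 1)) p) = ⊤ from fun ξ => by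
    obtain ⟨e, he⟩ := LinearMap.range_eq_top.1 H ξ
    exact ⟨_, toF_hom e, fun i l => congrFun₂ he i l⟩
  by_contra H
  obtain ⟨φ, φ0, hφ⟩ := Submodule.exists_le_ker_of_lt_top _ (lt_top_iff_ne_top.2 H)
  let w : Fin r → V3 := fun i l => φ (Pi.single i (Pi.single l 1))
  have e : ∀ ξ, φ ξ = ∑ i, ∑ l, ξ i l * w i l := fun ξ => by
    conv_lhs => rw [← Finset.univ_sum_single ξ]
    rw [map_sum]
    refine Finset.sum_congr rfl fun i _ => ?_
    conv_lhs => rw [← Finset.univ_sum_single (ξ i)]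
    simp only [w, ← smul_eq_mul, ← map_smul, ← map_sum, ← Pi.single_smul']
    congr 1
    funext j l
    by_cases c : j = i <;> simp [c, Pi.single_apply, Finset.sum_apply]
  have k : ∀ f f' : Form, f.IsHomogeneous (d + 1) → f'.IsHomogeneous (d + 1) →
      ∑ i, D (f * f') (p i) (w i) = 0 := fun f f' h1 h2 => by
    have := hφ ⟨ofF _ (f * f'), rfl⟩
    rw [LinearMap.mem_ker, e] at this
    simpa [gr, toF_ofF (two_mul (d + 1) ▸ h1.mul h2), D_apply, -Derivation.leibniz] using this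
  refine φ0 (LinearMap.ext fun ξ => ?_)
  suffices ∀ i, w i = 0 by simp [e, this]
  intro i
  by_cases c : ∀ c : ℝ, w i ≠ c • p i
  · obtain ⟨f, f', h1, h2, h3, h4, h5, h6⟩ := sep2 g h i c
    have := k f f' h1 h2
    rw [Finset.sum_eq_single i (fun j _ l => by simp [D_mul, h3, h5 j l]) (by simp)] at this
    simp [D_mul, h3, h4, h6] at this
  · push Not at c
    obtain ⟨c, hc⟩ := c
    obtain ⟨u, hu⟩ := exists_ne_smul (p i)
    obtain ⟨-, f', -, h2, -, -, h5, h6⟩ := sep2 g h i hu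
    have := k f' f' h2 h2
    rw [Finset.sum_eq_single i (fun j _ l => by simp [D_mul, h5 j l]) (by simp), hc, map_smul,
      euler (h2.mul h2)] at this
    have n : ((d + 1 + (d + 1) : ℕ) : ℝ) ≠ 0 := Nat.cast_ne_zero.2 (by omega)
    rw [hc, show c = 0 by simpa [-Nat.cast_add, n, h6] using this, zero_smul]

theorem exists_span (n : ℕ) (p : Fin r → V3) : ∃ (m : ℕ) (G : Fin m → Form),
    (∀ j, (G j).IsHomogeneous n) ∧ (∀ i j, eval (p i) (G j) = 0) ∧ ∀ (L : Form →ₗ[ℝ] ℝ) (f : Form),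
      f.IsHomogeneous n → (∀ j, eval (p j) f = 0) → L f ≠ 0 → ∃ j, L (G j) ≠ 0 := by
  let V : Submodule ℝ (E n) := ⨅ i, LinearMap.ker ((aeval (p i)).toLinearMap ∘ₗ toF n)
  have mV : ∀ e, e ∈ V ↔ ∀ i, eval (p i) (toF _ e) = 0 := fun e => by simp [V, aeval_eq_eval]
  let b := Module.finBasis ℝ V
  refine ⟨_, fun j => toF n (b j).1, fun j => toF_hom _, fun i j => (mV _).1 (b j).2 i,
    fun L f h1 h2 h3 => by_contra fun H => h3 ?_⟩
  push Not at H
  have := LinearMap.congr_fun (b.ext (f₁ := L ∘ₗ toF n ∘ₗ V.subtype) (f₂ := 0) H)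
    ⟨ofF _ f, (mV _).2 (by rwa [toF_ofF h1])⟩
  simpa [toF_ofF h1] using this

theorem sol_of_ind (g : Gd (d + 1) p) (h : Ind d (Finset.univ.erase i0) p) :
    ∃ e, (e, p) ∈ Sol (2 * (d + 1)) r := by
  obtain ⟨m, G, hG, z, sp⟩ := exists_span (d + 1) p
  have hh : (∑ j, G j * G j : Form).IsHomogeneous (2 * (d + 1)) :=
    IsHomogeneous.sum _ _ _ fun j _ => two_mul (d + 1) ▸ (hG j).mul (hG j)
  refine ⟨ofF _ (∑ j, G j * G j), ?_⟩
  change Solitary (toF _ (ofF _ _)) p
  rw [toF_ofF hh]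
  refine ⟨g.1, g.2.1, fun v => ?_, fun v v0 => ⟨fun e => by_contra fun H => ?_, ?_⟩, fun i w hw => ?_⟩
  · rw [map_sum]
    exact Finset.sum_nonneg fun τ _ => by rw [map_mul]; exact mul_self_nonneg _
  · obtain ⟨f, h1, h2, h3⟩ := sep1 g h v0 fun i c e => H ⟨i, c⁻¹, by
      rw [e, inv_smul_smul₀ (by rintro rfl; exact g.1 i (by simpa using e))]⟩
    obtain ⟨j, hj⟩ := sp (aeval v).toLinearMap f h1 h2 (by simpa [aeval_eq_eval])
    rw [map_sum, Finset.sum_eq_zero_iff_of_nonneg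
      fun τ _ => by rw [map_mul]; exact mul_self_nonneg _] at e
    exact hj (by simpa [aeval_eq_eval] using e j (Finset.mem_univ j))
  · rintro ⟨i, c, rfl⟩
    simp [eval_smul' (hG _), z]
  · obtain ⟨f, -, h1, -, h2, h3, -⟩ := sep2 g h i hw
    obtain ⟨j, hj⟩ := sp (∑ l, w l • (aeval (p i)).toLinearMap ∘ₗ (pderiv l).toLinearMap) f h1 h2
      (by simpa [aeval_eq_eval, D_apply, mul_comm] using h3)
    rw [hess_sum, Finset.sum_congr rfl fun j _ => hess_sq (z i j)]
    exact Finset.sum_pos' (fun _ _ => mul_nonneg zero_le_two (sq_nonneg _)) ⟨j, Finset.mem_univ j,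
      mul_pos two_pos (sq_pos_of_ne_zero (by simpa [aeval_eq_eval, D_apply, mul_comm] using hj))⟩

end Pool.Agent.MP_6600f1_ag
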