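import Pool.Agent.MP_6600f1_ag.CDefs
import Pool.Agent.MP_6600f1_ag.Flow
import Mathlib.LinearAlgebra.Matrix.DotProduct

/-! Near a form with solitary nodes, the forms that are negative near every node have no real
singular point and are all joined. -/

open MvPolynomial Set Filter Topology Metric
open scoped Matrix

noncomputable section

namespace Pool.Agent.MP_6600f1_ag

variable {n r : ℕ} {F G : Form} {p : Fin r → V3} {v w : V3}

theorem cont_eval (L : Form →ₗ[ℝ] Form) :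
    Continuous fun q : E n × V3 => eval q.2 (L (toF n q.1)) := by
  simp only [toF_apply, map_sum, map_smul, smul_eval]
  exact continuous_finsetSum _ fun d _ => ((continuous_apply d).comp continuous_fst).mul
    ((MvPolynomial.continuous_eval _).comp continuous_snd)

/-- directional derivative -/
def dw (w : V3) (F : Form) : Form := ∑ j, w j • pderiv j F

theorem eval_dw (F : Form) (v w : V3) : eval v (dw w F) = D F v w := by
  simp [dw, D_apply, mul_comm]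

theorem D_dw (F : Form) (v w : V3) : D (dw w F) v w = hess F v w := by
  simp only [dw, D_apply, hess, map_sum, Derivation.map_smul, smul_eval, Finset.sum_mul]
  exact Finset.sum_congr rfl fun i _ => Finset.sum_congr rfl fun j _ => by ring

theorem hess_smul (F : Form) (v w : V3) (c : ℝ) : hess F v (c • w) = c ^ 2 * hess F v w := by
  simp only [hess, Finset.mul_sum, Pi.smul_apply, smul_eq_mul]
  exact Finset.sum_congr rfl fun i _ => Finset.sum_congr rfl fun j _ => by ring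

theorem convex_line (s : Sg F v) (h : ∀ t ∈ Ioo (0 : ℝ) 1, 0 < hess F (v + t • w) w) :
    0 < eval (v + w) F := by
  have h1 : ∀ t ∈ Ioo (0 : ℝ) 1, 0 < D F (v + t • w) w := fun t ht => by
    have := strict (hasDerivAt_line (dw w F) v w) (a := 0) (b := t)
      (fun x hx => by rw [D_dw]; exact (h x ⟨hx.1, hx.2.trans ht.2⟩).le)
      ⟨t / 2, ⟨half_pos ht.1, half_lt_self ht.1⟩, by
        rw [D_dw]; exact (h _ ⟨half_pos ht.1, (half_lt_self ht.1).trans ht.2⟩).ne'⟩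
    simpa [eval_dw, s.D_zero] using this
  have := strict (hasDerivAt_line F v w) (a := 0) (b := 1) (fun x hx => (h1 x hx).le)
    ⟨1 / 2, by norm_num, (h1 _ (by norm_num)).ne'⟩
  simpa [(sg_real.1 s).1] using this

theorem pderiv_swap (i j : Fin 3) (F : Form) : pderiv i (pderiv j F) = pderiv j (pderiv i F) := by
  induction F using MvPolynomial.induction_on with
  | C a => simp
  | add p q hp hq => simp [hp, hq]
  | mul_X p l hp =>
    simp only [Derivation.leibniz, smul_eq_mul, map_add, hp, pderiv_X, Pi.single_apply]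
    split_ifs <;> simp <;> ring

theorem hess_add (hF : F.IsHomogeneous n) (s : Sg F v) (w : V3) (c : ℝ) :
    hess F v (w + c • v) = hess F v w := by
  have e := fun j => euler (hF.pderiv (i := j)) v
  simp only [(sg_real.1 s).2, mul_zero, D_apply, Fin.sum_univ_three] at e
  have e0 := e 0
  have e1 := e 1
  have e2 := e 2
  simp only [hess, Fin.sum_univ_three, Pi.add_apply, Pi.smul_apply, smul_eq_mul,
    pderiv_swap 1 0, pderiv_swap 2 0, pderiv_swap 2 1] at e0 e1 e2 ⊢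
  linear_combination c * (2 * w 0 + c * v 0) * e0 + c * (2 * w 1 + c * v 1) * e1 +
    c * (2 * w 2 + c * v 2) * e2

theorem loc1 {e0 : E n} {p : V3} (p0 : p ≠ 0)
    (h : ∀ w, (∀ c : ℝ, w ≠ c • p) → 0 < hess (toF n e0) p w) :
    ∃ O : Set V3, IsOpen O ∧ p ∈ O ∧ 0 ∉ O ∧ ∀ᶠ e in 𝓝 e0, ∀ x ∈ O, Sg (toF n e) x →
      (∀ u ∈ O, 0 < eval u (toF n e) ∨ ∃ c : ℝ, u = c • x) ∧
        ∀ w, (∀ c : ℝ, w ≠ c • x) → 0 < hess (toF n e) x w := by
  have pp : 0 < p ⬝ᵥ p := (Finset.sum_nonneg fun i _ => mul_self_nonneg _).lt_of_ne'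
    fun z => p0 (dotProduct_self_eq_zero.1 z)
  have cp : Continuous fun w : V3 => w ⬝ᵥ p := by fun_prop
  have k : IsCompact (sphere (0 : V3) 1 ∩ {w | w ⬝ᵥ p = 0}) :=
    (isCompact_sphere _ _).inter_right (isClosed_eq cp continuous_const)
  have ch : Continuous fun q : (E n × V3) × V3 => hess (toF n q.1.1) q.1.2 q.2 :=
    continuous_finsetSum _ fun i _ => continuous_finsetSum _ fun j _ =>
      ((cont_eval ((pderiv i).toLinearMap ∘ₗ (pderiv j).toLinearMap)).comp continuous_fst).mul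
        (by fun_prop)
  have t := k.eventually_forall_of_forall_eventually (x₀ := (e0, p))
    (P := fun q w => 0 < hess (toF n q.1) q.2 w) fun w hw =>
      ch.continuousAt.eventually (lt_mem_nhds (h w fun c e => by
        have := hw.2
        rw [mem_ofPred_eq, e, smul_dotProduct, smul_eq_mul, mul_eq_zero] at this
        simpa [e, this.resolve_right pp.ne'] using hw.1))
  obtain ⟨ε, ε0, hε⟩ := Metric.eventually_nhds_iff_ball.1 t
  let π : V3 → V3 := fun x => (p ⬝ᵥ p / x ⬝ᵥ p) • x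
  have cπ : ContinuousAt π p :=
    (continuousAt_const.div cp.continuousAt pp.ne').smul continuousAt_id
  have : ∀ᶠ x in 𝓝 p, 0 < x ⬝ᵥ p ∧ π x ∈ ball p ε ∧ x ∈ ball p ε :=
    (cp.continuousAt.eventually (lt_mem_nhds pp)).and
      ((cπ.eventually_mem (by simpa [π, pp.ne'] using ball_mem_nhds p ε0)).and (ball_mem_nhds p ε0))
  obtain ⟨O, h1, h2, h3⟩ := _root_.eventually_nhds_iff.1 this
  refine ⟨O, h2, h3, fun z => by simpa using (h1 0 z).1, ?_⟩
  filter_upwards [ball_mem_nhds e0 ε0] with e he x hx s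
  have H : ∀ y ∈ ball p ε, ∀ w : V3, w ≠ 0 → w ⬝ᵥ p = 0 → 0 < hess (toF n e) y w :=
    fun y hy w c d => by
    have := hε (e, y) (by rw [← ball_prod_same]; exact ⟨he, hy⟩) (‖w‖⁻¹ • w)
      ⟨by simp [norm_smul, norm_ne_zero_iff.2 c], by simp [d]⟩
    rw [hess_smul] at this
    exact pos_of_mul_pos_right this (sq_nonneg _)
  obtain ⟨x0, x1, x2⟩ := h1 x hx
  refine ⟨fun u hu => ?_, fun w hw => ?_⟩
  · obtain ⟨u0, u1, -⟩ := h1 u hu
    have s' : Sg (toF n e) (π x) := s.smul (toF_hom e) _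
    by_cases c : π u - π x = 0
    · exact .inr ⟨(p ⬝ᵥ p / u ⬝ᵥ p)⁻¹ * (p ⬝ᵥ p / x ⬝ᵥ p), by
        rw [mul_smul, ← show π u = (p ⬝ᵥ p / x ⬝ᵥ p) • x from sub_eq_zero.1 c,
          inv_smul_smul₀ (div_pos pp u0).ne']⟩
    · have := convex_line s' (w := π u - π x) fun t ht => H _
        ((convex_ball p ε).add_smul_sub_mem x1 u1 ⟨ht.1.le, ht.2.le⟩) _ c (by simp [π, x0.ne', u0.ne'])
      rw [add_sub_cancel, eval_smul' (toF_hom e)] at this
      exact .inl (pos_of_mul_pos_right this (pow_pos (div_pos pp u0) n).le)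
  · rw [← hess_add (toF_hom e) s w (-(w ⬝ᵥ p / x ⬝ᵥ p))]
    exact H x x2 _ (fun z => hw (w ⬝ᵥ p / x ⬝ᵥ p) (by rwa [neg_smul, add_neg_eq_zero] at z))
      (by simp [x0.ne'])

theorem loc1' {e0 : E n} (h : Solitary (toF n e0) p) :
    ∃ O : Fin r → Set V3, (∀ i, IsOpen (O i) ∧ p i ∈ O i) ∧ ∀ᶠ e in 𝓝 e0,
      (∀ v : V3, v ≠ 0 → 0 < eval v (toF n e) ∨ ∃ i, ∃ c : ℝ, c ≠ 0 ∧ c • v ∈ O i) ∧
      ∀ i, ∀ x ∈ O i, Sg (toF n e) x → (∀ u ∈ O i, 0 < eval u (toF n e) ∨ ∃ c : ℝ, u = c • x) ∧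
        ∀ w, (∀ c : ℝ, w ≠ c • x) → 0 < hess (toF n e) x w := by
  choose O h1 h2 h3 h4 using fun i => loc1 (h.1 i) (h.2.2.2.2 i)
  have k : IsCompact (sphere (0 : V3) 1 \ ⋃ i, ⋃ c : ℝ, (fun v => c • v) ⁻¹' O i) :=
    (isCompact_sphere _ _).diff (isOpen_iUnion fun i => isOpen_iUnion fun c =>
      (h1 i).preimage (continuous_const_smul c))
  have t := k.eventually_forall_of_forall_eventually (x₀ := e0)
    (P := fun e v => 0 < eval v (toF n e)) fun v hv =>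
      (cont_eval LinearMap.id).continuousAt.eventually (lt_mem_nhds ((h.2.2.1 v).lt_of_ne' fun z => by
        have v0 : v ≠ 0 := by rintro rfl; simpa using hv.1
        obtain ⟨i, c, rfl⟩ := (h.2.2.2.1 v v0).1 z
        exact hv.2 (mem_iUnion₂.2 ⟨i, c⁻¹, by simpa [(smul_ne_zero_iff.1 v0).1] using h2 i⟩)))
  refine ⟨O, fun i => ⟨h1 i, h2 i⟩, ?_⟩
  filter_upwards [t, eventually_all.2 h4] with e a1 a2
  refine ⟨fun v v0 => ?_, a2⟩
  have n0 := inv_pos.2 (norm_pos_iff.2 v0)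
  by_cases c : ‖v‖⁻¹ • v ∈ ⋃ i, ⋃ c : ℝ, (fun v => c • v) ⁻¹' O i
  · obtain ⟨i, c, hc⟩ := mem_iUnion₂.1 c
    exact .inr ⟨i, c * ‖v‖⁻¹, mul_ne_zero (by rintro rfl; exact h3 i (by simpa using hc)) n0.ne',
      mul_smul c _ v ▸ hc⟩
  · have := a1 _ ⟨by simp [norm_smul, norm_ne_zero_iff.2 v0], c⟩
    rw [eval_smul' (toF_hom e)] at this
    exact .inl (pos_of_mul_pos_right this (pow_pos n0 n).le)

theorem loc2 {e0 : E n} (h : Solitary (toF n e0) p) :
    ∃ O : Fin r → Set V3, (∀ i, IsOpen (O i) ∧ p i ∈ O i) ∧ ∀ᶠ e in 𝓝 e0,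
      (∀ i, ∃ u ∈ O i, eval u (toF n e) < 0) → e ∈ U n := by
  obtain ⟨O, h1, h2⟩ := loc1' h
  refine ⟨O, h1, h2.mono fun e ⟨a1, a2⟩ a3 v v0 s => ?_⟩
  obtain l | ⟨i, c, -, hc⟩ := a1 v v0
  · exact l.ne' (sg_real.1 s).1
  · obtain ⟨u, hu, l⟩ := a3 i
    obtain l' | ⟨d, rfl⟩ := (a2 i _ hc (s.smul (toF_hom e) c)).1 u hu
    · exact l.not_gt l'
    · exact l.ne (sg_real.1 ((s.smul (toF_hom e) c).smul (toF_hom e) d)).1

/-- positive definite -/
def Pos (n : ℕ) (π : E n) : Prop :=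
  ∀ v : V3, 0 ≤ eval v (toF n π) ∧ (v ≠ 0 → 0 < eval v (toF n π))

/-- the class of small perturbations -/
def Near (π e g : E n) : Prop := ∀ᶠ ε : ℝ in 𝓝[>] 0, JoinedIn (U n) (e - ε • π) g

theorem loc3 {e0 π : E n} (hπ : Pos n π)
    (h : Solitary (toF n e0) p) :
    ∃ (g : E n) (O : Fin r → Set V3), (∀ i, IsOpen (O i) ∧ p i ∈ O i) ∧ ∀ᶠ e in 𝓝 e0,
      (∀ i, ∃ u ∈ O i, eval u (toF n e) < 0) → JoinedIn (U n) e g := by
  obtain ⟨O, h1, h2⟩ := loc2 h
  obtain ⟨ρ, ρ0, hρ⟩ := Metric.eventually_nhds_iff_ball.1 h2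
  have l : ∀ e : E n, Tendsto (fun ε : ℝ => e - ε • π) (𝓝 0) (𝓝 e) := fun e => by
    have : Continuous fun ε : ℝ => e - ε • π := by fun_prop
    simpa using this.tendsto 0
  obtain ⟨c, hc, c0⟩ := ((((l 0).eventually (ball_mem_nhds _ (half_pos ρ0))).filter_mono
    nhdsWithin_le_nhds).and (self_mem_nhdsWithin (s := Ioi 0))).exists
  have z : ∀ i, eval (p i) (toF n (e0 - c • π)) < 0 := fun i => by
    simpa [(h.2.2.2.1 _ (h.1 i)).2 ⟨i, 1, by simp⟩] using mul_pos c0 ((hπ _).2 (h.1 i))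
  have b : ∀ e ∈ ball e0 (ρ / 2), e - c • π ∈ ball e0 ρ := fun e he => by
    rw [mem_ball_iff_norm] at he ⊢
    rw [dist_eq_norm] at hc
    rw [show e - c • π - e0 = e - e0 + (0 - c • π - 0) by abel]
    linarith [norm_add_le (e - e0) (0 - c • π - 0)]
  refine ⟨e0 - c • π, O, h1, ?_⟩
  have : ∀ᶠ e in 𝓝 e0, ∀ i, eval (p i) (toF n (e - c • π)) < 0 := eventually_all.2 fun i =>
    (((cont_eval LinearMap.id).comp (f := fun e => (e - c • π, p i))
      (by fun_prop)).tendsto e0).eventually_lt_const (z i)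
  filter_upwards [this, ball_mem_nhds e0 (half_pos ρ0)] with e a1 a2 a3
  refine (JoinedIn.of_segment_subset fun x hx => hρ x ((convex_ball _ _).segment_subset
    (ball_subset_ball (half_le_self ρ0.le) a2) (b e a2) hx) fun i => ?_).trans
    (JoinedIn.of_segment_subset fun x hx => hρ x ((convex_ball _ _).segment_subset (b e a2)
      (b e0 (mem_ball_self (half_pos ρ0))) hx) fun i => ⟨p i, (h1 i).2, ?_⟩)
  · obtain ⟨u, hu, l⟩ := a3 i
    obtain ⟨s, t, s0, t0, st, rfl⟩ := hx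
    refine ⟨u, hu, ?_⟩
    simp only [map_add, map_smul, map_sub, smul_eval]
    obtain rfl : s = 1 - t := by linarith
    nlinarith [mul_nonneg t0 (mul_nonneg c0.le (hπ u).1)]
  · obtain ⟨s, t, s0, t0, st, rfl⟩ := hx
    simp only [map_add, map_smul, smul_eval]
    have := a1 i
    have := z i
    rcases le_total (eval (p i) (toF n (e - c • π))) (eval (p i) (toF n (e0 - c • π))) with
      l | l <;> nlinarith

theorem Near.join {π e g g' : E n} (h : Near π e g) (h' : Near π e g') : JoinedIn (U n) g g' := by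
  obtain ⟨ε, h1, h2⟩ := (h.and h').exists
  exact h1.symm.trans h2

/-- forms with their solitary nodes -/
def Sol (n r : ℕ) : Set (E n × (Fin r → V3)) := {q | Solitary (toF n q.1) q.2}

theorem loc4 {π : E n} (hπ : Pos n π) {q : E n × (Fin r → V3)} (h : q ∈ Sol n r) :
    ∃ g, (∀ᶠ q' in 𝓝 q, q' ∈ Sol n r → Near π q'.1 g) ∧ ∃ δ > 0, ∀ e ∈ ball q.1 δ,
      (∀ i, ∃ u, ‖u - q.2 i‖ < δ ∧ eval u (toF n e) < 0) → JoinedIn (U n) e g := by
  obtain ⟨g, O, h1, h2⟩ := loc3 hπ h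
  refine ⟨g, ?_, ?_⟩
  · have : ∀ᶠ q' : E n × (Fin r → V3) in 𝓝 q, ∀ i, q'.2 i ∈ O i := eventually_all.2 fun i =>
      (by fun_prop : Continuous fun q' : E n × (Fin r → V3) => q'.2 i).continuousAt.eventually_mem
        ((h1 i).1.mem_nhds (h1 i).2)
    filter_upwards [this, continuous_fst.continuousAt.eventually h2.eventually_nhds] with q' a1 a2 s
    have c : Continuous fun ε : ℝ => q'.1 - ε • π := by fun_prop
    have l : Tendsto (fun ε : ℝ => q'.1 - ε • π) (𝓝[>] 0) (𝓝 q'.1) := by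
      simpa using (c.tendsto 0).mono_left nhdsWithin_le_nhds
    filter_upwards [l.eventually a2, self_mem_nhdsWithin] with ε b1 b2
    exact b1 fun i => ⟨_, a1 i, by
      simpa [(s.2.2.2.1 _ (s.1 i)).2 ⟨i, 1, by simp⟩] using mul_pos b2 ((hπ _).2 (s.1 i))⟩
  · have : ∀ᶠ δ : ℝ in 𝓝[>] 0, ∀ i, ball (q.2 i) δ ⊆ O i := eventually_all.2 fun i => by
      obtain ⟨ε, ε0, hε⟩ := Metric.isOpen_iff.1 (h1 i).1 _ (h1 i).2
      filter_upwards [(gt_mem_nhds ε0).filter_mono nhdsWithin_le_nhds] with δ l using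
        (ball_subset_ball l.le).trans hε
    obtain ⟨ρ, ρ0, hρ⟩ := Metric.eventually_nhds_iff_ball.1 h2
    obtain ⟨δ, ⟨a1, a2⟩, a3⟩ := ((this.and ((gt_mem_nhds ρ0).filter_mono nhdsWithin_le_nhds)).and
      self_mem_nhdsWithin).exists
    exact ⟨δ, a3, fun e he H => hρ e (ball_subset_ball a2.le he) fun i =>
      (H i).imp fun u hu => ⟨a1 i (mem_ball_iff_norm.2 hu.1), hu.2⟩⟩

theorem near_of_joined {π : E n} (hπ : Pos n π) {q q' : E n × (Fin r → V3)}
    (h : JoinedIn (Sol n r) q q') : ∃ g, Near π q.1 g ∧ Near π q'.1 g := by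
  obtain ⟨γ, hγ⟩ := h
  refine (isPreconnected_range γ.continuous).induction₂ (fun a b => ∃ g, Near π a.1 g ∧ Near π b.1 g)
    ?_ (fun _ _ _ _ _ _ ⟨g, h1, h2⟩ ⟨g', h3, h4⟩ => ⟨g, h1, h4.mono fun ε j => j.trans (h3.join h2)⟩)
    (fun _ _ _ _ ⟨g, h1, h2⟩ => ⟨g, h2, h1⟩) γ.source_mem_range γ.target_mem_range
  rintro _ ⟨t, rfl⟩
  obtain ⟨g, h1, -⟩ := loc4 hπ (hγ t)
  filter_upwards [mem_nhdsWithin_of_mem_nhds h1, self_mem_nhdsWithin] with z h2 ⟨s, e⟩
  exact ⟨g, h1.self_of_nhds (hγ t), h2 (e ▸ hγ s)⟩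

theorem Contractible.near {π : E n} (hπ : Pos n π) (h : Contractible n F r) :
    ∃ c : ℝ, c ≠ 0 ∧ ∃ q ∈ Sol n r, (r ≤ n ∨ Free n q.2) ∧
      ∃ g, Near π q.1 g ∧ J n (c • F) (toF n g) := by
  obtain ⟨γ, p, c, c0, e1, ct, hh, sl, fr, rn, ng⟩ := h
  have m : (ofF n (γ 0), p) ∈ Sol n r := by
    change Solitary (toF n (ofF n (γ 0))) p
    rwa [toF_ofF (hh 0 (by simp))]
  obtain ⟨g, h1, δ, δ0, h2⟩ := loc4 hπ m
  refine ⟨c, c0, _, m, fr, g, h1.self_of_nhds m, ?_⟩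
  have cc : ContinuousOn (fun t => ofF n (γ t)) (Icc 0 1) := continuousOn_pi.2 fun d => ct d.1
  obtain ⟨η, η0, hη⟩ := Metric.continuousOn_iff.1 cc 0 (by simp) δ δ0
  obtain ⟨t, ⟨t0, t1⟩, ht⟩ := ng (min (min δ η) 1) (by positivity)
  simp only [lt_min_iff] at t1 ht
  have ti : t ∈ Icc (0 : ℝ) 1 := ⟨t0.le, t1.2.le⟩
  have j1 := h2 _ (hη t ti (by simpa [abs_of_pos t0] using t1.1.2)) fun i =>
    (ht i).imp fun u hu => ⟨hu.1.1.1, by rw [toF_ofF (hh t ti)]; exact hu.2⟩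
  have mp : MapsTo (fun s : ℝ => t + s * (1 - t)) (Icc 0 1) (Ioc 0 1) := fun s hs =>
    ⟨by nlinarith [mul_nonneg hs.1 (sub_nonneg.2 ti.2)], by nlinarith [hs.2, ti.2]⟩
  have j2 := J.of_path (n := n) (fun s => γ (t + s * (1 - t)))
    (fun d => (ct d).comp (by fun_prop) (mp.mono_right Ioc_subset_Icc_self)) fun s hs =>
      ⟨hh _ (Ioc_subset_Icc_self (mp hs)), fun v v0 sg =>
        (rn _ (mp hs) v v0 (sg_real.1 sg).1).elim fun i hi => hi ((sg_real.1 sg).2 i)⟩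
  simp only [zero_mul, add_zero, one_mul, add_sub_cancel, e1] at j2
  exact j2.symm.trans ⟨hh t ti, toF_hom g, by rwa [ofF_toF]⟩

end Pool.Agent.MP_6600f1_ag
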