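import Pool.Agent.MP_6600f1_ag.Alg
import Pool.Agent.MP_6600f1_ag.Avoid
import Mathlib.Algebra.Order.Antidiag.Finsupp
import Mathlib.LinearAlgebra.Complex.FiniteDimensional
import Mathlib.Topology.Maps.Proper.Basic

/-! The space of forms of degree `n`; paths without real singular points can be deformed to paths
of nonsingular curves. -/

open MvPolynomial Set Module Metric
open scoped Matrix

noncomputable section

namespace Pool.Agent.MP_6600f1_ag

/-- exponents of degree `n` -/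
def Ix (n : ℕ) : Finset (Fin 3 →₀ ℕ) := Finset.finsuppAntidiag Finset.univ n

theorem mem_Ix {n : ℕ} {d : Fin 3 →₀ ℕ} : d ∈ Ix n ↔ d.degree = n := by
  simp [Ix, Finsupp.degree_eq_sum]

/-- coefficient space -/
abbrev E (n : ℕ) : Type := Ix n → ℝ

def toF (n : ℕ) : E n →ₗ[ℝ] Form := ∑ d : Ix n, monomial d.1 ∘ₗ LinearMap.proj d

def ofF (n : ℕ) (F : Form) : E n := fun d => coeff d.1 F

variable {n : ℕ} {F G H : Form}

theorem toF_apply (e : E n) : toF n e = ∑ d : Ix n, e d • monomial d.1 (1 : ℝ) := by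
  simp [toF, smul_monomial]

theorem coeff_toF (e : E n) (d : Fin 3 →₀ ℕ) :
    coeff d (toF n e) = if h : d ∈ Ix n then e ⟨d, h⟩ else 0 := by
  simp only [toF_apply, coeff_sum, coeff_smul, coeff_monomial, smul_eq_mul]
  split_ifs with h
  · rw [Finset.sum_eq_single ⟨d, h⟩] <;> simp +contextual [Subtype.ext_iff]
  · exact Finset.sum_eq_zero fun i _ => by
      rw [if_neg fun c : i.1 = d => h (c ▸ i.2), mul_zero]

theorem toF_hom (e : E n) : (toF n e).IsHomogeneous n := by
  rw [toF_apply]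
  exact IsHomogeneous.sum _ _ _ fun d _ => by
    rw [smul_monomial]; exact isHomogeneous_monomial _ (mem_Ix.1 d.2)

theorem toF_ofF (h : F.IsHomogeneous n) : toF n (ofF n F) = F := by
  ext d
  rw [coeff_toF]
  split_ifs with c
  · rfl
  · exact (h.coeff_eq_zero fun e => c (mem_Ix.2 e)).symm

theorem ofF_toF (e : E n) : ofF n (toF n e) = e := funext fun d => by simp [ofF, coeff_toF]

/-! ### Smooth families -/

section Sm
variable {X : Type} [NormedAddCommGroup X] [NormedSpace ℝ X] {γ δ : X → Form}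

/-- family with smooth coefficients -/
def Sm (γ : X → Form) : Prop := ∀ d, ContDiff ℝ 1 fun x => coeff d (γ x)

theorem Sm.const (F : Form) : Sm fun _ : X => F := fun _ => contDiff_const
theorem Sm.add (h : Sm γ) (h' : Sm δ) : Sm fun x => γ x + δ x := fun d => by
  simpa only [coeff_add] using (h d).add (h' d)
theorem Sm.mul (h : Sm γ) (h' : Sm δ) : Sm fun x => γ x * δ x := fun d => by
  simp only [coeff_mul]
  exact ContDiff.sum fun p _ => (h _).mul (h' _)
theorem Sm.smul {f : X → ℝ} (hf : ContDiff ℝ 1 f) (h : Sm γ) : Sm fun x => f x • γ x := fun d => by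
  simpa only [coeff_smul, smul_eq_mul] using hf.mul (h d)
theorem Sm.C {f : X → ℝ} (hf : ContDiff ℝ 1 f) : Sm fun x => C (f x) := by
  simpa only [← C_eq_smul_one] using Sm.smul hf (Sm.const 1)
theorem Sm.sum {ι : Type} {s : Finset ι} {γ : ι → X → Form} (h : ∀ i, Sm (γ i)) :
    Sm fun x => ∑ i ∈ s, γ i x := fun d => by
  simp only [coeff_sum]
  exact ContDiff.sum fun i _ => h i d
theorem Sm.prod {ι : Type} {s : Finset ι} {γ : ι → X → Form} (h : ∀ i, Sm (γ i)) :
    Sm fun x => ∏ i ∈ s, γ i x := by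
  classical
  induction s using Finset.induction_on with
  | empty => simpa using Sm.const 1
  | insert a s ha ih => simpa only [Finset.prod_insert ha] using (h a).mul ih
theorem Sm.sub {A : X → M3} (hA : ∀ i j, ContDiff ℝ 1 fun x => A x i j) (F : Form) :
    Sm fun x => sub (A x) F := by
  unfold MP_6600f1_ag.sub
  induction F using MvPolynomial.induction_on with
  | C a => simpa using Sm.const (MvPolynomial.C a)
  | add p q hp hq => simpa only [map_add] using hp.add hq
  | mul_X p i hp =>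
    simpa only [map_mul, aeval_X] using hp.mul (Sm.sum fun j => (Sm.C (hA i j)).mul (Sm.const _))

end Sm

/-! ### Paths without real singular points -/

def U (n : ℕ) : Set (E n) := {e | RN (toF n e)}

theorem open_U (n : ℕ) : IsOpen (U n) := by
  have c : ∀ L : Form →ₗ[ℝ] Form,
      Continuous fun q : E n × sphere (0 : V3) 1 => eval q.2.1 (L (toF n q.1)) := fun L => by
    simp only [toF_apply, map_sum, map_smul, smul_eval]
    exact continuous_finsetSum _ fun d _ => ((continuous_apply d).comp continuous_fst).mul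
      ((MvPolynomial.continuous_eval _).comp (continuous_subtype_val.comp continuous_snd))
  have k : IsClosed {q : E n × sphere (0 : V3) 1 | Sg (toF n q.1) q.2.1} := by
    simp only [sg_real, ofPred_and, ofPred_forall]
    exact (isClosed_eq (c LinearMap.id) continuous_const).inter
      (isClosed_iInter fun i => isClosed_eq (c (pderiv i).toLinearMap) continuous_const)
  convert (isClosedMap_fst_of_compactSpace _ k).isOpen_compl using 1
  ext e
  refine ⟨fun h ⟨q, h1, h2⟩ => h q.2.1 (ne_zero_of_mem_unit_sphere q.2) (h2 ▸ h1),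
    fun h v hv s => h ⟨(e, ⟨‖v‖⁻¹ • v, ?_⟩), s.smul (toF_hom e) _, rfl⟩⟩
  simp [norm_smul, norm_ne_zero_iff.2 hv]

/-- joined by a path of forms of degree `n` without real singular points -/
def J (n : ℕ) (F G : Form) : Prop :=
  F.IsHomogeneous n ∧ G.IsHomogeneous n ∧ JoinedIn (U n) (ofF n F) (ofF n G)

theorem J.symm (h : J n F G) : J n G F := ⟨h.2.1, h.1, h.2.2.symm⟩
theorem J.trans (h : J n F G) (h' : J n G H) : J n F H := ⟨h.1, h'.2.1, h.2.2.trans h'.2.2⟩
theorem J.rn (h : J n F G) : RN G := toF_ofF h.2.1 ▸ h.2.2.target_mem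

theorem J.of_path (γ : ℝ → Form) (hc : ∀ d, ContinuousOn (fun t => coeff d (γ t)) (Icc 0 1))
    (hh : ∀ t ∈ Icc (0 : ℝ) 1, (γ t).IsHomogeneous n ∧ RN (γ t)) : J n (γ 0) (γ 1) :=
  ⟨(hh 0 (by simp)).1, (hh 1 (by simp)).1, JoinedIn.ofLine (f := fun t => ofF n (γ t))
    (continuousOn_pi.2 fun d => hc d.1) rfl rfl (by
      rintro _ ⟨t, ht, rfl⟩
      exact (toF_ofF (hh t ht).1).symm ▸ (hh t ht).2 |> fun h : RN (toF n (ofF n (γ t))) => h)⟩

theorem J.of_sm {γ : ℝ → Form} (hc : Sm γ)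
    (hh : ∀ t ∈ Icc (0 : ℝ) 1, (γ t).IsHomogeneous n ∧ RN (γ t)) : J n (γ 0) (γ 1) :=
  J.of_path γ (fun d => (hc d).continuous.continuousOn) hh

theorem hom_smul (h : F.IsHomogeneous n) (c : ℝ) : (c • F).IsHomogeneous n := by
  simpa only [C_mul'] using h.C_mul c

theorem J.smul (h : J n F G) {c : ℝ} (hc : c ≠ 0) : J n (c • F) (c • G) := by
  refine ⟨hom_smul h.1 c, hom_smul h.2.1 c, ?_⟩
  have := (h.2.2.map (f := fun e => c • e) (continuous_const_smul c)).mono (V := U n) (by
    rintro _ ⟨e, he, rfl⟩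
    change RN (toF n (c • e))
    rw [map_smul]
    exact RN.smul he hc)
  convert this using 1 <;> funext d <;> simp [ofF]

/-! ### Non-real singular points -/

def p0 : Fin 3 → ℂ := ![1, Complex.I, 0]

/-- value and two derivatives at `p0` -/
def L0 (n : ℕ) : E n →ₗ[ℝ] ℂ × ℂ × ℂ :=
  ((aeval p0).toLinearMap.prod (((aeval p0).toLinearMap ∘ₗ (pderiv 1).toLinearMap).prod
    ((aeval p0).toLinearMap ∘ₗ (pderiv 2).toLinearMap))) ∘ₗ toF n

theorem L0_surj (m : ℕ) : Function.Surjective (L0 (m + 3)) := by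
  rintro ⟨a, b, c⟩
  let F : Form := X 0 ^ m * (C (a.re + b.im / 2) * (X 0 * X 0 * X 0) +
    C (a.im + (a.im - b.re) / 2) * (X 0 * X 0 * X 1) + C (b.im / 2) * (X 0 * X 1 * X 1) +
    C ((a.im - b.re) / 2) * (X 1 * X 1 * X 1) + C c.re * (X 0 * X 0 * X 2) +
    C c.im * (X 0 * X 1 * X 2))
  have k : ∀ (r : ℝ) (i j l : Fin 3), (C r * (X i * X j * X l) : Form).IsHomogeneous 3 :=
    fun r i j l => (((isHomogeneous_X ℝ i).mul (isHomogeneous_X ℝ j)).mul
      (isHomogeneous_X ℝ l)).C_mul r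
  have hF : F.IsHomogeneous (m + 3) := (isHomogeneous_X_pow 0 m).mul
    ((((((k _ _ _ _).add (k _ _ _ _)).add (k _ _ _ _)).add (k _ _ _ _)).add (k _ _ _ _)).add
      (k _ _ _ _))
  refine ⟨ofF _ F, ?_⟩
  simp only [L0, LinearMap.comp_apply, toF_ofF hF]
  simp [F, p0, pderiv_X, Derivation.leibniz, Derivation.leibniz_pow, Complex.ext_iff]
  constructor <;> ring

/-- a four-parameter family of matrices -/
def Mx (s : Fin 3 × Fin 3) (a : Fin 4 → ℝ) : M3 :=
  ![Pi.single s.1 1, Pi.single s.1 (a 0) + Pi.single s.2 (a 1),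
    1 + Pi.single s.1 (a 2) + Pi.single s.2 (a 3)]

theorem exists_Mx {q : Fin 3 → ℂ} {i j : Fin 3} (hi : q i = 1) (hj : (q j).im ≠ 0) :
    ∃ a, (Mx (i, j) a).det ≠ 0 ∧ (Mx (i, j) a).map (algebraMap ℝ ℂ) *ᵥ q = p0 := by
  have ij : i ≠ j := by
    rintro rfl
    simp [hi] at hj
  refine ⟨![-(q j).re / (q j).im, 1 / (q j).im,
    -(∑ l, q l).re + (∑ l, q l).im / (q j).im * (q j).re, -(∑ l, q l).im / (q j).im], ?_, ?_⟩
  · fin_cases i <;> fin_cases j <;> simp [Mx, Matrix.det_fin_three] at ij hj ⊢ <;> exact hj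
  · have k : ∀ (i : Fin 3) (r : ℝ), ∑ x, ((if x = i then r else 0 : ℝ) : ℂ) * q x = r * q i :=
      fun i r => by rw [Finset.sum_eq_single i] <;> simp +contextual
    funext l
    fin_cases l <;>
      simp [Mx, p0, Matrix.mulVec, dotProduct, Pi.single_apply, add_mul, Finset.sum_add_distrib, k,
        hi, Complex.ext_iff] <;>
      constructor <;> field_simp <;> ring

theorem J.upgrade (hn : 3 ≤ n) (h : J n F G) (hF : Nonsing F) (hG : Nonsing G) :
    JoinedIn {e | Nonsing (toF n e)} (ofF n F) (ofF n G) := by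
  obtain ⟨m, rfl⟩ : ∃ m, n = m + 3 := ⟨n - 3, by omega⟩
  refine avoid (P := (Fin 4 → ℝ) × LinearMap.ker (L0 (m + 3)))
    (fun s q => ofF _ (sub (Mx s q.1) (toF _ q.2.1))) (fun s => contDiff_pi.2 fun d => ?_) ?_
    (open_U _) (fun e he hs => ?_) (by simpa [toF_ofF h.1]) (by simpa [toF_ofF h.2.1]) h.2.2
  · simp only [toF_apply, sub, map_sum, map_smul]
    refine Sm.sum (fun d' => Sm.smul ((contDiff_apply ℝ ℝ d').comp
      ((LinearMap.ker (L0 (m + 3))).subtypeL.contDiff.comp contDiff_snd))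
      (Sm.sub (A := fun q : (Fin 4 → ℝ) × LinearMap.ker (L0 (m + 3)) => Mx s q.1)
        (fun i j => ?_) _)) d.1
    fin_cases i <;> simp [Mx, Pi.single_apply] <;> split_ifs <;> fun_prop
  · have := (L0 (m + 3)).finrank_range_add_finrank_ker
    rw [LinearMap.range_eq_top.2 (L0_surj m), finrank_top] at this
    simp only [finrank_prod, Complex.finrank_real_complex, finrank_fin_fun] at this ⊢
    omega
  · obtain ⟨p, hp, s⟩ : ∃ p : Fin 3 → ℂ, p ≠ 0 ∧ Sg (toF _ e) p := by
      simpa [nonsing_iff] using hs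
    obtain ⟨i, hi⟩ := Function.ne_iff.1 hp
    have s' := s.smul (toF_hom e) (p i)⁻¹
    have e1 : ((p i)⁻¹ • p) i = 1 := inv_mul_cancel₀ hi
    generalize (p i)⁻¹ • p = q at s' e1
    by_cases c : ∀ j, (q j).im = 0
    · refine (he (fun j => (q j).re) (fun z => ?_) (sg_complex.1 ?_)).elim
      · simpa [e1] using congrFun z i
      · convert s' using 2 with j
        simp [Complex.ext_iff, c]
    · obtain ⟨j, hj⟩ := not_forall.1 c
      obtain ⟨a, h1, h2⟩ := exists_Mx e1 hj
      have s2 : Sg (sub (Mx (i, j) a)⁻¹ (toF _ e)) p0 := Sg.sub (by rwa [← h2, map_mul_inv h1])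
      have hh := sub_hom (Mx (i, j) a)⁻¹ (toF_hom e)
      refine ⟨(i, j), (a, ⟨ofF _ (sub (Mx (i, j) a)⁻¹ (toF _ e)), ?_⟩), ?_⟩
      · simp [L0, toF_ofF hh, s2.1, s2.2]
      · simp only [toF_ofF hh, sub_sub, Matrix.nonsing_inv_mul _ h1.isUnit, sub_one, ofF_toF]

theorem J.rigid (hn : 3 ≤ n) {c : ℝ} (hc : c ≠ 0) (h : J n F (c • G)) (hF : Nonsing F)
    (hG : Nonsing G) : RigidIso n F G := by
  obtain ⟨γ, hγ⟩ := h.upgrade hn hF (hG.smul hc)
  refine ⟨fun t => toF n (γ t), fun d => ?_, fun t => ⟨toF_hom _, hγ t⟩, by simp [toF_ofF h.1],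
    c, hc, by simp [toF_ofF h.2.1]⟩
  simp only [coeff_toF]
  split_ifs
  · exact (continuous_apply _).comp γ.continuous
  · exact continuous_const

end Pool.Agent.MP_6600f1_ag
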