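import Pool.Agent.MP_6600f1_ag.Conf
import Mathlib.Analysis.Normed.Ring.Units

/-! Solitary nodes that impose independent conditions can be moved freely. -/

open MvPolynomial Set Function Filter Topology

noncomputable section

namespace Pool.Agent.MP_6600f1_ag

variable {n r k : ℕ} {F : Form} {p : Fin r → V3}

theorem Solitary.sg (h : Solitary F p) (i : Fin r) : Sg F (p i) := by
  have z := (h.2.2.2.1 _ (h.1 i)).2 ⟨i, 1, by simp⟩
  exact sg_of_D z (IsLocalMin.hasFDerivAt_eq_zero (.of_forall fun v => z.trans_le (h.2.2.1 v))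
    (hasFDerivAt_eval F _))

theorem sol_of_sg (hk : k ≠ 0) {q : E (2 * k) × (Fin r → V3)} (h : q ∈ Sol (2 * k) r) :
    ∀ᶠ q' in 𝓝 q, (∀ i, Sg (toF _ q'.1) (q'.2 i)) → q' ∈ Sol (2 * k) r := by
  obtain ⟨O, h1, h2⟩ := loc1' h
  have c : ∀ i, Continuous fun q' : E (2 * k) × (Fin r → V3) => q'.2 i := fun i => by fun_prop
  have a1 : ∀ᶠ q' : E (2 * k) × (Fin r → V3) in 𝓝 q, ∀ i, q'.2 i ∈ O i ∧ q'.2 i ≠ 0 :=
    eventually_all.2 fun i => ((c i).continuousAt.eventually_mem ((h1 i).1.mem_nhds (h1 i).2)).and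
      ((c i).continuousAt.eventually_ne (h.1 i))
  have a2 : ∀ᶠ q' : E (2 * k) × (Fin r → V3) in 𝓝 q, ∀ i j, i ≠ j → cx (q'.2 i) (q'.2 j) ≠ 0 :=
    eventually_all.2 fun i => eventually_all.2 fun j => eventually_imp_distrib_left.2 fun ij =>
      (by unfold cx; fun_prop : Continuous fun q' : E (2 * k) × (Fin r → V3) =>
        cx (q'.2 i) (q'.2 j)).continuousAt.eventually_ne (cx_ne (h.1 j) fun c e => ij (h.2.1 _ _ c e))
  filter_upwards [a1, a2, continuous_fst.continuousAt.eventually h2] with q' a1 a2 ⟨a3, a4⟩ s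
  have z : ∀ i (c : ℝ), eval (c • q'.2 i) (toF _ q'.1) = 0 := fun i c =>
    (sg_real.1 ((s i).smul (toF_hom _) c)).1
  have key : ∀ v : V3, v ≠ 0 → 0 < eval v (toF _ q'.1) ∨ ∃ i, ∃ c : ℝ, v = c • q'.2 i := fun v v0 => by
    obtain l | ⟨i, c, c0, hc⟩ := a3 v v0
    · exact .inl l
    · obtain l | ⟨d, e⟩ := (a4 i _ (a1 i).1 (s i)).1 _ hc
      · rw [eval_smul' (toF_hom _)] at l
        exact .inl (pos_of_mul_pos_right l ((even_two_mul k).pow_nonneg c))
      · exact .inr ⟨i, c⁻¹ * d, by rw [mul_smul, ← e, inv_smul_smul₀ c0]⟩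
  refine ⟨fun i => (a1 i).2, fun i j c e => by_contra fun ij => a2 i j ij ?_, fun v => ?_,
    fun v v0 => ⟨fun e => (key v v0).resolve_left e.not_gt, ?_⟩, fun i => (a4 i _ (a1 i).1 (s i)).2⟩
  · rw [e]
    funext l
    fin_cases l <;> simp [cx] <;> ring
  · by_cases v0 : v = 0
    · rw [v0, ← zero_smul ℝ (0 : V3), eval_smul' (toF_hom _)]
      simp [hk]
    · obtain l | ⟨i, c, rfl⟩ := key v v0
      exacts [l.le, (z i c).ge]
  · rintro ⟨i, c, rfl⟩
    exact z i c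

/-- the gradients at the points -/
def gr (n : ℕ) (p : Fin r → V3) : E n →ₗ[ℝ] Fin r → V3 where
  toFun e i l := eval (p i) (pderiv l (toF n e))
  map_add' _ _ := by ext; simp
  map_smul' _ _ := by ext; simp

theorem move (hk : k ≠ 0) {q : E (2 * k) × (Fin r → V3)} (h : q ∈ Sol (2 * k) r)
    (fr : Free (2 * k) q.2) {P : E (2 * k) × (Fin r → V3) → Prop} (hP : ∀ᶠ q' in 𝓝 q, P q') :
    ∀ᶠ p' in 𝓝 q.2, ∃ e, (e, p') ∈ Sol (2 * k) r ∧ P (e, p') := by
  let T : (Fin r → V3) → E (2 * k) →L[ℝ] Fin r → V3 :=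
    fun p => LinearMap.toContinuousLinearMap (gr _ p)
  have cT : Continuous T := continuous_clm_apply.2 fun e => continuous_pi fun i =>
    continuous_pi fun l => (MvPolynomial.continuous_eval _).comp (continuous_apply i)
  obtain ⟨R, hR⟩ := (T q.2).exists_rightInverse_of_surjective (LinearMap.range_eq_top.2 fun ξ => by
    obtain ⟨H, h1, h2⟩ := fr ξ
    exact ⟨ofF _ H, funext₂ fun i l => by simpa [T, gr, toF_ofF h1] using h2 i l⟩)
  have cM : Continuous fun p => (T p).comp R := cT.clm_comp continuous_const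
  have e1 : (T q.2).comp R = ((1 : ((Fin r → V3) →L[ℝ] Fin r → V3)ˣ) : _) := hR
  have cI : ContinuousAt (fun p => Ring.inverse ((T p).comp R)) q.2 :=
    ContinuousAt.comp (g := Ring.inverse) (f := fun p => (T p).comp R)
      (by rw [e1]; exact NormedRing.inverse_continuousAt 1) cM.continuousAt
  let s := fun p => (q.1 - R (Ring.inverse ((T p).comp R) (T p q.1)), p)
  have cs : ContinuousAt s q.2 := (continuousAt_const.sub (R.continuous.continuousAt.comp
    (cI.clm_apply (cT.clm_apply continuous_const).continuousAt))).prodMk continuousAt_id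
  have e2 : s q.2 = q := by
    have : T q.2 q.1 = 0 := funext₂ fun i l => (sg_real.1 (Solitary.sg h i)).2 l
    simp [s, this]
  filter_upwards [cs.eventually (e2 ▸ hP.and (sol_of_sg hk h)), cM.continuousAt.eventually
    (Units.isOpen.mem_nhds (show IsUnit ((T q.2).comp R) from e1 ▸ Units.isUnit 1))] with p' a1 a2
  have z : T p' (s p').1 = 0 := by
    have := congrArg (· (T p' q.1)) (Ring.mul_inverse_cancel _ a2)
    simpa [s, sub_eq_zero] using this.symm
  refine ⟨_, a1.2 fun i => ?_, a1.1⟩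
  have d : D (toF _ (s p').1) (p' i) = 0 := by
    ext w
    simp [D_apply, show ∀ l, eval (p' i) (pderiv l (toF _ (s p').1)) = 0 from
      fun l => congrFun₂ z i l]
  have := euler (toF_hom (s p').1) (p' i)
  exact sg_of_D (by simpa [d, hk] using this) d

/-- the class of curves that contract to solitary nodes at `p` -/
def Cl (π : E n) (p : Fin r → V3) (g : E n) : Prop := ∃ e, (e, p) ∈ Sol n r ∧ Near π e g

theorem Cl.join {π g g' : E n} (hπ : Pos n π) (h : Cl π p g) (h' : Cl π p g') :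
    JoinedIn (U n) g g' := by
  obtain ⟨e, h1, h2⟩ := h
  obtain ⟨e', h3, h4⟩ := h'
  obtain ⟨g0, h5, h6⟩ := near_of_joined hπ (q := (e, p)) (q' := (e', p))
    (JoinedIn.of_segment_subset (by
      rintro _ ⟨s, t, s0, t0, st, rfl⟩
      simpa [Sol, ← add_smul, st] using Solitary.convex h1 h3 s0 t0 st))
  exact (h2.join h5).trans (h6.join h4)

theorem Cl.mono {π g g' : E n} (h : Cl π p g) (j : JoinedIn (U n) g g') : Cl π p g' :=
  h.imp fun _ h => ⟨h.1, h.2.mono fun _ l => l.trans j⟩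

theorem cl_loc (hk : k ≠ 0) {π e : E (2 * k)} (hπ : Pos _ π) (h : (e, p) ∈ Sol (2 * k) r)
    (fr : Free (2 * k) p) : ∃ g, ∀ᶠ p' in 𝓝 p, Cl π p' g := by
  obtain ⟨g, h1, -⟩ := loc4 hπ h
  exact ⟨g, (move hk h fr h1).mono fun p' ⟨e', a, b⟩ => ⟨e', a, b a⟩⟩

theorem cl_of_joined (hk : k ≠ 0) {π : E (2 * k)} (hπ : Pos _ π) {H : Set (Fin r → V3)}
    (hH : ∀ p ∈ H, Free (2 * k) p ∧ ∃ e, (e, p) ∈ Sol (2 * k) r) {p p' : Fin r → V3}
    (h : JoinedIn H p p') : ∃ g, Cl π p g ∧ Cl π p' g := by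
  obtain ⟨γ, hγ⟩ := h
  refine (isPreconnected_range γ.continuous).induction₂ (fun a b => ∃ g, Cl π a g ∧ Cl π b g) ?_
    (fun _ _ _ _ _ _ ⟨g, h1, h2⟩ ⟨g', h3, h4⟩ => ⟨g, h1, h4.mono (h3.join hπ h2)⟩)
    (fun _ _ _ _ ⟨g, h1, h2⟩ => ⟨g, h2, h1⟩) γ.source_mem_range γ.target_mem_range
  rintro _ ⟨t, rfl⟩
  obtain ⟨fr, e, he⟩ := hH _ (hγ t)
  obtain ⟨g, h1⟩ := cl_loc hk hπ he fr
  filter_upwards [mem_nhdsWithin_of_mem_nhds h1] with z h2 using ⟨g, h1.self_of_nhds, h2⟩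

end Pool.Agent.MP_6600f1_ag
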