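import Pool.Agent.MP_6600f1_ag.Local
import Mathlib.Data.Fin.Tuple.Sort
import Mathlib.RingTheory.Polynomial.Basic

/-! For at most `2 k` points with no `k + 1` on a line, the sum of the squares of all products of
`k` lines through them has solitary nodes exactly at these points. -/

open MvPolynomial Set Function
open scoped Matrix

set_option linter.unnecessarySeqFocus false

noncomputable section

namespace Pool.Agent.MP_6600f1_ag

variable {n r k : ℕ} {F G : Form} {p y : Fin r → V3} {a b z q m v w : V3}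

/-- cross product -/
def cx (a b : V3) : V3 := ![a 1 * b 2 - a 2 * b 1, a 2 * b 0 - a 0 * b 2, a 0 * b 1 - a 1 * b 0]

/-- determinant -/
def dt (a b v : V3) : ℝ := cx a b 0 * v 0 + cx a b 1 * v 1 + cx a b 2 * v 2

/-- the line through two points -/
def lin (a b : V3) : Form := C (cx a b 0) * X 0 + C (cx a b 1) * X 1 + C (cx a b 2) * X 2

theorem eval_lin (a b v : V3) : eval v (lin a b) = dt a b v := by simp [lin, dt]

theorem D_lin (a b v w : V3) : D (lin a b) v w = dt a b w := by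
  simp [lin, dt, D_apply, Fin.sum_univ_three, pderiv_X]

theorem cx_ne (q0 : q ≠ 0) (h : ∀ c : ℝ, a ≠ c • q) : cx a q ≠ 0 := fun e => by
  obtain ⟨i, hi⟩ := Function.ne_iff.1 q0
  have e0 := congrFun e 0
  have e1 := congrFun e 1
  have e2 := congrFun e 2
  refine h (a i / q i) (funext fun j => ?_)
  rw [Pi.smul_apply, smul_eq_mul, div_mul_eq_mul_div, eq_div_iff hi]
  fin_cases i <;> fin_cases j <;> simp [cx] at e0 e1 e2 ⊢ <;> linarith

theorem dt_trans (h : cx a q ≠ 0) (h1 : dt a b q = 0) (h2 : dt a z q = 0) : dt b z q = 0 := by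
  have : dt b z q • cx a q = dt a z q • cx b q - dt a b q • cx z q := funext fun i => by
    fin_cases i <;> simp [dt, cx] <;> ring
  simpa [h, h1, h2] using this

theorem dt_swap (a b q : V3) : dt a b q = -dt b a q := by simp [dt, cx]; ring
theorem dt_swap' (a b q : V3) : dt a b q = -dt q b a := by simp [dt, cx]; ring
theorem dt_dot (a b q : V3) : cx a q ⬝ᵥ b = -dt a b q := by
  simp [dt, cx, dotProduct, Fin.sum_univ_three]; ring
theorem dt_self (a q : V3) : dt a a q = 0 := by simp [dt, cx]; ring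
theorem dt_left (a b : V3) (c : ℝ) : dt a b (c • a) = 0 := by simp [dt, cx]; ring
theorem dt_right (a b : V3) (c : ℝ) : dt a b (c • b) = 0 := by simp [dt, cx]; ring

theorem decomp (m0 : m ≠ 0) (h : cx a b ≠ 0) (ha : m ⬝ᵥ a = 0) (hb : m ⬝ᵥ b = 0) (hz : m ⬝ᵥ z = 0) :
    ∃ x y : ℝ, z = x • a + y • b := by
  have e1 : dt a b z • m = (m ⬝ᵥ a) • cx b z + (m ⬝ᵥ b) • cx z a + (m ⬝ᵥ z) • cx a b :=
    funext fun i => by fin_cases i <;> simp [dt, cx, dotProduct, Fin.sum_univ_three] <;> ring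
  have e2 : (cx a b ⬝ᵥ cx a b) • z = dt z b (cx a b) • a + dt a z (cx a b) • b + dt a b z • cx a b :=
    funext fun i => by fin_cases i <;> simp [dt, cx, dotProduct, Fin.sum_univ_three] <;> ring
  have d : dt a b z = 0 := by simpa [ha, hb, hz, m0] using e1
  have c0 : cx a b ⬝ᵥ cx a b ≠ 0 := fun e => h (dotProduct_self_eq_zero.1 e)
  rw [d, zero_smul, add_zero] at e2
  exact ⟨_, _, by rw [← inv_smul_smul₀ c0 z, e2, smul_add, smul_smul, smul_smul]⟩

/-- the points together with the three coordinate points -/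
def ext (y : Fin r → V3) : Fin r ⊕ Fin 3 → V3 := Sum.elim y fun a => Pi.single a 1

theorem pair (hr : r ≤ 2 * k) (q0 : q ≠ 0) (hy : ∀ i (c : ℝ), y i ≠ c • q)
    (hc : ∀ m : V3, m ≠ 0 → m ⬝ᵥ q = 0 → (Finset.univ.filter fun i => m ⬝ᵥ y i = 0).card ≤ k) :
    ∃ τ : Fin k → (Fin r ⊕ Fin 3) × (Fin r ⊕ Fin 3),
      (∀ i, ∃! j, (τ j).1 = .inl i ∨ (τ j).2 = .inl i) ∧
        ∀ j, dt (ext y (τ j).1) (ext y (τ j).2) q ≠ 0 := by
  have c0 := fun i => cx_ne q0 (hy i)
  let f := fun i => Fintype.equivFin _ (Finset.univ.filter fun l => dt (y i) (y l) q = 0)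
  have fe : ∀ i j, f i = f j ↔ dt (y i) (y j) q = 0 := fun i j => by
    simp only [f, EmbeddingLike.apply_eq_iff_eq, Finset.ext_iff, Finset.mem_filter, Finset.mem_univ,
      true_and]
    exact ⟨fun h => (h j).2 (dt_self ..), fun h l => ⟨dt_trans (c0 i) h,
      dt_trans (c0 j) (by rw [dt_swap, h, neg_zero])⟩⟩
  let σ := Tuple.sort f
  have key : ∀ j j' : Fin r, j'.1 = j.1 + k → dt (y (σ j)) (y (σ j')) q ≠ 0 := fun j j' e h => by
    have := (Finset.card_le_card (s := (Finset.Icc j j').map σ.toEmbedding) fun l hl => ?_).trans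
      (hc _ (c0 (σ j)) (by simpa [dt_dot] using dt_right (y (σ j)) q 1))
    · rw [Finset.card_map, Fin.card_Icc] at this
      omega
    · obtain ⟨l, hl', rfl⟩ := Finset.mem_map.1 hl
      rw [Finset.mem_Icc] at hl'
      have : f (σ j) = f (σ l) := le_antisymm (Tuple.monotone_sort f hl'.1)
        ((Tuple.monotone_sort f hl'.2).trans ((fe _ _).2 h).ge)
      simpa [dt_dot] using (fe _ _).1 this
  have blk : ∀ j : Fin k, ∃ t : (Fin r ⊕ Fin 3) × (Fin r ⊕ Fin 3), dt (ext y t.1) (ext y t.2) q ≠ 0 ∧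
      ∀ i, t.1 = .inl (σ i) ∨ t.2 = .inl (σ i) ↔ i.1 = j ∨ i.1 = j + k := fun j => by
    by_cases h1 : j + k < r
    · exact ⟨(.inl (σ ⟨j, by omega⟩), .inl (σ ⟨j + k, h1⟩)), key _ _ rfl, fun i => by
        simp [Fin.ext_iff, eq_comm]⟩
    by_cases h2 : j < r
    · obtain ⟨l, hl⟩ := Function.ne_iff.1 (c0 (σ ⟨j, h2⟩))
      refine ⟨(.inl (σ ⟨j, h2⟩), .inr l), fun e => hl ?_, fun i => ?_⟩
      · have := dt_dot (y (σ ⟨j, h2⟩)) (Pi.single l 1) q
        simpa [show dt (y (σ ⟨j, h2⟩)) (Pi.single l 1) q = 0 from e] using this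
      · have := i.2
        simp only [Sum.inl.injEq, EmbeddingLike.apply_eq_iff_eq, Fin.ext_iff, reduceCtorEq,
          or_false]
        omega
    · obtain ⟨l, hl⟩ := Function.ne_iff.1 q0
      refine ⟨(.inr (l + 1), .inr (l + 2)), ?_, fun i => ?_⟩
      · fin_cases l <;> simpa [ext, dt, cx] using hl
      · have := i.2
        simp only [reduceCtorEq, or_false, false_iff]
        omega
  choose τ h1 h2 using blk
  refine ⟨τ, fun i => ?_, h1⟩
  obtain ⟨i, rfl⟩ := σ.surjective i
  have := i.2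
  simp only [h2]
  by_cases c : i.1 < k
  · exact ⟨⟨i, c⟩, .inl rfl, fun j hj => Fin.ext (by have := j.2; simp only at hj ⊢; omega)⟩
  · exact ⟨⟨i - k, by omega⟩, .inr (by simp only; omega),
      fun j hj => Fin.ext (by have := j.2; simp only at hj ⊢; omega)⟩

/-- distinct points, at most `k` on a line -/
def Gd (k : ℕ) (p : Fin r → V3) : Prop :=
  (∀ i, p i ≠ 0) ∧ (∀ i j (c : ℝ), p i = c • p j → i = j) ∧
    ∀ m : V3, m ≠ 0 → (Finset.univ.filter fun i => m ⬝ᵥ p i = 0).card ≤ k

/-- a product of `k` lines -/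
def pl (p : Fin r → V3) (τ : Fin k → (Fin r ⊕ Fin 3) × (Fin r ⊕ Fin 3)) : Form :=
  ∏ j, lin (ext p (τ j).1) (ext p (τ j).2)

/-- the sum of the squares of all products of `k` lines through the points -/
def Fp (k : ℕ) (p : Fin r → V3) : Form :=
  ∑ τ : Fin k → (Fin r ⊕ Fin 3) × (Fin r ⊕ Fin 3) with ∀ i, ∃ j, (τ j).1 = .inl i ∨ (τ j).2 = .inl i,
    pl p τ * pl p τ

theorem Fp_hom (p : Fin r → V3) : (Fp k p).IsHomogeneous (2 * k) := by
  have : ∀ τ : Fin k → _, (pl p τ).IsHomogeneous k := fun τ => by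
    simpa [pl] using IsHomogeneous.prod Finset.univ (fun j => lin (ext p (τ j).1) (ext p (τ j).2))
      (fun _ => 1) fun j _ => ((isHomogeneous_C_mul_X _ _).add (isHomogeneous_C_mul_X _ _)).add
        (isHomogeneous_C_mul_X _ _)
  exact IsHomogeneous.sum _ _ _ fun τ _ => two_mul k ▸ (this τ).mul (this τ)

theorem Fp_sm : Sm fun p : Fin r → V3 => Fp k p := by
  have e : ∀ t i, ContDiff ℝ 1 fun p : Fin r → V3 => ext p t i := fun t i => by
    cases t <;> simp only [ext, Sum.elim_inl, Sum.elim_inr] <;> fun_prop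
  have c : ∀ s t i, Sm fun p : Fin r → V3 => C (cx (ext p s) (ext p t) i) * X i := fun s t i =>
    (Sm.C (by fin_cases i <;> exact ((e _ _).mul (e _ _)).sub ((e _ _).mul (e _ _)))).mul (Sm.const _)
  have : ∀ τ : Fin k → _, Sm fun p : Fin r → V3 => pl p τ := fun τ =>
    Sm.prod fun j => ((c _ _ 0).add (c _ _ 1)).add (c _ _ 2)
  exact Sm.sum fun τ => (this τ).mul (this τ)

theorem pl_zero {τ : Fin k → _} {i : Fin r} (h : ∃ j, (τ j).1 = .inl i ∨ (τ j).2 = .inl i) (c : ℝ) :
    eval (c • p i) (pl p τ) = 0 := by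
  obtain ⟨j, h⟩ := h
  rw [pl, map_prod]
  refine Finset.prod_eq_zero (Finset.mem_univ j) ?_
  rcases h with h | h <;> rw [eval_lin, h]
  exacts [dt_left .., dt_right ..]

theorem hess_sum {ι : Type} (s : Finset ι) (f : ι → Form) (v w : V3) :
    hess (∑ i ∈ s, f i) v w = ∑ i ∈ s, hess (f i) v w := by
  simp only [hess, map_sum, Finset.sum_mul]
  rw [Finset.sum_comm (s := s)]
  exact Finset.sum_congr rfl fun i _ => Finset.sum_comm

theorem hess_sq (h : eval v F = 0) : hess (F * F) v w = 2 * D F v w ^ 2 := by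
  simp [hess, D_apply, Fin.sum_univ_three, h]
  ring

theorem D_mul (F G : Form) (v w : V3) : D (F * G) v w = eval v F * D G v w + D F v w * eval v G := by
  simp [D_apply, Fin.sum_univ_three]
  ring

theorem Gd.solitary (hr : r ≤ 2 * k) (h : Gd k p) : Solitary (Fp k p) p := by
  refine ⟨h.1, h.2.1, fun v => ?_, fun v v0 => ⟨fun z => ?_, ?_⟩, fun i w hw => ?_⟩
  · rw [Fp, map_sum]
    exact Finset.sum_nonneg fun τ _ => by rw [map_mul]; exact mul_self_nonneg _
  · by_contra H
    obtain ⟨τ, h1, h2⟩ := pair hr v0 (y := p) (fun i c e => H ⟨i, c⁻¹, by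
      rw [e, inv_smul_smul₀ (by rintro rfl; exact h.1 i (by simpa using e))]⟩) fun m m0 _ => h.2.2 m m0
    rw [Fp, map_sum, Finset.sum_eq_zero_iff_of_nonneg
      fun τ _ => by rw [map_mul]; exact mul_self_nonneg _] at z
    have := z τ (by simpa using fun i => (h1 i).exists)
    simp [pl, eval_lin, Finset.prod_eq_zero_iff, h2] at this
  · rintro ⟨i, c, rfl⟩
    rw [Fp, map_sum]
    exact Finset.sum_eq_zero fun τ hτ => by
      rw [map_mul, pl_zero ((Finset.mem_filter.1 hτ).2 i), mul_zero]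
  · obtain ⟨τ, h1, h2⟩ := pair hr (h.1 i) (y := update p i w) (fun j c e => by
      by_cases l : j = i
      · exact hw c (by simpa [l] using e)
      · exact l (h.2.1 j i c (by simpa [l] using e))) fun m m0 z =>
        (Finset.card_le_card fun j hj => by
          by_cases l : j = i
          · simpa [l]
          · simpa [l] using hj).trans (h.2.2 m m0)
    have sq : ∀ τ ∈ Finset.univ.filter fun τ : Fin k → (Fin r ⊕ Fin 3) × (Fin r ⊕ Fin 3) =>
        ∀ i, ∃ j, (τ j).1 = .inl i ∨ (τ j).2 = .inl i,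
        hess (pl p τ * pl p τ) (p i) w = 2 * D (pl p τ) (p i) w ^ 2 := fun τ hτ =>
      hess_sq (by simpa using pl_zero ((Finset.mem_filter.1 hτ).2 i) 1)
    rw [Fp, hess_sum, Finset.sum_congr rfl sq]
    refine Finset.sum_pos' (fun _ _ => by positivity)
      ⟨τ, by simpa using fun i => (h1 i).exists, mul_pos two_pos (sq_pos_of_ne_zero ?_)⟩
    obtain ⟨j, hj, uj⟩ := h1 i
    have ex : ∀ t, t ≠ .inl i → ext (update p i w) t = ext p t := by
      rintro (l | l) e
      · exact update_of_ne (fun c => e (congrArg _ c)) ..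
      · rfl
    have z : eval (p i) (lin (ext p (τ j).1) (ext p (τ j).2)) = 0 := by
      rcases hj with e | e <;> rw [eval_lin, e]
      exacts [one_smul ℝ (p i) ▸ dt_left _ _ 1, one_smul ℝ (p i) ▸ dt_right _ _ 1]
    rw [pl, ← Finset.mul_prod_erase _ _ (Finset.mem_univ j), D_mul, z, zero_mul, zero_add, D_lin,
      map_prod]
    refine mul_ne_zero ?_ (Finset.prod_ne_zero_iff.2 fun l hl => ?_)
    · have := h2 j
      rcases hj with e | e
      · have c : (τ j).2 ≠ .inl i := fun c => this (by rw [e, c, dt_self])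
        rw [ex _ c, e, dt_swap'] at this
        simpa [e, ext] using this
      · have c : (τ j).1 ≠ .inl i := fun c => this (by rw [e, c, dt_self])
        rw [ex _ c, e, dt_swap, dt_swap'] at this
        rw [dt_swap]
        simpa [e, ext] using this
    · have := not_or.1 fun c => Finset.ne_of_mem_erase hl (uj l c)
      rw [eval_lin, ← ex _ this.1, ← ex _ this.2]
      exact h2 l

end Pool.Agent.MP_6600f1_ag
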