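import Pool.Agent.MP_6600f1_ag.Gen
import Mathlib.Algebra.Order.Antidiag.FinsuppEquiv

/-! Generic configurations are joined by moving one point at a time. -/

open MvPolynomial Set Function Filter Topology Module
open scoped Matrix

noncomputable section

namespace Pool.Agent.MP_6600f1_ag

variable {r d k : ℕ} {p z : Fin r → V3} {v : V3} {S T : Finset (Fin r)} {a : Fin r} {F G : Form}

/-- outside a curve -/
def gen : Filter V3 where
  sets := {s | ∃ G : Form, G ≠ 0 ∧ ∀ v, eval v G ≠ 0 → v ∈ s}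
  univ_sets := ⟨1, one_ne_zero, fun _ _ => trivial⟩
  sets_of_superset := fun ⟨G, h1, h2⟩ h => ⟨G, h1, fun v hv => h (h2 v hv)⟩
  inter_sets := fun ⟨G, h1, h2⟩ ⟨H, h3, h4⟩ => ⟨G * H, mul_ne_zero h1 h3, fun v hv => by
    rw [map_mul] at hv
    exact ⟨h2 v (left_ne_zero_of_mul hv), h4 v (right_ne_zero_of_mul hv)⟩⟩

theorem gen_dense {P : V3 → Prop} (h : ∀ᶠ v in gen, P v) (v0 : V3) {ε : ℝ} (hε : 0 < ε) :
    ∃ v, dist v v0 < ε ∧ P v := by
  obtain ⟨G, h1, h2⟩ := h
  by_contra H
  push Not at H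
  refine h1 (funext_set (fun i => Ioo (v0 i - ε) (v0 i + ε))
    (fun i => Ioo_infinite (by linarith)) fun v hv => by_contra fun c => H v ?_ (h2 v (by simpa using c)))
  exact (dist_pi_lt_iff hε).2 fun i => Real.ball_eq_Ioo (v0 i) ε ▸ hv i trivial |> Metric.mem_ball.1

theorem gen_dt {a b : V3} (h : cx a b ≠ 0) : ∀ᶠ v in gen, dt a b v ≠ 0 :=
  ⟨lin a b, fun e => h (dotProduct_self_eq_zero.1 (by
    simpa [eval_lin, dt, dotProduct, Fin.sum_univ_three] using congrArg (MvPolynomial.eval (cx a b)) e)),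
    fun v hv => by rwa [eval_lin] at hv⟩

theorem gen_ne (q : V3) : ∀ᶠ v in gen, ∀ c : ℝ, v ≠ c • q := by
  by_cases q0 : q = 0
  · exact ⟨X 0, X_ne_zero 0, fun v hv c e => hv (by simp [e, q0])⟩
  obtain ⟨w, hw⟩ := exists_ne_smul q
  exact (gen_dt (cx_ne q0 hw)).mono fun v hv c e => hv (e ▸ dt_right ..)

theorem exists_van (h : T.card < (d + 2).choose d) (p : Fin r → V3) :
    ∀ᶠ v in gen, Van d T p v := by
  let L : E d →ₗ[ℝ] T → ℝ := LinearMap.pi fun j => (aeval (p j)).toLinearMap ∘ₗ toF d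
  obtain ⟨e, h1, h2⟩ := (Submodule.ne_bot_iff _).1 (L.ker_ne_bot_of_finrank_lt (by
    simpa [Ix, Finset.card_finsuppAntidiag_nat_eq_choose, show 3 + d - 1 = d + 2 by omega] using h))
  exact ⟨toF d e, fun c => h2 (by rw [← ofF_toF e, c]; rfl), fun v hv => ⟨_, toF_hom e, hv,
    fun j hj => by simpa [L, aeval_eq_eval] using congrFun (LinearMap.mem_ker.1 h1) ⟨j, hj⟩⟩⟩

theorem Ind.update (h : Ind d T p) (ha : a ∉ T) (v : V3) : Ind d T (update p a v) := fun i hi => by
  obtain ⟨f, h1, h2, h3⟩ := h i hi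
  exact ⟨f, h1, by rwa [update_of_ne (by rintro rfl; exact ha hi)], fun j hj => by
    rw [update_of_ne (by rintro rfl; exact ha (Finset.mem_of_mem_erase hj)), h3 j hj]⟩

theorem Ind.insert (h : Ind d T p) (ha : a ∉ T) (hv : Van d T p v) :
    Ind d (insert a T) (Function.update p a v) := fun i hi => by
  obtain ⟨f, h1, h2, h3⟩ := hv
  have u : ∀ j ∈ T, Function.update p a v j = p j := fun j hj =>
    update_of_ne (by rintro rfl; exact ha hj) ..
  rcases Finset.mem_insert.1 hi with rfl | hi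
  · exact ⟨f, h1, by simpa, fun j hj => by
      rw [Finset.erase_insert ha] at hj
      rw [u j hj, h3 j hj]⟩
  · obtain ⟨g, g1, g2, g3⟩ := h i hi
    refine ⟨C (eval v f) * g - C (eval v g) * f, (g1.C_mul _).sub (h1.C_mul _),
      by simp [u i hi, h3 i hi, h2, g2], fun j hj => ?_⟩
    obtain ⟨l, hj⟩ := Finset.mem_erase.1 hj
    rcases Finset.mem_insert.1 hj with rfl | hj
    · simp [mul_comm]
    · simp [u j hj, h3 j hj, g3 j (Finset.mem_erase.2 ⟨l, hj⟩)]

/-- the points of `S` are in general position -/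
structure Inv (d : ℕ) (S : Finset (Fin r)) (p : Fin r → V3) : Prop where
  ne : ∀ i ∈ S, p i ≠ 0
  inj : ∀ i ∈ S, ∀ j ∈ S, ∀ c : ℝ, p i = c • p j → i = j
  col : ∀ m : V3, m ≠ 0 → (S.filter fun i => m ⬝ᵥ p i = 0).card ≤ 2
  ind : ∀ T ⊆ S, T.card < r → Ind d T p

theorem Inv.mono (h : Inv d S p) (hT : T ⊆ S) : Inv d T p :=
  ⟨fun i hi => h.ne i (hT hi), fun i hi j hj => h.inj i (hT hi) j (hT hj), fun m m0 =>
    (Finset.card_le_card (Finset.filter_subset_filter _ hT)).trans (h.col m m0),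
    fun U hU => h.ind U (hU.trans hT)⟩

theorem Inv.sep (h : Inv d S p) (ha : a ∉ S) (v0 : v ≠ 0) (hv : ∀ j ∈ S, ∀ c : ℝ, v ≠ c • p j) :
    (∀ i ∈ insert a S, update p a v i ≠ 0) ∧
      ∀ i ∈ insert a S, ∀ j ∈ insert a S, ∀ c : ℝ, update p a v i = c • update p a v j → i = j := by
  have u : ∀ j ∈ S, update p a v j = p j := fun j hj => update_of_ne (by rintro rfl; exact ha hj) ..
  simp only [Finset.forall_mem_insert, update_self, implies_true, true_and]
  refine ⟨⟨v0, fun i hi => u i hi ▸ h.ne i hi⟩, fun j hj c e => (hv j hj c (u j hj ▸ e)).elim,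
    fun i hi => ⟨fun c e => (hv i hi c⁻¹ ?_).elim, fun j hj c e => h.inj i hi j hj c ?_⟩⟩
  · rw [u i hi] at e
    rw [e, inv_smul_smul₀ (by rintro rfl; exact h.ne i hi (by simpa using e))]
  · rwa [u i hi, u j hj] at e

theorem filter_update (ha : a ∉ S) (m v : V3) : ((insert a S).filter fun i => m ⬝ᵥ update p a v i = 0) =
    if m ⬝ᵥ v = 0 then insert a (S.filter fun i => m ⬝ᵥ p i = 0) else S.filter fun i => m ⬝ᵥ p i = 0 := by
  rw [Finset.filter_insert, update_self, Finset.filter_congr fun j hj => by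
    rw [update_of_ne (by rintro rfl; exact ha hj)]]

theorem Inv.step (hr : r ≤ (d + 2).choose d + 1) (h : Inv d S p) (ha : a ∉ S) :
    ∀ᶠ v in gen, Inv d (insert a S) (update p a v) := by
  have a1 : ∀ᶠ v in gen, ∀ i ∈ S, ∀ j ∈ S, i ≠ j → dt (p i) (p j) v ≠ 0 :=
    (eventually_all_finset S).2 fun i hi => (eventually_all_finset S).2 fun j hj =>
      eventually_imp_distrib_left.2 fun ij => gen_dt (cx_ne (h.ne j hj) fun c e => ij (h.inj i hi j hj c e))
  have a2 : ∀ᶠ v in gen, ∀ T : Finset (Fin r), T.card + 1 < r → Van d T p v :=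
    eventually_all.2 fun T => eventually_imp_distrib_left.2 fun l => exists_van (by omega) p
  filter_upwards [a1, a2, gen_ne 0, eventually_all.2 fun j => gen_ne (p j)] with v a1 a2 a3 a4
  obtain ⟨b1, b2⟩ := h.sep ha (by simpa using a3 0) fun j _ => a4 j
  refine ⟨b1, b2, fun m m0 => ?_, fun T hT l => ?_⟩
  · rw [filter_update ha]
    split_ifs with c
    · refine (Finset.card_insert_le ..).trans (Nat.succ_le_succ (Finset.card_le_one.2
        fun i hi j hj => by_contra fun ij => ?_))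
      rw [Finset.mem_filter] at hi hj
      obtain ⟨x, y, e⟩ := decomp m0 (cx_ne (h.ne j hj.1) fun c e => ij (h.inj i hi.1 j hj.1 c e))
        hi.2 hj.2 c
      exact a1 i hi.1 j hj.1 ij (by simp [e, dt, cx]; ring)
    · exact h.col m m0
  · by_cases c : a ∈ T
    · have := Finset.card_erase_add_one c
      rw [← Finset.insert_erase c]
      exact (h.ind _ (Finset.subset_insert_iff.1 hT) (by omega)).insert (by simp) (a2 _ (by omega))
    · exact (h.ind T ((Finset.subset_insert_iff_of_notMem c).1 hT) l).update c v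

theorem exists_inv (hr : r ≤ (d + 2).choose d + 1) (S : Finset (Fin r)) : ∃ z, Inv d S z := by
  induction S using Finset.induction_on with
  | empty => exact ⟨0, by simp, by simp, by simp, fun T hT _ i hi => by simpa using hT hi⟩
  | insert a S ha ih =>
    obtain ⟨z, hz⟩ := ih
    obtain ⟨v, -, hv⟩ := gen_dense (hz.step hr ha) 0 one_pos
    exact ⟨_, hv⟩

/-- the good configurations -/
def Gc (d r : ℕ) : Set (Fin r → V3) := {p | Gd 3 p ∧ ∃ i, Ind d (Finset.univ.erase i) p}

theorem Inv.join (h : Inv d Finset.univ z) (h' : Inv d Finset.univ (update z a v)) :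
    JoinedIn (Gc d r) z (update z a v) := by
  have h0 := h.mono (Finset.erase_subset a _)
  have := (avoid (P := ℝ) (fun (j : Option (Fin r)) t => t • j.elim 0 fun j => if j = a then 0 else z j)
    (fun j => by fun_prop) (by simp) isOpen_univ
    (Y := {v | v ≠ 0 ∧ ∀ j ∈ Finset.univ.erase a, ∀ c : ℝ, v ≠ c • z j}) (fun v _ H => by
      by_cases v0 : v = 0
      · exact ⟨none, 0, by simp [v0]⟩
      · obtain ⟨j, hj, c, e⟩ : ∃ j, j ≠ a ∧ ∃ c : ℝ, v = c • z j := by simpa [v0] using H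
        exact ⟨some j, c, by simp [hj, e]⟩)
    (x := z a) (y := v) ⟨h.ne a (by simp), fun j hj c e =>
      Finset.ne_of_mem_erase hj (h.inj a (by simp) j (by simp) c e).symm⟩
    ⟨by simpa using h'.ne a (by simp), fun j hj c e => Finset.ne_of_mem_erase hj
      (h'.inj a (by simp) j (by simp) c (by simpa [Finset.ne_of_mem_erase hj])).symm⟩
    ((convex_univ.isPathConnected univ_nonempty).joinedIn _ trivial _ trivial)).map
    (f := update z a) (continuous_const.update a continuous_id)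
  rw [update_eq_self] at this
  refine this.mono ?_
  rintro _ ⟨v, ⟨v0, hv⟩, rfl⟩
  obtain ⟨b1, b2⟩ := h0.sep (a := a) (by simp) v0 hv
  have e := Finset.insert_erase (Finset.mem_univ a)
  refine ⟨⟨fun i => b1 i (by simp [e]), fun i j => b2 i (by simp [e]) j (by simp [e]), fun m m0 => ?_⟩,
    a, (h0.ind _ subset_rfl (by have := a.pos; simp; omega)).update (by simp) v⟩
  rw [← e, filter_update (by simp)]
  split_ifs
  · exact (Finset.card_insert_le ..).trans (Nat.succ_le_succ (h0.col m m0))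
  · exact (h0.col m m0).trans (by omega)

theorem Inv.reach (hr : r ≤ (d + 2).choose d + 1) (r0 : 0 < r) (h : Inv d Finset.univ z)
    (p : Fin r → V3) {ε : ℝ} (hε : 0 < ε) : ∃ z', JoinedIn (Gc d r) z z' ∧ dist z' p < ε := by
  have : ∀ S : Finset (Fin r), ∃ z', Inv d Finset.univ z' ∧ JoinedIn (Gc d r) z z' ∧
      ∀ j ∈ S, dist (z' j) (p j) < ε := fun S => by
    induction S using Finset.induction_on with
    | empty =>
      have e := update_eq_self (⟨0, r0⟩ : Fin r) z
      exact ⟨z, h, .refl (h.join (e.symm ▸ h)).source_mem, by simp⟩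
    | insert a S ha ih =>
      obtain ⟨z', h1, h2, h3⟩ := ih
      obtain ⟨v, h4, h5⟩ := gen_dense ((h1.mono (Finset.erase_subset a _)).step hr (a := a) (by simp))
        (p a) hε
      rw [Finset.insert_erase (Finset.mem_univ a)] at h5
      refine ⟨_, h5, h2.trans (h1.join h5), fun j hj => ?_⟩
      rcases Finset.mem_insert.1 hj with rfl | hj'
      · simpa
      · rw [update_of_ne (by rintro rfl; exact ha hj')]
        exact h3 j hj'
  obtain ⟨z', -, h1, h2⟩ := this Finset.univ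
  exact ⟨z', h1, (dist_pi_lt_iff hε).2 fun j => h2 j (by simp)⟩

theorem contractible_rigid (hk : 3 ≤ k) (hr : 2 * r ≤ k * (k + 1) + 2) (nF : Nonsing F)
    (nG : Nonsing G) (sF : Contractible (2 * k) F r) (sG : Contractible (2 * k) G r) :
    RigidIso (2 * k) F G := by
  have hπ : Pos (2 * k) (ofF _ ((X 0 ^ 2 + X 1 ^ 2 + X 2 ^ 2) ^ k)) := fun v => by
    rw [toF_ofF ((((isHomogeneous_X_pow 0 2).add (isHomogeneous_X_pow 1 2)).add
      (isHomogeneous_X_pow 2 2)).pow k)]
    simp only [map_pow, map_add, eval_X]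
    refine ⟨by positivity, fun v0 => pow_pos (not_le.1 fun H => v0 (funext fun i => ?_)) _⟩
    fin_cases i <;> simp <;> nlinarith [sq_nonneg (v 0), sq_nonneg (v 1), sq_nonneg (v 2)]
  generalize ofF _ _ = π at hπ
  obtain ⟨c, hc, q, hq, fr, g, h1, j⟩ := sF.near hπ
  obtain ⟨c', hc', q', hq', fr', g', h2, j'⟩ := sG.near hπ
  have j0 : JoinedIn (U (2 * k)) g g' := by
    by_cases l : r ≤ 2 * k
    · obtain ⟨g0, h3, h4⟩ := near_of_joined hπ (sol_joined hk l hq hq')
      exact (h1.join h3).trans (h4.join h2)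
    obtain ⟨d, rfl⟩ : ∃ d, k = d + 1 := ⟨k - 1, by omega⟩
    have hr' : r ≤ (d + 2).choose d + 1 := by
      rw [Nat.choose_symm_add, Nat.choose_two_right, show d + 2 - 1 = d + 1 from rfl, mul_comm]
      rw [add_assoc d 1 1, one_add_one_eq_two] at hr
      omega
    obtain ⟨z, hz⟩ := exists_inv hr' Finset.univ
    have key : ∀ q ∈ Sol (2 * (d + 1)) r, Free (2 * (d + 1)) q.2 → ∀ g, Near π q.1 g → Cl π z g :=
      fun q hq fr g h => by
      obtain ⟨g1, a1⟩ := cl_loc (by omega) hπ hq fr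
      obtain ⟨ε, ε0, hε⟩ := Metric.eventually_nhds_iff.1 a1
      obtain ⟨z', a2, a3⟩ := hz.reach hr' (by omega) q.2 ε0
      obtain ⟨g2, a4, a5⟩ := cl_of_joined (by omega) hπ (fun p hp => by
        obtain ⟨b, i, b'⟩ := hp
        have b : Gd (d + 1) p := ⟨b.1, b.2.1, fun m m0 => (b.2.2 m m0).trans hk⟩
        exact ⟨free_of_ind b b', sol_of_ind b b'⟩) a2
      exact a4.mono ((a5.join hπ (hε a3)).trans (Cl.join hπ a1.self_of_nhds ⟨_, hq, h⟩))
    exact (key q hq (fr.resolve_left l) g h1).join hπ (key q' hq' (fr'.resolve_left l) g' h2)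
  have := ((j.trans (⟨toF_hom _, toF_hom _, by simpa only [ofF_toF] using j0⟩ :
    J (2 * k) (toF _ g) (toF _ g'))).trans j'.symm).smul (inv_ne_zero hc)
  rw [inv_smul_smul₀ hc, ← mul_smul] at this
  exact this.rigid (by omega) (mul_ne_zero (inv_ne_zero hc) hc') nF nG

end Pool.Agent.MP_6600f1_ag
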