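import Pool.Agent.MP_6600f1_ag.Flow

/-! Star-shaped curves are rigidly isotopic to a normal form. -/

open MvPolynomial Set
open scoped Matrix

noncomputable section

namespace Pool.Agent.MP_6600f1_ag

variable {k m r : ℕ} {F G : Form} {a ε : ℝ}

/-- the standard curves -/
def N (n : ℕ) (ε : ℝ) (m : ℕ) : Form :=
  W n 1 (fun i : Fin m => (i : ℝ)) (C ε * (X 0 ^ 2 + X 1 ^ 2) ^ ((n - m) / 2))

theorem Df_std (hε : ε ≠ 0) (l : ℕ) : Df (2 * l) ε (C ε * (X 0 ^ 2 + X 1 ^ 2) ^ l) := by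
  refine ⟨(((isHomogeneous_X_pow 0 2).add (isHomogeneous_X_pow 1 2)).pow l).C_mul ε,
    by simp [Derivation.leibniz_pow], fun v hv => ?_⟩
  have : 0 < v 0 ^ 2 + v 1 ^ 2 := by
    by_contra H
    exact hv (Prod.ext (by nlinarith [sq_nonneg (v 0), sq_nonneg (v 1)])
      (by nlinarith [sq_nonneg (v 0), sq_nonneg (v 1)]))
  simp only [map_mul, map_pow, map_add, eval_C, eval_X, ← mul_assoc]
  exact mul_pos (mul_self_pos.2 hε) (pow_pos this l)

theorem split_J (hk : k ≠ 0) (hF : F.IsHomogeneous (2 * k)) (ha : 0 < a)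
    (hs : ∀ x y z, eval ![x, y, z] F = eval ![x, y, 0] F + a * z ^ (2 * k))
    (hε : 0 < ε * eval ![1, 0, 0] F) (hc : {s | eval ![s, 1, 0] F = 0}.ncard = 2 * r)
    (h1 : ∀ s, eval ![s, 1, 0] F = 0 → deriv (fun s => eval ![s, 1, 0] F) s ≠ 0) :
    J (2 * k) F (N (2 * k) ε (2 * r)) := by
  obtain ⟨e, t, Q, h2, h3, h4, rfl⟩ := split_W hF hs hε hc h1
  have := Df_std (left_ne_zero_of_mul hε.ne') ((2 * k - 2 * r) / 2)
  rw [show 2 * ((2 * k - 2 * r) / 2) = e by omega] at this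
  exact W_J (by omega) h2 ha one_pos h3 (fun i j h => by exact_mod_cast h) h4 this

theorem star_J (hk : k ≠ 0) (hF : F.IsHomogeneous (2 * k)) (hr : RN F)
    (hP : 0 < eval ![0, 0, 1] F) (hu : Up F) (hε : 0 < ε * eval ![1, 0, 0] F)
    (hc : {s | eval ![s, 1, 0] F = 0}.ncard = 2 * r)
    (h1 : ∀ s, eval ![s, 1, 0] F = 0 → deriv (fun s => eval ![s, 1, 0] F) s ≠ 0) :
    J (2 * k) F (N (2 * k) ε (2 * r)) := by
  have ax := mw_axis (w := wt (2 * k) 1) (by simp [wt]) F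
  have := split_J (F := mw (wt (2 * k) 1) F) (ε := ε) (r := r) hk (mw_hom _ hF) hP
    (fun x y z => by rw [mw_split (by omega) hF, ax]) (by rwa [ax]) (by simpa only [ax])
    (by simpa only [ax])
  exact (flow (by omega) hF hr hP.ne' hu this.symm.rn).trans this

theorem link (hk : k ≠ 0) : J (2 * k) ((-1 : ℝ) • N (2 * k) (-1) 0) (N (2 * k) 1 2) := by
  have ev : Even (2 * k) := even_two_mul k
  have d : Df (2 * k) (-1) (-(X 0 ^ (2 * k) + X 1 ^ (2 * k))) := by
    refine ⟨((isHomogeneous_X_pow 0 _).add (isHomogeneous_X_pow 1 _)).neg,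
      by simp [Derivation.leibniz_pow], fun v hv => ?_⟩
    simp only [map_neg, map_add, map_pow, eval_X, neg_mul_neg, one_mul]
    by_cases c : v 0 = 0
    · exact add_pos_of_nonneg_of_pos (ev.pow_nonneg _) (ev.pow_pos fun c' => hv (Prod.ext c c'))
    · exact add_pos_of_pos_of_nonneg (ev.pow_pos c) (ev.pow_nonneg _)
  have d' := Df_std (ε := -1) (by norm_num) ((2 * k - 0) / 2)
  rw [show 2 * ((2 * k - 0) / 2) = 2 * k by omega] at d'
  have j1 := (W_J (n := 2 * k) (t := fun i : Fin 0 => (i : ℝ)) (t' := fun i : Fin 0 => (i : ℝ))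
    (by omega) (zero_add _) one_pos one_pos (fun i => i.elim0) (fun i => i.elim0) d' d).smul (c := -1) (by norm_num)
  have j2 := J.sub ev j1.2.1 j1.rn (A := !![1, 0, 0; 0, 0, 1; 0, 1, 0])
    (by simp [Matrix.det_fin_three])
  have e : ∀ x y z, eval ![x, y, z] (sub !![1, 0, 0; 0, 0, 1; 0, 1, 0] ((-1 : ℝ) • W (2 * k) 1
      (fun i : Fin 0 => (i : ℝ)) (-(X 0 ^ (2 * k) + X 1 ^ (2 * k))))) =
      x ^ (2 * k) - y ^ (2 * k) + z ^ (2 * k) := fun x y z => by
    simp [eval_sub', W]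
    ring
  have r1 : ∀ s : ℝ, s ^ (2 * k) - 1 = 0 ↔ s = 1 ∨ s = -1 := fun s => by
    rw [sub_eq_zero, pow_eq_one_iff_of_ne_zero (by omega)]
    simp [ev]
  refine j1.trans (j2.trans (split_J (r := 1) hk j2.2.1 one_pos (fun x y z => ?_) ?_ ?_ ?_))
  · rw [e, e]; simp [hk]
  · rw [e]; simp [hk]
  · simp only [e, one_pow, zero_pow (show 2 * k ≠ 0 by omega), add_zero, r1]
    exact ncard_pair (by norm_num)
  · simp only [e, one_pow, zero_pow (show 2 * k ≠ 0 by omega), add_zero, r1]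
    rintro s (rfl | rfl) <;> simp [hk]

theorem val_eq (F : Form) (c : ℝ) (A : M3) (x y z : ℝ) :
    val F c A x y z = eval ![x, y, z] (sub A (c • F)) := by rw [eval_sub', smul_eval, val]

theorem StarCurve.J (hk : k ≠ 0) (hF : F.IsHomogeneous (2 * k)) (hr : RN F) (h : StarCurve F r) :
    ∃ c : ℝ, c ≠ 0 ∧ J (2 * k) (c • F) (N (2 * k) 1 (2 * r)) := by
  obtain ⟨c, A, hA, hP, hS, H⟩ := h
  have hc : c ≠ 0 := left_ne_zero_of_mul hP.ne'
  have j := J.sub (even_two_mul k) (hom_smul hF c) (hr.smul hc) hA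
  simp only [val_eq] at hP hS H
  generalize sub A (c • F) = G at hP hS H j
  have sc : ∀ x y u : ℝ, 0 < u → eval ![x, y, u] G = u ^ (2 * k) * eval ![x / u, y / u, 1] G :=
    fun x y u hu => by
    rw [← eval_smul' j.2.1]
    congr 2
    funext i; fin_cases i <;> simp <;> field_simp
  have hu : Up G := fun x y u u' h0 h1 h2 => by
    have u0 := h0.trans h1
    rw [sc x y u h0] at h2
    have := hS.smul_mem (x := (x / u, y / u)) ((mul_pos_iff_of_pos_left (pow_pos h0 _)).1 h2).le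
      (t := u / u') (by positivity) ((div_le_one u0).2 h1.le)
    rw [sc x y u' u0]
    refine mul_nonneg (pow_pos u0 _).le ?_
    convert this using 1
    simp only [mem_ofPred_eq, Prod.smul_fst, Prod.smul_snd, smul_eq_mul]
    rw [show u / u' * (x / u) = x / u' by field_simp, show u / u' * (y / u) = y / u' by field_simp]
  obtain ⟨h1, h2, h3⟩ | ⟨rfl, h1⟩ := H
  · exact ⟨c, hc, j.trans (star_J hk j.2.1 j.rn hP hu (by simpa) h2 h3)⟩
  · have z : ∀ s, eval ![s, 1, 0] G ≠ 0 := fun s => (h1 s 1 (by simp)).ne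
    have := (j.trans (star_J (ε := -1) (r := 0) hk j.2.1 j.rn hP hu (by simpa using h1 1 0 (by simp))
      (by simp [z]) fun s e => (z s e).elim)).smul (c := -1) (by norm_num)
    exact ⟨-1 * c, by simpa, mul_smul (-1 : ℝ) c F ▸ this.trans (link hk)⟩

theorem star_rigid (hk : 2 ≤ k) (hF : F.IsHomogeneous (2 * k)) (hG : G.IsHomogeneous (2 * k))
    (nF : Nonsing F) (nG : Nonsing G) (sF : StarCurve F r) (sG : StarCurve G r) :
    RigidIso (2 * k) F G := by
  obtain ⟨c, hc, j⟩ := sF.J (by omega) hF nF.rn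
  obtain ⟨c', hc', j'⟩ := sG.J (by omega) hG nG.rn
  have := (j.trans j'.symm).smul (inv_ne_zero hc)
  rw [inv_smul_smul₀ hc, ← mul_smul] at this
  exact this.rigid (by omega) (mul_ne_zero (inv_ne_zero hc) hc') nF nG

end Pool.Agent.MP_6600f1_ag
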